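import Mathlib

/-!
# Constants of the thin zones for every length `l` (helper30)

A thin zone in a plain set with `16 (t + 1) 2 ^ q ≤ l ^ s` costs `cs l * s + c0 l` bits.
-/

set_option autoImplicit false

namespace FlashRainbow.CFL

/-- slope of the exponent of `thin_zone` -/
def cs (l : ℕ) : ℕ := 22 + 17 * Nat.clog 2 l

/-- constant term of the exponent of `thin_zone` -/
def c0 (l : ℕ) : ℕ := 81 + 5 * Nat.clog 2 l

theorem le_two_pow_clog (l : ℕ) : l ≤ 2 ^ Nat.clog 2 l := Nat.le_pow_clog (by norm_num) l

end FlashRainbow.CFL
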