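import Pool.Agent.Work.MP_54723a_co.CF.Chi

/-!
# Constant factor for every `l`: private colours (A1)  (port of CF/Chi, helper74; helper26)

`exists_select`, `card_flash_in_le`, `chi`, `avoid_le` of CF/Chi are already for every `l`.
-/

set_option autoImplicit false

namespace FlashRainbow.CFL

open Classical FlashRainbow.CF

variable {c : ℕ → ℕ → ℕ} {V T W U X Θ : Finset ℕ} {l R r C p d e : ℕ} {lev : ℕ → ℕ → ℕ}

/-- **A1**: private colours `c a w`, `w ∈ W`. -/
theorem private_le (hl : 2 ≤ l) (hL : Lev c V l lev) (hR : Rk c W R) {a : ℕ} (ha : a ∈ V)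
    (hW : W ⊆ V)
    (haW : ∀ w ∈ W, a < w)
    (hp : ∀ w ∈ W, ∀ D, RS c W w D → Disjoint D Θ → c a w ∉ D → D.card ≤ p) :
    W.card * 2 ^ Θ.card ≤ (p + 1) * 2 ^ (p + 1) * l ^ (p + 1) * (2 ^ R * l ^ Θ.card) := by
  set pb : ℕ → ℕ → Prop := fun w j =>
    ∃ D, RS c W w D ∧ Disjoint D Θ ∧ c a w ∉ D ∧ D.card = j with hpb
  have hpbt : ∀ w ∈ W, ∀ j, pb w j → j ≤ p := by
    rintro w hw j ⟨D, h1, h2, h3, rfl⟩
    exact hp w hw D h1 h2 h3
  have hpb0 : ∀ w ∈ W, pb w 0 := fun w hw =>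
    ⟨∅, RS.single hw, Finset.disjoint_empty_left _, Finset.notMem_empty _, rfl⟩
  set fb : ℕ → ℕ := fun v => Nat.findGreatest (pb v) p with hfb
  have hb' : ∀ w ∈ W, ∃ D, RS c W w D ∧ Disjoint D Θ ∧ c a w ∉ D ∧ D.card = fb w :=
    fun w hw => Nat.findGreatest_spec (P := pb w) (Nat.zero_le _) (hpb0 w hw)
  choose! Q hQ using hb'
  obtain ⟨y, -, hy⟩ := exists_big_fiber W fb (Finset.range (p + 1)) ⟨0, by simp⟩ (by
      intro v _
      rw [Finset.mem_range]
      exact Nat.lt_succ_of_le (Nat.findGreatest_le _))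
  rw [Finset.card_range] at hy
  set W₁ := W.filter fun v => fb v = y with hW₁
  have hW₁W : W₁ ⊆ W := Finset.filter_subset _ _
  -- first selection : the private colours are in no chosen palette
  obtain ⟨W₂, hW₂, hW₂c, hW₂s⟩ := exists_select (T := W₁) (l := 2)
    (lev := fun γ v => if γ = c a v then 1 else 0) (by omega) (fun v => insert (c a v) (Q v))
    (p + 1) (by
      intro v hv
      have h1 := (hQ v (hW₁W hv)).2.2.2
      have h2 : fb v ≤ p := Nat.findGreatest_le _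
      have h3 := Finset.card_insert_le (c a v) (Q v)
      omega) (by
      intro γ v _
      split_ifs <;> omega)
  have hpriv : ∀ u ∈ W₂, ∀ v ∈ W₂, c a u ∉ Q v := by
    intro u hu v hv h
    have h1 := hW₂s u hu v hv (c a u) (Finset.mem_insert_self _ _) (Finset.mem_insert_of_mem h)
    simp only [if_true] at h1
    split_ifs at h1 with h2
    exact (hQ v (hW₁W (hW₂ hv))).2.2.1 (h2 ▸ h)
  have harc : ∀ u ∈ W₂, ∀ v ∈ W₂, u < v → c u v ∉ Θ → c u v = c a u ∨ c u v ∈ Q v := by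
    intro u hu v hv huv hcΘ
    by_contra hnot
    rw [not_or] at hnot
    obtain ⟨h1, h2, h3, h4⟩ := hQ v (hW₁W (hW₂ hv))
    have h5 := RS.step h1 (hW₁W (hW₂ hu)) huv hnot.2
    have h6 : pb u (fb v + 1) := by
      refine ⟨_, h5, ?_, ?_, ?_⟩
      · rw [Finset.disjoint_insert_left]; exact ⟨hcΘ, h2⟩
      · rw [Finset.mem_insert, not_or]
        exact ⟨fun h => hnot.1 h.symm, hpriv u hu v hv⟩
      · rw [Finset.card_insert_of_notMem hnot.2, h4]
    have h7 := Nat.le_findGreatest (hpbt _ (hW₁W (hW₂ hu)) _ h6) h6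
    have h8 : fb v + 1 ≤ fb u := h7
    have h9 := (Finset.mem_filter.mp (hW₂ hu)).2
    have h10 := (Finset.mem_filter.mp (hW₂ hv)).2
    omega
  -- second selection : levels
  obtain ⟨W₃, hW₃, hW₃c, hW₃s⟩ := exists_select (T := W₂) (l := l) (lev := lev) (by omega)
      (fun v => insert (c a v) (Q v)) (p + 1) (by
      intro v hv
      have h1 := (hQ v (hW₁W (hW₂ hv))).2.2.2
      have h2 : fb v ≤ p := Nat.findGreatest_le _
      have h3 := Finset.card_insert_le (c a v) (Q v)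
      omega) (fun γ v hv => hL.lt γ v (hW (hW₁W (hW₂ hv))))
  have hW₃V : W₃ ⊆ V := hW₃.trans (hW₂.trans (hW₁W.trans hW))
  have hfin := card_flash_in_le (T := W₃) (Θ := Θ) hl (hL.mono hW₃V)
    (fun y D hD => hR y D (hD.mono (hW₃.trans (hW₂.trans hW₁W)))) (by
      intro x hx y hy z hz hxy hyz heq
      by_contra hnot
      have g1 := hL.up x (hW₃V hx) y (hW₃V hy) hxy
      have g2 := hL.up y (hW₃V hy) z (hW₃V hz) hyz
      rw [← heq] at g2
      rcases harc x (hW₃ hx) y (hW₃ hy) hxy hnot with h | h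
      · rcases harc y (hW₃ hy) z (hW₃ hz) hyz (heq ▸ hnot) with h' | h'
        · -- `c x y = c a x` and `c y z = c a y` : the same private colour at `x` and `y`
          have h3 : c a x = c a y := by rw [← h, heq, h']
          have g5 := hW₃s x hx y hy (c a x) (Finset.mem_insert_self _ _)
            (by rw [h3]; exact Finset.mem_insert_self _ _)
          rw [← h] at g5
          omega
        · exact hpriv x (hW₃ hx) z (hW₃ hz) (by rw [← h, heq]; exact h')
      · rcases harc y (hW₃ hy) z (hW₃ hz) hyz (heq ▸ hnot) with h' | h'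
        · exact (hQ y (hW₁W (hW₂ (hW₃ hy)))).2.2.1 (by rw [← h', ← heq]; exact h)
        · have g5 := hW₃s y hy z hz (c x y) (Finset.mem_insert_of_mem h)
            (Finset.mem_insert_of_mem (by rw [heq]; exact h'))
          omega)
  calc W.card * 2 ^ Θ.card ≤ ((p + 1) * W₁.card) * 2 ^ Θ.card := Nat.mul_le_mul_right _ hy
    _ ≤ ((p + 1) * (2 ^ (p + 1) * W₂.card)) * 2 ^ Θ.card := by gcongr
    _ ≤ ((p + 1) * (2 ^ (p + 1) * (l ^ (p + 1) * W₃.card))) * 2 ^ Θ.card := by gcongr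
    _ = (p + 1) * 2 ^ (p + 1) * l ^ (p + 1) * (W₃.card * 2 ^ Θ.card) := by ring
    _ ≤ (p + 1) * 2 ^ (p + 1) * l ^ (p + 1) * (2 ^ R * l ^ Θ.card) := Nat.mul_le_mul_left _ hfin

end FlashRainbow.CFL
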