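import Pool.Agent.Work.MP_54723a_co.CF.Extremal

/-!
# Constant factor for every length: extremal sets, from large ranks to colourings of `Fin n`
(port of CF/Extremal.lean of helper78 and CF/FinalC.lean of helper57; helper45)
-/

set_option autoImplicit false

namespace FlashRainbow.CFL

open Classical FlashRainbow.CF

variable {l : ℕ}

theorem exists_MB (hl : 2 ≤ l) (R : ℕ) : ∃ N, MB l R N := by
  obtain ⟨K, hK⟩ := poly_bound
  exact ⟨K * (R + 1) ^ 5 * l ^ R, fun c V lev hL hR => hK l hl c lev R V hL hR⟩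

/-- the largest `|V|` for `V` without `l`-flash and of rank at most `R` -/
noncomputable def Ml (hl : 2 ≤ l) (R : ℕ) : ℕ := Nat.find (exists_MB hl R)

theorem Ml_spec (hl : 2 ≤ l) (R : ℕ) : MB l R (Ml hl R) := Nat.find_spec (exists_MB hl R)

theorem Ml_le (hl : 2 ≤ l) {R N : ℕ} (h : MB l R N) : Ml hl R ≤ N :=
  Nat.find_min' (exists_MB hl R) h

theorem Ml_attained (hl : 2 ≤ l) (R : ℕ) : ∃ (c : ℕ → ℕ → ℕ) (V : Finset ℕ) (lev : ℕ → ℕ → ℕ),
    Lev c V l lev ∧ Rk c V R ∧ V.card = Ml hl R := by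
  by_contra hcon
  push Not at hcon
  have h1 : ∀ (c : ℕ → ℕ → ℕ) (V : Finset ℕ) (lev : ℕ → ℕ → ℕ), Lev c V l lev → Rk c V R →
      V.card < Ml hl R := fun c V lev hL hR =>
    lt_of_le_of_ne (Ml_spec hl R c V lev hL hR) (hcon c V lev hL hR)
  have h2 : 0 < Ml hl R := by
    have := h1 (fun _ _ => 0) ∅ (fun _ _ => 0)
      ⟨fun _ v hv => absurd hv (Finset.notMem_empty _),
        fun u hu => absurd hu (Finset.notMem_empty _)⟩
      (fun y D hD => absurd hD.mem (Finset.notMem_empty _))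
    omega
  have h3 : MB l R (Ml hl R - 1) := fun c V lev hL hR => by
    have := h1 c V lev hL hR
    omega
  have := Ml_le hl h3
  omega

theorem Ml_succ_ge (hl : 2 ≤ l) (R : ℕ) : Ml hl R * l ≤ Ml hl (R + 1) := by
  obtain ⟨c, V, lev, hL, hR, hc⟩ := Ml_attained hl R
  have := MB_blow (by omega) (Ml_spec hl (R + 1)) hL hR
  rwa [hc] at this

theorem Ml_mul_pow_le (hl : 2 ≤ l) {r R : ℕ} (h : r ≤ R) : Ml hl r * l ^ (R - r) ≤ Ml hl R := by
  obtain ⟨n, rfl⟩ := Nat.exists_eq_add_of_le h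
  rw [Nat.add_sub_cancel_left]
  clear h
  induction n with
  | zero => simp
  | succ n ih =>
    calc Ml hl r * l ^ (n + 1) = Ml hl r * l ^ n * l := by ring
      _ ≤ Ml hl (r + n) * l := Nat.mul_le_mul_right _ ih
      _ ≤ Ml hl (r + (n + 1)) := Ml_succ_ge hl (r + n)

/-- from the extremal sets of large rank to all sets -/
theorem MB_of_large (hl : 2 ≤ l) {K T₀ : ℕ}
    (h : ∀ R, T₀ ≤ R → ∀ (c : ℕ → ℕ → ℕ) (V : Finset ℕ) (lev : ℕ → ℕ → ℕ),
      Lev c V l lev → Rk c V R →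
      (∀ T ⊆ V, ∀ r ≤ R, Rk c T r → T.card * l ^ (R - r) ≤ V.card) → V.card ≤ K * l ^ R)
    (R : ℕ) : MB l R (max K (Ml hl T₀) * l ^ R) := by
  intro c' V' lev' hL' hR'
  refine (Ml_spec hl R c' V' lev' hL' hR').trans ?_
  have hpos : ∀ n, 0 < l ^ n := fun n => Nat.pow_pos (by omega)
  rcases le_or_gt T₀ R with h1 | h1
  · obtain ⟨c, V, lev, hL, hR, hV⟩ := Ml_attained hl R
    rw [← hV]
    refine (h R h1 c V lev hL hR ?_).trans (Nat.mul_le_mul_right _ (le_max_left _ _))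
    intro T hT r hr hrk
    rw [hV]
    exact (Nat.mul_le_mul_right _ (Ml_spec hl r c T lev (hL.mono hT) hrk)).trans
      (Ml_mul_pow_le hl hr)
  · calc Ml hl R ≤ Ml hl R * l ^ (T₀ - R) := Nat.le_mul_of_pos_right _ (hpos _)
      _ ≤ Ml hl T₀ := Ml_mul_pow_le hl h1.le
      _ ≤ max K (Ml hl T₀) := le_max_right _ _
      _ ≤ max K (Ml hl T₀) * l ^ R := Nat.le_mul_of_pos_right _ (hpos _)

/-- **the end of the constant factor theorem for the length `l`** -/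
theorem const_of_large (hl : 2 ≤ l)
    (h : ∃ K T₀ : ℕ, ∀ R, T₀ ≤ R → ∀ (c : ℕ → ℕ → ℕ) (V : Finset ℕ) (lev : ℕ → ℕ → ℕ),
      Lev c V l lev → Rk c V R →
      (∀ T ⊆ V, ∀ r ≤ R, Rk c T r → T.card * l ^ (R - r) ≤ V.card) → V.card ≤ K * l ^ R) :
    ∃ K : ℕ, ∀ k n : ℕ, 1 ≤ k → K * l ^ (k - 1) < n → ∀ c : Fin n → Fin n → ℕ,
      (∃ x : Fin (l + 1) → Fin n, StrictMono x ∧
        ∃ col : ℕ, ∀ i : Fin l, c (x i.castSucc) (x i.succ) = col) ∨
      (∃ y : Fin (k + 1) → Fin n, StrictMono y ∧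
        Function.Injective (fun i : Fin k => c (y i.castSucc) (y i.succ))) := by
  obtain ⟨K, T₀, hK⟩ := h
  exact ⟨max K (Ml hl T₀), fun k n hk hn c =>
    flash_or_rainbow hk (MB_of_large hl hK (k - 1)) hn c⟩

/-- a single edge is a flash of length one -/
theorem MB_one (R : ℕ) : MB 1 R 1 := by
  intro c V lev hL _
  by_contra hcon
  push Not at hcon
  obtain ⟨u, hu, v, hv, huv⟩ := Finset.one_lt_card.mp hcon
  rcases lt_or_gt_of_ne huv with h | h
  · have h1 := hL.up u hu v hv h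
    have h2 := hL.lt (c u v) v hv
    omega
  · have h1 := hL.up v hv u hu h
    have h2 := hL.lt (c v u) u hu
    omega

/-- from the lengths `l ≥ 3` to every positive length -/
theorem const_all
    (h : ∀ l : ℕ, 3 ≤ l → ∃ K T₀ : ℕ, ∀ R, T₀ ≤ R →
      ∀ (c : ℕ → ℕ → ℕ) (V : Finset ℕ) (lev : ℕ → ℕ → ℕ), Lev c V l lev → Rk c V R →
      (∀ T ⊆ V, ∀ r ≤ R, Rk c T r → T.card * l ^ (R - r) ≤ V.card) → V.card ≤ K * l ^ R) :
    ∀ l : ℕ, 3 ≤ l → ∃ K : ℕ, ∀ k n : ℕ, 1 ≤ k → K * l ^ (k - 1) < n →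
      ∀ c : Fin n → Fin n → ℕ,
      (∃ x : Fin (l + 1) → Fin n, StrictMono x ∧
        ∃ col : ℕ, ∀ i : Fin l, c (x i.castSucc) (x i.succ) = col) ∨
      (∃ y : Fin (k + 1) → Fin n, StrictMono y ∧
        Function.Injective (fun i : Fin k => c (y i.castSucc) (y i.succ))) :=
  fun l hl => const_of_large (by omega) (h l hl)

end FlashRainbow.CFL
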