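import Pool.Agent.Work.MP_54723a_co.CF.Chi

/-!
# Constant factor for every length `l ≥ 2`: Lemma A and the first half of the core cover
(port of CF/CorePrime.lean of helper96 by helper30)
-/

set_option autoImplicit false

namespace FlashRainbow.CFL

open Classical FlashRainbow.CF

variable {c : ℕ → ℕ → ℕ} {V T W U X Θ : Finset ℕ} {l R r C p q d e lam N : ℕ}
  {lev : ℕ → ℕ → ℕ}

/-- **Lemma A**: few points `w` have only short rainbow paths out of `w` which avoid `Θ` and a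
small set `A w` of further colours. -/
theorem lemmaA (hl : 3 ≤ l) (hL : Lev c W l lev) (hR : Rk c W R) (A : ℕ → Finset ℕ)
    (hA : ∀ w ∈ W, (A w).card ≤ q)
    (hp : ∀ w ∈ W, ∀ D, RS c W w D → Disjoint D Θ → Disjoint D (A w) → D.card ≤ p) :
    W.card * 2 ^ Θ.card ≤ (p + 1) * (2 * l) ^ (p + q) * (2 ^ R * l ^ Θ.card) := by
  set pb : ℕ → ℕ → Prop := fun w j =>
    ∃ D, RS c W w D ∧ Disjoint D Θ ∧ Disjoint D (A w) ∧ D.card = j with hpb
  have hpbt : ∀ w ∈ W, ∀ j, pb w j → j ≤ p := by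
    rintro w hw j ⟨D, h1, h2, h3, rfl⟩
    exact hp w hw D h1 h2 h3
  have hpb0 : ∀ w ∈ W, pb w 0 := fun w hw =>
    ⟨∅, RS.single hw, Finset.disjoint_empty_left _, Finset.disjoint_empty_left _, rfl⟩
  set fb : ℕ → ℕ := fun v => Nat.findGreatest (pb v) p with hfb
  have hb' : ∀ w ∈ W, ∃ D, RS c W w D ∧ Disjoint D Θ ∧ Disjoint D (A w) ∧ D.card = fb w :=
    fun w hw => Nat.findGreatest_spec (P := pb w) (Nat.zero_le _) (hpb0 w hw)
  choose! Q hQ using hb'
  obtain ⟨y, -, hy⟩ := exists_big_fiber W fb (Finset.range (p + 1)) ⟨0, by simp⟩ (by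
      intro v _
      rw [Finset.mem_range]
      exact Nat.lt_succ_of_le (Nat.findGreatest_le _))
  rw [Finset.card_range] at hy
  set W₁ := W.filter fun v => fb v = y with hW₁
  have hW₁W : W₁ ⊆ W := Finset.filter_subset _ _
  have hAQ : ∀ v ∈ W₁, (A v ∪ Q v).card ≤ p + q := by
    intro v hv
    have h1 := (hQ v (hW₁W hv)).2.2.2
    have h2 : fb v ≤ p := Nat.findGreatest_le _
    have h3 := Finset.card_union_le (A v) (Q v)
    have h4 := hA v (hW₁W hv)
    omega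
  -- first selection
  obtain ⟨W₂, hW₂, hW₂c, hW₂s⟩ := exists_select (T := W₁) (l := 2)
    (lev := fun γ v => if γ ∈ A v then 1 else 0) (by omega) (fun v => A v ∪ Q v)
    (p + q) hAQ (by
      intro γ v _
      split_ifs <;> omega)
  have hpriv : ∀ u ∈ W₂, ∀ v ∈ W₂, Disjoint (Q v) (A u) := by
    intro u hu v hv
    rw [Finset.disjoint_left]
    intro γ h1 h2
    have h3 := hW₂s u hu v hv γ (Finset.mem_union_left _ h2) (Finset.mem_union_right _ h1)
    simp only [if_pos h2] at h3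
    split_ifs at h3 with h4
    exact Finset.disjoint_left.mp (hQ v (hW₁W (hW₂ hv))).2.2.1 h1 h4
  have harc : ∀ u ∈ W₂, ∀ v ∈ W₂, u < v → c u v ∉ Θ → c u v ∈ A u ∨ c u v ∈ Q v := by
    intro u hu v hv huv hcΘ
    by_contra hnot
    rw [not_or] at hnot
    obtain ⟨h1, h2, h3, h4⟩ := hQ v (hW₁W (hW₂ hv))
    have h5 := RS.step h1 (hW₁W (hW₂ hu)) huv hnot.2
    have h6 : pb u (fb v + 1) := by
      refine ⟨_, h5, ?_, ?_, ?_⟩
      · rw [Finset.disjoint_insert_left]; exact ⟨hcΘ, h2⟩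
      · rw [Finset.disjoint_insert_left]
        exact ⟨hnot.1, hpriv u hu v hv⟩
      · rw [Finset.card_insert_of_notMem hnot.2, h4]
    have h7 := Nat.le_findGreatest (hpbt _ (hW₁W (hW₂ hu)) _ h6) h6
    have h8 : fb v + 1 ≤ fb u := h7
    have h9 := (Finset.mem_filter.mp (hW₂ hu)).2
    have h10 := (Finset.mem_filter.mp (hW₂ hv)).2
    omega
  -- second selection : levels
  obtain ⟨W₃, hW₃, hW₃c, hW₃s⟩ := exists_select (T := W₂) (l := l) (lev := lev) (by omega)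
    (fun v => A v ∪ Q v) (p + q) (fun v hv => hAQ v (hW₂ hv))
    (fun γ v hv => hL.lt γ v (hW₁W (hW₂ hv)))
  have hW₃W : W₃ ⊆ W := hW₃.trans (hW₂.trans hW₁W)
  have hfin := card_flash_in_le (T := W₃) (Θ := Θ) (l := l) (by omega) (hL.mono hW₃W)
    (fun y D hD => hR y D (hD.mono hW₃W)) (by
      intro x hx y hy z hz hxy hyz heq
      by_contra hnot
      have g1 := hL.up x (hW₃W hx) y (hW₃W hy) hxy
      have g2 := hL.up y (hW₃W hy) z (hW₃W hz) hyz
      rw [← heq] at g2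
      rcases harc x (hW₃ hx) y (hW₃ hy) hxy hnot with h1 | h1
      · rcases harc y (hW₃ hy) z (hW₃ hz) hyz (heq ▸ hnot) with h2 | h2
        · rw [← heq] at h2
          have := hW₃s x hx y hy _ (Finset.mem_union_left _ h1) (Finset.mem_union_left _ h2)
          omega
        · rw [← heq] at h2
          have := hW₃s x hx z hz _ (Finset.mem_union_left _ h1) (Finset.mem_union_right _ h2)
          omega
      · rcases harc y (hW₃ hy) z (hW₃ hz) hyz (heq ▸ hnot) with h2 | h2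
        · rw [← heq] at h2
          exact Finset.disjoint_left.mp (hpriv y (hW₃ hy) y (hW₃ hy)) h1 h2
        · rw [← heq] at h2
          have := hW₃s y hy z hz _ (Finset.mem_union_right _ h1) (Finset.mem_union_right _ h2)
          omega)
  calc W.card * 2 ^ Θ.card ≤ ((p + 1) * W₁.card) * 2 ^ Θ.card := Nat.mul_le_mul_right _ hy
    _ ≤ ((p + 1) * (2 ^ (p + q) * W₂.card)) * 2 ^ Θ.card := by gcongr
    _ ≤ ((p + 1) * (2 ^ (p + q) * (l ^ (p + q) * W₃.card))) * 2 ^ Θ.card := by gcongr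
    _ = (p + 1) * (2 ^ (p + q) * l ^ (p + q)) * (W₃.card * 2 ^ Θ.card) := by ring
    _ = (p + 1) * (2 * l) ^ (p + q) * (W₃.card * 2 ^ Θ.card) := by
      rw [← mul_pow]
    _ ≤ (p + 1) * (2 * l) ^ (p + q) * (2 ^ R * l ^ Θ.card) := Nat.mul_le_mul_left _ hfin

/-- Lemma A with at most `R` colours in `Θ` -/
theorem lemmaA' (hl : 3 ≤ l) (hL : Lev c W l lev) (hR : Rk c W R) (A : ℕ → Finset ℕ)
    (hA : ∀ w ∈ W, (A w).card ≤ q) (hΘ : Θ.card ≤ R)
    (hp : ∀ w ∈ W, ∀ D, RS c W w D → Disjoint D Θ → Disjoint D (A w) → D.card ≤ p) :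
    W.card ≤ (p + 1) * (2 * l) ^ (p + q) * l ^ R := by
  have h1 := lemmaA hl hL hR A hA hp
  have h2 : 2 ^ R * l ^ Θ.card ≤ l ^ R * 2 ^ Θ.card := by
    obtain ⟨k, hk⟩ := Nat.exists_eq_add_of_le hΘ
    rw [hk, pow_add, pow_add]
    have h3 : (2 : ℕ) ^ k ≤ l ^ k := Nat.pow_le_pow_left (by omega) k
    calc 2 ^ Θ.card * 2 ^ k * l ^ Θ.card ≤ 2 ^ Θ.card * l ^ k * l ^ Θ.card := by gcongr
      _ = l ^ Θ.card * l ^ k * 2 ^ Θ.card := by ring
  have h3 : W.card * 2 ^ Θ.card ≤ ((p + 1) * (2 * l) ^ (p + q) * l ^ R) * 2 ^ Θ.card := by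
    calc W.card * 2 ^ Θ.card ≤ (p + 1) * (2 * l) ^ (p + q) * (2 ^ R * l ^ Θ.card) := h1
      _ ≤ (p + 1) * (2 * l) ^ (p + q) * (l ^ R * 2 ^ Θ.card) := Nat.mul_le_mul_left _ h2
      _ = _ := by ring
  exact Nat.le_of_mul_le_mul_right h3 (by positivity)

/-- the colour `y` can be avoided by a long path into `w` with at most `C` colours outside `Θ` -/
def FreeP (c : ℕ → ℕ → ℕ) (V : Finset ℕ) (R C : ℕ) (Θ : Finset ℕ) (w y : ℕ) : Prop :=
  ∃ D, RP c V w D ∧ R ≤ D.card + C ∧ y ∉ D ∧ (D \ Θ).card ≤ C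

/-- the colour `y` can be avoided by a long path out of `w` with at most `C` colours outside `Θ` -/
def FreeS (c : ℕ → ℕ → ℕ) (V : Finset ℕ) (R C : ℕ) (Θ : Finset ℕ) (w y : ℕ) : Prop :=
  ∃ D, RS c V w D ∧ R ≤ D.card + C ∧ y ∉ D ∧ (D \ Θ).card ≤ C

/-- the constant of Lemma A in the core cover inequality -/
def KA (l C : ℕ) : ℕ := (C + 1) * (2 * l) ^ (C + (C + 1))

/-- (a): the later points whose colour is coherently avoidable -/
theorem free_le (hl : 3 ≤ l) (hL : Lev c V l lev) (hR : Rk c V R) {a : ℕ} (hΘ : Θ.card ≤ R) :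
    (V.filter fun v => a < v ∧ FreeP c V R C Θ a (c a v)).card ≤ KA l C * l ^ R := by
  set W := V.filter fun v => a < v ∧ FreeP c V R C Θ a (c a v) with hW
  have hWV : W ⊆ V := Finset.filter_subset _ _
  have h : ∀ v ∈ W, ∃ D, RP c V a D ∧ R ≤ D.card + C ∧ c a v ∉ D ∧ (D \ Θ).card ≤ C :=
    fun v hv => (Finset.mem_filter.mp hv).2.2
  choose! P hP using h
  refine lemmaA' (p := C) (q := C + 1) hl (hL.mono hWV) (fun y D hD => hR y D (hD.mono hWV))
    (fun v => insert (c a v) (P v \ Θ)) ?_ hΘ ?_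
  · intro v hv
    have h1 := Finset.card_insert_le (c a v) (P v \ Θ)
    have h2 := (hP v hv).2.2.2
    omega
  · intro v hv D hD h1 h2
    obtain ⟨h3, h4, h5, -⟩ := hP v hv
    rw [Finset.disjoint_insert_right] at h2
    have h6 : RP c V v (insert (c a v) (P v)) :=
      RP.step h3 (hWV hv) (Finset.mem_filter.mp hv).2.1 h5
    have h7 : Disjoint D (P v) := by
      rw [Finset.disjoint_left]
      intro γ hγ hγ'
      by_cases hγΘ : γ ∈ Θ
      · exact Finset.disjoint_left.mp h1 hγ hγΘ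
      · exact Finset.disjoint_left.mp h2.2 hγ (Finset.mem_sdiff.mpr ⟨hγ', hγΘ⟩)
    have h8 : Disjoint D (insert (c a v) (P v)) := by
      rw [Finset.disjoint_insert_right]
      exact ⟨h2.1, h7⟩
    obtain ⟨y, hy⟩ := hD.join hWV _ h6 h8
    have h9 := hR _ _ hy
    rw [Finset.card_union_of_disjoint h8.symm, Finset.card_insert_of_notMem h5] at h9
    omega


end FlashRainbow.CFL
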