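import Pool.Agent.Work.MP_54723a_co.CF.H1
import Pool.Agent.Work.MP_54723a_co.CFL.Core

/-!
# Constant factor for every length `l ≥ 2`: level classes, END
(port of the parts of CF/H1.lean of helper96 which depend on the length; helper30)

`Fre`, `Hub`, `Jun`, `HasJun`, `Hub.reach`, `Hub.plain`, `Hub.step`, `jun_one/two/three` do not
depend on the length and are used from `CF/H1.lean`.
-/

set_option autoImplicit false

namespace FlashRainbow.CFL

open Classical FlashRainbow.CF

variable {c : ℕ → ℕ → ℕ} {V T W U X Z K F Φ E : Finset ℕ} {l R r C p q d e t τ x : ℕ}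
  {lev : ℕ → ℕ → ℕ}

/-- the best level class -/
theorem exists_class (hl : 3 ≤ l) (hL : Lev c X l lev) (Q : Finset ℕ) :
    ∃ X' ⊆ X, X.card ≤ l ^ Q.card * X'.card ∧ Fre c X' Q := by
  obtain ⟨X', h1, h2, h3⟩ := exists_select (T := X) (l := l) (lev := lev) (by omega) (fun _ => Q)
    Q.card (fun _ _ => le_refl _) (fun γ v hv => hL.lt γ v hv)
  refine ⟨X', h1, h2, ?_⟩
  intro γ hγ u hu v hv huv he
  have h4 := h3 u hu v hv γ hγ hγ
  have h5 := hL.up u (h1 hu) v (h1 hv) huv
  rw [he] at h5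
  omega

/-- **END**: all but few of the points `v` behind `x` have `c x v ∈ F`. -/
theorem end_le (hl : 3 ≤ l) (h : Hub c V x K F) (hL : Lev c V l lev) (hR : Rk c V R)
    (ht : R ≤ K.card + t) (hZ : Z ⊆ V) (hxZ : ∀ v ∈ Z, x < v) :
    Z.card ≤ KA l (t + 1) * l ^ R + (Z.filter fun v => c x v ∈ F).card := by
  have h1 := free_le (c := c) (V := V) (R := R) (C := t + 1) (Θ := K) (a := x) hl hL hR
    (h.card_le hR)
  have h2 : Z ⊆ (V.filter fun v => x < v ∧ FreeP c V R (t + 1) K x (c x v)) ∪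
      Z.filter fun v => c x v ∈ F := by
    intro v hv
    by_cases hF : c x v ∈ F
    · exact Finset.mem_union_right _ (Finset.mem_filter.mpr ⟨hv, hF⟩)
    · refine Finset.mem_union_left _ (Finset.mem_filter.mpr ⟨hZ hv, hxZ v hv, K.erase (c x v), ?_,
        ?_, Finset.notMem_erase _ _, ?_⟩)
      · refine h.2 _ (fun y hy => ?_) (Finset.erase_subset _ _)
        refine Finset.mem_erase.mpr ⟨?_, h.1 hy⟩
        rintro rfl
        exact hF hy
      · have := Finset.pred_card_le_card_erase (s := K) (a := c x v)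
        omega
      · rw [Finset.sdiff_eq_empty_iff_subset.mpr (Finset.erase_subset _ _), Finset.card_empty]
        omega
  exact (Finset.card_le_card h2).trans ((Finset.card_union_le _ _).trans
    (Nat.add_le_add_right h1 _))

/-- from a `K`-free set to a junction -/
theorem hasJun_of (hl : 3 ≤ l) (hL : Lev c V l lev) (hZ : Z ⊆ V) (hXZ : X ⊆ Z) (hK : Fre c X K)
    (hJ : Jun c V x Φ X) (h3 : Φ.card ≤ 3) (hΦF : Disjoint Φ F) (hcard : l ^ 3 * τ ≤ X.card) :
    HasJun c V Z K F x τ := by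
  obtain ⟨X', h1, h2, h4⟩ := exists_class hl (hL.mono (hXZ.trans hZ)) Φ
  refine ⟨Φ, X', h3, hΦF, h1.trans hXZ, hJ.mono h1, (hK.mono h1 (le_refl _)).union h4, ?_⟩
  have h5 : l ^ Φ.card ≤ l ^ 3 := Nat.pow_le_pow_right (by omega) h3
  have h6 : X.card ≤ l ^ 3 * X'.card := h2.trans (Nat.mul_le_mul_right _ h5)
  exact Nat.le_of_mul_le_mul_left (hcard.trans h6) (by positivity)

end FlashRainbow.CFL
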