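import Pool.Agent.Work.MP_54723a_co.CF.Typ

/-!
# Constant factor for every `l`: extremal sets  (port of CF/Typ, helper74; helper26)

Only the notion is needed in the main chain.  `InC`, `OutC` are those of CF (no `l` inside).
-/

set_option autoImplicit false

namespace FlashRainbow.CFL

open Classical FlashRainbow.CF

/-- `V` is extremal: subsets of rank `r ≤ R` have at most `|V| / l^(R-r)` points -/
def Ext (l : ℕ) (c : ℕ → ℕ → ℕ) (V : Finset ℕ) (R : ℕ) : Prop :=
  ∀ T ⊆ V, ∀ r ≤ R, Rk c T r → T.card * l ^ (R - r) ≤ V.card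

end FlashRainbow.CFL
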