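import Pool.Agent.Work.MP_54723a_co.CF.Run
import Pool.Agent.Work.MP_54723a_co.CFL.Typ

/-!
# The run lemma for every `l`  (port of CF/Run, helper57; helper88)

`Run`, `run_path`, `half_of_steps` do not mention `l`; they are those of `CF/Run`.

* `run_fiber` : every colour occurs at most `l - 1` times among the `g i`.
* `heads_le` : `|A| l^|D| ≤ (l - 1)^|D| |V|`.
* `run_le` : `|S n| l^m ≤ (l - 1)^m |V|` with `n ≤ (l - 1) m`.
-/

set_option autoImplicit false

namespace FlashRainbow.CFL

open Classical FlashRainbow.CF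

variable {c : ℕ → ℕ → ℕ} {V : Finset ℕ} {l R n : ℕ} {lev : ℕ → ℕ → ℕ} {x g : ℕ → ℕ}
  {S : ℕ → Finset ℕ}

/-- every occurrence of `γ` on the run raises the level of `γ` -/
theorem run_lev (hL : Lev c V l lev) (h : Run c V n x g S) (γ : ℕ) :
    ∀ k ≤ n, ∀ u ∈ S k, ((Finset.range k).filter fun i => g i = γ).card ≤ lev γ u := by
  intro k
  induction k with
  | zero => intro _ u _; simp
  | succ k ih =>
    intro hk u hu
    rw [Finset.range_add_one, Finset.filter_insert]
    split_ifs with hg
    · rw [Finset.card_insert_of_notMem (by simp)]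
      have h1 := ih (by omega) (x k) (h.mem k (by omega))
      have h2 := hL.up _ (h.subV (by omega) (h.mem k (by omega))) u (h.subV hk hu)
        (h.lt k (by omega) u hu)
      rw [h.col k (by omega) u hu, hg] at h2
      omega
    · exact ih (by omega) u (h.anti k (by omega) hu)

theorem run_fiber (hL : Lev c V l lev) (h : Run c V n x g S) {u : ℕ} (hu : u ∈ S n) (γ : ℕ) :
    ((Finset.range n).filter fun i => g i = γ).card ≤ l - 1 := by
  have h1 := run_lev hL h γ n le_rfl u hu
  have h2 := hL.lt γ u (h.subV le_rfl hu)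
  omega

/-- A set `A` all of whose points are ends of rainbow paths with palette `D` (so all levels of the
colours of `D` are at least 1 there) is small. -/
theorem heads_le (hl : 3 ≤ l) (hL : Lev c V l lev) (hR : Rk c V R) (hE : Ext l c V R)
    {A : Finset ℕ} (hA : A ⊆ V) (D : Finset ℕ) (hD : ∀ u ∈ A, RP c V u D)
    (hpos : ∀ γ ∈ D, ∀ u ∈ A, 1 ≤ lev γ u) :
    A.card * l ^ D.card ≤ (l - 1) ^ D.card * V.card := by
  rcases A.eq_empty_or_nonempty with rfl | ⟨u₀, hu₀⟩
  · simp
  have hDR : D.card ≤ R := hR _ _ (hD u₀ hu₀)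
  obtain ⟨T, hT, hTc, hTs⟩ := exists_select (T := A) (l := l - 1)
    (lev := fun γ v => if γ ∈ D then lev γ v - 1 else 0) (by omega) (fun _ => D) D.card
    (fun _ _ => le_rfl) (by
      intro γ v hv
      split_ifs
      · have := hL.lt γ v (hA hv)
        omega
      · omega)
  have hfree : ∀ γ ∈ D, ∀ u ∈ T, ∀ v ∈ T, u < v → c u v ≠ γ := by
    intro γ hγ
    refine hL.free (hT.trans hA) ?_
    intro u hu v hv
    have h1 := hTs u hu v hv γ hγ hγ
    simp only [hγ, if_true] at h1
    have h2 := hpos γ hγ u (hT hu)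
    have h3 := hpos γ hγ v (hT hv)
    omega
  have hrk : Rk c T (R - D.card) := by
    intro y E hEy
    have h1 := hEy.prepend (hT.trans hA) (fun v hv => hD v (hT hv)) hfree
    have h2 : Disjoint E D := by
      rw [Finset.disjoint_right]
      intro γ hγ
      exact hEy.notMem_of_free (hfree γ hγ)
    have h3 := hR _ _ h1
    rw [Finset.card_union_of_disjoint h2] at h3
    omega
  have h1 := hE T (hT.trans hA) (R - D.card) (by omega) hrk
  rw [show R - (R - D.card) = D.card by omega] at h1
  calc A.card * l ^ D.card ≤ (l - 1) ^ D.card * T.card * l ^ D.card :=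
        Nat.mul_le_mul_right _ hTc
    _ = (l - 1) ^ D.card * (T.card * l ^ D.card) := by ring
    _ ≤ (l - 1) ^ D.card * V.card := Nat.mul_le_mul_left _ h1

/-- the size of the last set of a run -/
theorem run_le (hl : 3 ≤ l) (hL : Lev c V l lev) (hR : Rk c V R) (hE : Ext l c V R)
    (h : Run c V n x g S) :
    ∃ m, n ≤ (l - 1) * m ∧ (S n).card * l ^ m ≤ (l - 1) ^ m * V.card := by
  rcases (S n).eq_empty_or_nonempty with h0 | ⟨u, hu⟩
  · refine ⟨n, ?_, ?_⟩
    · exact Nat.le_mul_of_pos_left n (by omega)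
    · rw [h0]
      simp
  refine ⟨((Finset.range n).image g).card, ?_, ?_⟩
  · have h1 := Finset.card_le_mul_card_image (f := g) (Finset.range n) (l - 1)
      (fun γ _ => run_fiber hL h hu γ)
    rwa [Finset.card_range] at h1
  · refine heads_le hl hL hR hE (h.subV le_rfl) _ (fun v hv => run_path h n le_rfl v hv) ?_
    intro γ hγ v hv
    obtain ⟨i, hi, rfl⟩ := Finset.mem_image.mp hγ
    rw [Finset.mem_range] at hi
    have hv' := h.subset (i := i + 1) hi le_rfl hv
    have h1 := hL.up _ (h.subV (by omega) (h.mem i hi)) v (h.subV le_rfl hv) (h.lt i hi v hv')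
    rw [h.col i hi v hv'] at h1
    omega

end FlashRainbow.CFL
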