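import Pool.Agent.Work.MP_54723a_co.CF.HZones
import Pool.Agent.Work.MP_54723a_co.CFL.H1
import Pool.Agent.Work.MP_54723a_co.CFL.Run

/-!
# Constant factor for every length `l ≥ 3`: zones  (port of CF/HZones of helper60; helper93)

* `run_num` : the numbers of the run lemma: cost constants `c₁ = c₂ = 4 l²`, `d ≥ 16 l²`.
* `run_good` : run lemma with the constant threshold `1 - 1/d`.
* `zones` : nested sets and zones; `Zones`, `NDom`, `GoodSplit`, `prs` are those of CF.
-/

set_option autoImplicit false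

namespace FlashRainbow.CFL

open Classical FlashRainbow.CF

variable {c : ℕ → ℕ → ℕ} {V : Finset ℕ} {R l : ℕ} {lev : ℕ → ℕ → ℕ}

/-- `2 (l - 1) ^ l ≤ l ^ l` -/
theorem two_pow_le {l : ℕ} (hl : 2 ≤ l) : 2 * (l - 1) ^ l ≤ l ^ l := by
  obtain ⟨a, rfl⟩ : ∃ a, l = a + 1 := ⟨l - 1, by omega⟩
  have h1 : ∀ n : ℕ, a ^ n * (a + n) ≤ a * (a + 1) ^ n := by
    intro n
    induction n with
    | zero => simp
    | succ n ih =>
      calc a ^ (n + 1) * (a + (n + 1)) ≤ (a ^ n * (a + n)) * (a + 1) := by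
            have : a * (a + (n + 1)) ≤ (a + n) * (a + 1) := by nlinarith
            calc a ^ (n + 1) * (a + (n + 1)) = a ^ n * (a * (a + (n + 1))) := by ring
              _ ≤ a ^ n * ((a + n) * (a + 1)) := Nat.mul_le_mul_left _ this
              _ = (a ^ n * (a + n)) * (a + 1) := by ring
        _ ≤ a * (a + 1) ^ n * (a + 1) := Nat.mul_le_mul_right _ ih
        _ = a * (a + 1) ^ (n + 1) := by ring
  have h2 := h1 (a + 1)
  rw [show a + 1 - 1 = a by omega]
  have h3 : a * (2 * a ^ (a + 1)) ≤ a * (a + 1) ^ (a + 1) := by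
    calc a * (2 * a ^ (a + 1)) = a ^ (a + 1) * (a + a) := by ring
      _ ≤ a ^ (a + 1) * (a + (a + 1)) := Nat.mul_le_mul_left _ (by omega)
      _ ≤ _ := h2
  exact Nat.le_of_mul_le_mul_left h3 (by omega)

/-- numbers: a run of `2 l² (a + 1)` steps is impossible -/
theorem run_num {d a m : ℕ} (hl : 3 ≤ l) (hd : 16 * l ^ 2 ≤ d) (hm : 2 * l * (a + 1) ≤ m)
    (h : (d - 1) ^ (4 * l ^ 2 * (a + 1)) * l ^ m ≤
      d ^ (4 * l ^ 2 * (a + 1)) * ((l - 1) ^ m * 2 ^ a)) : False := by
  have hl2 : 9 ≤ l ^ 2 := by nlinarith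
  have h1 := pow_loss (d := d) (by omega) (4 * l ^ 2 * (a + 1))
  have hq : 4 * l ^ 2 * (a + 1) / (d / 2) ≤ (a + 1) / 2 := by
    have h2 : 4 * l ^ 2 * 2 ≤ d / 2 := by omega
    calc 4 * l ^ 2 * (a + 1) / (d / 2) ≤ 4 * l ^ 2 * (a + 1) / (4 * l ^ 2 * 2) :=
          Nat.div_le_div_left h2 (by omega)
      _ = (a + 1) / 2 := Nat.mul_div_mul_left _ _ (by omega)
  have hpos : 0 < (d - 1) ^ (4 * l ^ 2 * (a + 1)) := Nat.pow_pos (by omega)
  have h2 : (d - 1) ^ (4 * l ^ 2 * (a + 1)) * l ^ m ≤
      (d - 1) ^ (4 * l ^ 2 * (a + 1)) * (2 ^ ((a + 1) / 2 + 1 + a) * (l - 1) ^ m) := by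
    calc (d - 1) ^ (4 * l ^ 2 * (a + 1)) * l ^ m
        ≤ d ^ (4 * l ^ 2 * (a + 1)) * ((l - 1) ^ m * 2 ^ a) := h
      _ ≤ 2 ^ (4 * l ^ 2 * (a + 1) / (d / 2) + 1) * (d - 1) ^ (4 * l ^ 2 * (a + 1)) *
          ((l - 1) ^ m * 2 ^ a) := Nat.mul_le_mul_right _ h1
      _ ≤ 2 ^ ((a + 1) / 2 + 1) * (d - 1) ^ (4 * l ^ 2 * (a + 1)) * ((l - 1) ^ m * 2 ^ a) := by
          gcongr
          norm_num
      _ = _ := by rw [pow_add 2 ((a + 1) / 2 + 1) a]; ring
  have h3 := Nat.le_of_mul_le_mul_left h2 hpos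
  obtain ⟨j, rfl⟩ : ∃ j, m = l * (2 * (a + 1)) + j := ⟨m - l * (2 * (a + 1)), by
    have : l * (2 * (a + 1)) = 2 * l * (a + 1) := by ring
    omega⟩
  have h4 : 2 ^ (2 * (a + 1)) * (l - 1) ^ (l * (2 * (a + 1)) + j) ≤
      l ^ (l * (2 * (a + 1)) + j) := by
    calc 2 ^ (2 * (a + 1)) * (l - 1) ^ (l * (2 * (a + 1)) + j)
        = (2 * (l - 1) ^ l) ^ (2 * (a + 1)) * (l - 1) ^ j := by
          rw [mul_pow, ← pow_mul, pow_add]; ring
      _ ≤ (l ^ l) ^ (2 * (a + 1)) * l ^ j := by
          gcongr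
          · exact two_pow_le (by omega)
          · omega
      _ = _ := by rw [← pow_mul, ← pow_add]
  have h5 : 2 ^ (2 * (a + 1)) ≤ 2 ^ ((a + 1) / 2 + 1 + a) :=
    Nat.le_of_mul_le_mul_right (h4.trans h3) (Nat.pow_pos (by omega))
  have h6 := (Nat.pow_le_pow_iff_right (show 1 < 2 by norm_num)).mp h5
  omega

/-- run lemma with a constant threshold -/
theorem run_good (hl : 3 ≤ l) (hL : Lev c V l lev) (hR : Rk c V R) (hE : Ext l c V R) {d a : ℕ}
    (hd : 16 * l ^ 2 ≤ d)
    {S : Finset ℕ} (hS : S ⊆ V) (ha : V.card ≤ 2 ^ a * S.card)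
    (hbig : 2 ^ ((4 * l ^ 2 * a + 4 * l ^ 2) / (d / 2) + 1) * d ≤ S.card) :
    ∃ T ⊆ S, GoodSplit c d T ∧ S.card ≤ 2 ^ ((4 * l ^ 2 * a + 4 * l ^ 2) / (d / 2) + 1) * T.card := by
  set b := (4 * l ^ 2 * a + 4 * l ^ 2) / (d / 2) + 1 with hb
  set n₀ := 2 * l ^ 2 * (a + 1) with hn₀
  have hl2 : 9 ≤ l ^ 2 := by nlinarith
  have hn₀2 : 2 * n₀ = 4 * l ^ 2 * a + 4 * l ^ 2 := by rw [hn₀]; ring
  have hloss : ∀ n ≤ n₀, ∀ T : Finset ℕ, (d - 1) ^ (2 * n) * S.card ≤ d ^ (2 * n) * T.card →
      S.card ≤ 2 ^ b * T.card := by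
    intro n hn T hT
    have h1 := pow_loss (d := d) (by omega) (2 * n)
    have h2 : 2 ^ (2 * n / (d / 2) + 1) ≤ 2 ^ b := by
      refine Nat.pow_le_pow_right (by norm_num) ?_
      rw [hb]
      have : 2 * n / (d / 2) ≤ (4 * l ^ 2 * a + 4 * l ^ 2) / (d / 2) := Nat.div_le_div_right (by omega)
      omega
    have hpos : 0 < (d - 1) ^ (2 * n) := Nat.pow_pos (by omega)
    have h3 : (d - 1) ^ (2 * n) * S.card ≤ (d - 1) ^ (2 * n) * (2 ^ b * T.card) := by
      calc (d - 1) ^ (2 * n) * S.card ≤ d ^ (2 * n) * T.card := hT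
        _ ≤ 2 ^ (2 * n / (d / 2) + 1) * (d - 1) ^ (2 * n) * T.card := Nat.mul_le_mul_right _ h1
        _ ≤ 2 ^ b * (d - 1) ^ (2 * n) * T.card := by gcongr
        _ = (d - 1) ^ (2 * n) * (2 ^ b * T.card) := by ring
    exact Nat.le_of_mul_le_mul_left h3 hpos
  by_contra hcon
  push Not at hcon
  have key : ∀ n ≤ n₀, ∃ (x g : ℕ → ℕ) (Q : ℕ → Finset ℕ), Run c V n x g Q ∧ Q n ⊆ S ∧
      (d - 1) ^ (2 * n) * S.card ≤ d ^ (2 * n) * (Q n).card := by
    intro n
    induction n with
    | zero =>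
      intro _
      exact ⟨fun _ => 0, fun _ => 0, fun _ => S, ⟨hS, fun i hi => absurd hi (by omega),
        fun i hi => absurd hi (by omega), fun i hi => absurd hi (by omega),
        fun i hi => absurd hi (by omega)⟩, Finset.Subset.refl _, by simp⟩
    | succ n ih =>
      intro hn
      obtain ⟨x, g, Q, hQ, hQS, hc⟩ := ih (by omega)
      have h1 := hloss n (by omega) (Q n) hc
      have h2 : d ≤ (Q n).card := by
        have : 2 ^ b * d ≤ 2 ^ b * (Q n).card := hbig.trans h1
        exact Nat.le_of_mul_le_mul_left this (by positivity)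
      rcases good_or (c := c) (by omega) h2 with hg | ⟨y, hy, γ, T', hT', hcol, hcard⟩
      · exact absurd (hcon (Q n) hQS hg) (by omega)
      · refine ⟨Function.update x n y, Function.update g n γ, Function.update Q (n + 1) T',
          ⟨?_, ?_, ?_, ?_, ?_⟩, ?_, ?_⟩
        · rw [Function.update_of_ne (by omega)]
          exact hQ.base
        · intro i hi
          rw [Function.update_of_ne (show i ≠ n + 1 by omega)]
          rcases Nat.lt_succ_iff_lt_or_eq.mp hi with h3 | rfl
          · rw [Function.update_of_ne (by omega)]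
            exact hQ.anti i h3
          · rw [Function.update_self]
            exact hT'
        · intro i hi
          rw [Function.update_of_ne (show i ≠ n + 1 by omega)]
          rcases Nat.lt_succ_iff_lt_or_eq.mp hi with h3 | rfl
          · rw [Function.update_of_ne (by omega)]
            exact hQ.mem i h3
          · rw [Function.update_self]
            exact hy
        · intro i hi u hu
          rcases Nat.lt_succ_iff_lt_or_eq.mp hi with h3 | rfl
          · rw [Function.update_of_ne (by omega)] at hu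
            rw [Function.update_of_ne (by omega)]
            exact hQ.lt i h3 u hu
          · rw [Function.update_self] at hu
            rw [Function.update_self]
            exact (hcol u hu).1
        · intro i hi u hu
          rcases Nat.lt_succ_iff_lt_or_eq.mp hi with h3 | rfl
          · rw [Function.update_of_ne (by omega)] at hu
            rw [Function.update_of_ne (by omega), Function.update_of_ne (by omega)]
            exact hQ.col i h3 u hu
          · rw [Function.update_self] at hu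
            rw [Function.update_self, Function.update_self]
            exact (hcol u hu).2
        · rw [Function.update_self]
          exact hT'.trans hQS
        · rw [Function.update_self]
          calc (d - 1) ^ (2 * (n + 1)) * S.card
              = (d - 1) ^ 2 * ((d - 1) ^ (2 * n) * S.card) := by ring
            _ ≤ (d - 1) ^ 2 * (d ^ (2 * n) * (Q n).card) := Nat.mul_le_mul_left _ hc
            _ = d ^ (2 * n) * ((d - 1) ^ 2 * (Q n).card) := by ring
            _ ≤ d ^ (2 * n) * (d ^ 2 * T'.card) := Nat.mul_le_mul_left _ hcard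
            _ = d ^ (2 * (n + 1)) * T'.card := by ring
  obtain ⟨x, g, Q, hQ, hQS, hc⟩ := key n₀ le_rfl
  obtain ⟨m, hm, hm2⟩ := run_le hl hL hR hE hQ
  have hSpos : 0 < S.card :=
    lt_of_lt_of_le (Nat.mul_pos (by positivity) (show 0 < d by omega)) hbig
  have hm3 : 2 * l * (a + 1) ≤ m := by
    have h1 : (l - 1) * (2 * l * (a + 1)) ≤ (l - 1) * m := by
      calc (l - 1) * (2 * l * (a + 1)) ≤ l * (2 * l * (a + 1)) :=
            Nat.mul_le_mul_right _ (by omega)
        _ = n₀ := by rw [hn₀]; ring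
        _ ≤ _ := hm
    exact Nat.le_of_mul_le_mul_left h1 (by omega)
  refine run_num (d := d) (a := a) (m := m) hl hd hm3 ?_
  have h1 : S.card * ((d - 1) ^ (4 * l ^ 2 * (a + 1)) * l ^ m) ≤
      S.card * (d ^ (4 * l ^ 2 * (a + 1)) * ((l - 1) ^ m * 2 ^ a)) := by
    rw [show 4 * l ^ 2 * (a + 1) = 2 * n₀ by rw [hn₀]; ring]
    calc S.card * ((d - 1) ^ (2 * n₀) * l ^ m) = (d - 1) ^ (2 * n₀) * S.card * l ^ m := by ring
      _ ≤ d ^ (2 * n₀) * (Q n₀).card * l ^ m := Nat.mul_le_mul_right _ hc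
      _ = d ^ (2 * n₀) * ((Q n₀).card * l ^ m) := by ring
      _ ≤ d ^ (2 * n₀) * ((l - 1) ^ m * V.card) := Nat.mul_le_mul_left _ hm2
      _ ≤ d ^ (2 * n₀) * ((l - 1) ^ m * (2 ^ a * S.card)) := by gcongr
      _ = S.card * (d ^ (2 * n₀) * ((l - 1) ^ m * 2 ^ a)) := by ring
  exact Nat.le_of_mul_le_mul_left h1 hSpos

/-- **H5** : zones exist -/
theorem zones (hl : 3 ≤ l) (hL : Lev c V l lev) (hR : Rk c V R) (hE : Ext l c V R) {d e : ℕ}
    (hd : 16 * l ^ 2 ≤ d) (he : 4 * d ≤ 2 ^ e) (q A : ℕ → ℕ) (hA0 : A 0 = 0) :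
    ∀ J, (∀ k < J, A k + ((4 * l ^ 2 * A k + 4 * l ^ 2) / (d / 2) + 1) + e +
      Nat.clog 2 l * ((k + 1) ^ 2 * q (k + 1)) ≤ A (k + 1)) → 2 ^ A J ≤ V.card → ∃ U G, Zones c V d q A J U G := by
  obtain ⟨w, hwd⟩ : ∃ w, w = Nat.clog 2 l := ⟨_, rfl⟩
  have hw : l ≤ 2 ^ w := by rw [hwd]; exact Nat.le_pow_clog (by norm_num) l
  rw [← hwd]
  intro J
  induction J with
  | zero =>
    intro _ _
    refine ⟨fun _ => V, fun _ => ∅, rfl, fun k hk => absurd hk (by omega),
      fun k hk => absurd hk (by omega), fun k hk => absurd hk (by omega),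
      fun k hk => absurd hk (by omega), fun m hm u _ v _ _ a ha => absurd ha (by omega), ?_,
      fun k hk => absurd hk (by omega)⟩
    intro k hk
    obtain rfl : k = 0 := by omega
    simp [hA0]
  | succ J ih =>
    intro hA hbig
    have hAJ := hA J (by omega)
    obtain ⟨b, hb⟩ : ∃ b, b = (4 * l ^ 2 * A J + 4 * l ^ 2) / (d / 2) + 1 := ⟨_, rfl⟩
    rw [← hb] at hAJ
    have hpow : 2 ^ A J ≤ V.card := (Nat.pow_le_pow_right (by norm_num) (by omega)).trans hbig
    obtain ⟨U, G, hZ⟩ := ih (fun k hk => hA k (by omega)) hpow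
    have hUV : U J ⊆ V := by
      have := hZ.subset (Nat.zero_le J) le_rfl
      rwa [hZ.base] at this
    have hszU := hZ.szU J le_rfl
    have hbig2 : 2 ^ b * d ≤ (U J).card := by
      have h1 : 2 ^ A J * (2 ^ b * d) ≤ 2 ^ A J * (U J).card := by
        calc 2 ^ A J * (2 ^ b * d) ≤ 2 ^ A J * (2 ^ b * 2 ^ e) := by
              gcongr
              omega
          _ = 2 ^ (A J + b + e) := by rw [pow_add, pow_add]; ring
          _ ≤ 2 ^ A (J + 1) := Nat.pow_le_pow_right (by norm_num) (by omega)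
          _ ≤ V.card := hbig
          _ ≤ 2 ^ A J * (U J).card := hszU
      exact Nat.le_of_mul_le_mul_left h1 (by positivity)
    obtain ⟨T, hTU, ⟨N, hNT, G', hGT, hlt, hnd, hNc, hGc⟩, hTc⟩ :=
      run_good hl hL hR hE hd hUV hszU (by rw [← hb]; exact hbig2)
    rw [← hb] at hTc
    -- popular colours
    set G₁ : ℕ → Finset ℕ := Function.update G J G' with hG₁
    choose P hPc hPu using fun (a b : ℕ) => exists_pop c (G₁ a) (G₁ b) (q (J + 1))
    set PP : Finset ℕ := (Finset.range (J + 1)).biUnion fun a =>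
      (Finset.range (J + 1)).biUnion fun b => P a b with hPP
    have hPPc : PP.card ≤ (J + 1) ^ 2 * q (J + 1) := by
      calc PP.card ≤ (Finset.range (J + 1)).card * ((J + 1) * q (J + 1)) := by
            refine Finset.card_biUnion_le_card_mul _ _ _ fun a _ => ?_
            refine (Finset.card_biUnion_le_card_mul _ _ _ fun b _ => hPc a b).trans ?_
            rw [Finset.card_range]
        _ = (J + 1) ^ 2 * q (J + 1) := by rw [Finset.card_range]; ring
    obtain ⟨X, hXN, hXc, hXF⟩ := CFL.exists_class hl (hL.mono ((hNT.trans hTU).trans hUV)) PP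
    set U₁ : ℕ → Finset ℕ := Function.update U (J + 1) X with hU₁
    have hUlt : ∀ k ≤ J, U₁ k = U k := fun k hk => by
      rw [hU₁, Function.update_of_ne (by omega)]
    have hUtop : U₁ (J + 1) = X := by rw [hU₁, Function.update_self]
    have hGlt : ∀ k < J, G₁ k = G k := fun k hk => by
      rw [hG₁, Function.update_of_ne (by omega)]
    have hGtop : G₁ J = G' := by rw [hG₁, Function.update_self]
    have hXT : X ⊆ T := hXN.trans hNT
    refine ⟨U₁, G₁, ?_, ?_, ?_, ?_, ?_, ?_, ?_, ?_⟩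
    · rw [hUlt 0 (by omega)]
      exact hZ.base
    · intro k hk
      rcases Nat.lt_succ_iff_lt_or_eq.mp hk with h | rfl
      · rw [hUlt (k + 1) (by omega), hUlt k (by omega)]
        exact hZ.anti k h
      · rw [hUtop, hUlt k le_rfl]
        exact hXT.trans hTU
    · intro k hk
      rcases Nat.lt_succ_iff_lt_or_eq.mp hk with h | rfl
      · rw [hUlt k (by omega), hGlt k h]
        exact hZ.sub k h
      · rw [hGtop, hUlt k le_rfl]
        exact hGT.trans hTU
    · intro k hk x hx v hv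
      rcases Nat.lt_succ_iff_lt_or_eq.mp hk with h | rfl
      · rw [hUlt (k + 1) (by omega)] at hx
        rw [hGlt k h] at hv
        exact hZ.lt k h x hx v hv
      · rw [hUtop] at hx
        rw [hGtop] at hv
        exact hlt x (hXN hx) v hv
    · intro k hk x hx
      rcases Nat.lt_succ_iff_lt_or_eq.mp hk with h | rfl
      · rw [hUlt (k + 1) (by omega)] at hx
        rw [hGlt k h]
        exact hZ.ndom k h x hx
      · rw [hUtop] at hx
        rw [hGtop]
        exact hnd x (hXN hx)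
    · intro m hm u hu v hv huv a ha b' hb'
      rcases Nat.lt_or_ge m (J + 1) with h | h
      · rw [hUlt m (by omega)] at hu hv
        rw [hGlt a (by omega), hGlt b' (by omega)]
        exact hZ.unp m (by omega) u hu v hv huv a ha b' hb'
      · obtain rfl : m = J + 1 := by omega
        rw [hUtop] at hu hv
        refine hPu a b' _ ?_
        intro hmem
        refine hXF (c u v) ?_ u hu v hv huv rfl
        rw [hPP]
        exact Finset.mem_biUnion.mpr ⟨a, Finset.mem_range.mpr ha,
          Finset.mem_biUnion.mpr ⟨b', Finset.mem_range.mpr (by omega), hmem⟩⟩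
    · intro k hk
      rcases Nat.lt_or_ge k (J + 1) with h | h
      · rw [hUlt k (by omega)]
        exact hZ.szU k (by omega)
      · obtain rfl : k = J + 1 := by omega
        rw [hUtop]
        have h3 : l ^ PP.card ≤ 2 ^ (w * ((J + 1) ^ 2 * q (J + 1))) := by
          calc l ^ PP.card ≤ (2 ^ w) ^ PP.card := Nat.pow_le_pow_left hw _
            _ = 2 ^ (w * PP.card) := by rw [pow_mul]
            _ ≤ _ := Nat.pow_le_pow_right (by norm_num) (Nat.mul_le_mul_left _ hPPc)
        calc V.card ≤ 2 ^ A J * (U J).card := hszU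
          _ ≤ 2 ^ A J * (2 ^ b * T.card) := by gcongr
          _ ≤ 2 ^ A J * (2 ^ b * (2 ^ e * N.card)) := by
              gcongr
              exact hNc.trans (Nat.mul_le_mul_right _ he)
          _ ≤ 2 ^ A J * (2 ^ b * (2 ^ e * (2 ^ (w * ((J + 1) ^ 2 * q (J + 1))) * X.card))) := by
              gcongr
              exact hXc.trans (Nat.mul_le_mul_right _ h3)
          _ = 2 ^ (A J + b + e + w * ((J + 1) ^ 2 * q (J + 1))) * X.card := by
              rw [pow_add, pow_add, pow_add]; ring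
          _ ≤ 2 ^ A (J + 1) * X.card :=
              Nat.mul_le_mul_right _ (Nat.pow_le_pow_right (by norm_num) hAJ)
    · intro k hk
      rcases Nat.lt_succ_iff_lt_or_eq.mp hk with h | rfl
      · rw [hGlt k h]
        exact hZ.szG k h
      · rw [hGtop]
        have he1 : 1 ≤ e := by
          rcases Nat.eq_zero_or_pos e with h0 | h0
          · rw [h0] at he
            have : 9 ≤ l ^ 2 := by nlinarith
            omega
          · exact h0
        have hw0 := Nat.zero_le (w * ((k + 1) ^ 2 * q (k + 1)))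
        calc V.card ≤ 2 ^ A k * (U k).card := hszU
          _ ≤ 2 ^ A k * (2 ^ b * T.card) := by gcongr
          _ ≤ 2 ^ A k * (2 ^ b * (2 ^ 1 * G'.card)) := by
              gcongr
              simpa using hGc
          _ = 2 ^ (A k + b + 1) * G'.card := by rw [pow_add, pow_add]; ring
          _ ≤ 2 ^ A (k + 1) * G'.card :=
              Nat.mul_le_mul_right _ (Nat.pow_le_pow_right (by norm_num) (by omega))

end FlashRainbow.CFL
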