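import Pool.Agent.Work.MP_54723a_co.CFL.NoFar
import Pool.Agent.Work.MP_54723a_co.CFL.PiTrick

/-!
# Constant factor for every `l`: junctions with at most one heavy colour exist
(port of CF/JunH, helper18; helper49)
-/

set_option autoImplicit false

namespace FlashRainbow.CFL

open Classical FlashRainbow.CF

variable {c : ℕ → ℕ → ℕ} {V Z K F : Finset ℕ} {l R t τ x M q : ℕ} {lev : ℕ → ℕ → ℕ}
  {Hv : ℕ → Finset ℕ}

/-- a part of `Z` without junctions -/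
theorem exists_noJun3 (hl : 3 ≤ l) (hL : Lev c V l lev) (hx : x ∈ V) (hZV : Z ⊆ V)
    (hxZ : ∀ v ∈ Z, x < v)
    (hxF : ∀ v ∈ Z, c x v ∉ F) (hτ : 0 < τ) (hq : ∀ v ∈ Z, (Hv v).card ≤ q)
    (hno : ¬ HasJunH c V Z K F x τ Hv) :
    ∃ T ⊆ Z, Z.card ≤ 2 ^ (q + 1) * T.card ∧ NoJun3 c T K F x ((l ^ 3 + 2 * l) * τ) := by
  obtain ⟨T, hT, hTc, hsel⟩ := pi_select c x Z Hv hq
  have hl1 : l ≤ l ^ 3 + 2 * l := by omega
  have hl2 : l ^ 2 + l ≤ l ^ 3 + 2 * l := by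
    have : l ^ 2 ≤ l ^ 3 := Nat.pow_le_pow_right (by omega) (by norm_num)
    omega
  refine ⟨T, hT, hTc, ⟨⟨?_, ?_⟩, ?_⟩⟩
  · intro g hg X hX hXK
    exact lt_of_lt_of_le (pi_one hl hL hx hZV hxZ hT hτ hno g hg hX hXK)
      (Nat.mul_le_mul_right _ hl1)
  · intro u hu φ hφ hne X hX hXK
    exact lt_of_lt_of_le (pi_two hl hL hx hZV hxZ hT hτ hno hxF hsel u hu φ hφ hne hX hXK)
      (Nat.mul_le_mul_right _ hl2)
  · intro u hu s hs hus h1 h2 h3 h4 X hX hXK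
    exact pi_three hl hL hx hZV hxZ hT hτ hno hxF hsel u s hu hs hus h1 h4 h2 h3 hX hXK

/-- **junctions exist**: a set behind a hub without a junction (at most three colours, at most one
of them heavy at each point) is exponentially small. -/
theorem hasJunH_or_small (hl : 3 ≤ l) (hL : Lev c V l lev) (hR : Rk c V R)
    (hM : ∀ W ⊆ V, ∀ r ≤ R, Rk c W r → W.card * l ^ (R - r) ≤ M)
    (hH : Hub c V x K F) (ht : R ≤ K.card + t) (hZV : Z ⊆ V)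
    (hxZ : ∀ v ∈ Z, x < v) (hxF : ∀ v ∈ Z, c x v ∉ F) (hτ : 0 < τ)
    (hq : ∀ v ∈ Z, (Hv v).card ≤ q) (hno : ¬ HasJunH c V Z K F x τ Hv) :
    Z.card * l ^ (6 * t) ≤ 2 ^ (q + 1) * (2 * (t + 1) ^ 2 * 256 ^ t * M +
      l ^ (6 * t) * (l ^ K.card * (bG t ((l ^ 3 + 2 * l) * τ) +
        (8 * t ^ 2 + 1) * ((l ^ 3 + 2 * l) * τ)))) := by
  obtain ⟨T, hTZ, hTc, hNJ⟩ := exists_noJun3 hl hL hH.mem hZV hxZ hxF hτ hq hno
  have h1 := far_free hl hL hR hM hH ht (hTZ.trans hZV) (fun v hv => hxZ v (hTZ hv))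
    (fun v hv => hxF v (hTZ hv)) (by positivity) hNJ
  calc Z.card * l ^ (6 * t) ≤ 2 ^ (q + 1) * T.card * l ^ (6 * t) := Nat.mul_le_mul_right _ hTc
    _ = 2 ^ (q + 1) * (T.card * l ^ (6 * t)) := by ring
    _ ≤ _ := Nat.mul_le_mul_left _ h1

end FlashRainbow.CFL
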