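import Pool.Agent.Work.MP_54723a_co.CF.Stage96
import Pool.Agent.Work.MP_54723a_co.CFL.JunH

/-!
# Constant factor for every `l`: the stage  (port of CF/Stage96, helper96; helper49)

`hvy`, `mass_new` and `StageP` do not mention `l`; they are those of `CF`.  The step `hub_next` is a
hypothesis here, in the form of `CF/HubNext` with two free constants `cs`, `c0`.
-/

set_option autoImplicit false

namespace FlashRainbow.CFL

open Classical FlashRainbow.CF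

variable {c : ℕ → ℕ → ℕ} {V Z Y F K T : Finset ℕ} {l cs c0 R M d x q t τ : ℕ} {lev : ℕ → ℕ → ℕ}

/-- the step from a junction to the next hub -/
def HubNextP (l cs c0 : ℕ) (c : ℕ → ℕ → ℕ) (V : Finset ℕ) (M R t : ℕ) : Prop :=
  ∀ (x q s m : ℕ) (K F Φ X : Finset ℕ), Hub c V x K F → R = K.card + t → Φ.card ≤ 3 →
    Disjoint Φ F → Jun c V x Φ X → Fre c X (K ∪ Φ) → 8 ≤ X.card →
    M ≤ 2 ^ q * (X.card * l ^ (R - t)) → s + 4 ≤ t → 16 * (t + 1) * 2 ^ q ≤ l ^ s → 3 ≤ m →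
    6 + 2 * (q + (cs * s + c0)) + 7 * m < t →
    ∃ x' ∈ X, ∃ K', Hub c V x' K' (F ∪ Φ) ∧ R = K'.card + (t - m)

/-- the numbers of one stage -/
def StageNum (l cs c0 M R d t t' b : ℕ) : Prop :=
  ∀ z, M ≤ 2 ^ (b + (16 * d + 1)) * z → ∃ τ q s, 8 ≤ τ ∧ M ≤ 2 ^ q * (τ * l ^ (R - t)) ∧
    s + 4 ≤ t ∧ 16 * (t + 1) * 2 ^ q ≤ l ^ s ∧ 6 + 2 * (q + (cs * s + c0)) + 7 * (t - t') < t ∧
    2 * (t + 1) ^ 2 * 256 ^ t * M +
      l ^ (6 * t) * (l ^ (R - t) * (bG t ((l ^ 3 + 2 * l) * τ) +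
        (8 * t ^ 2 + 1) * ((l ^ 3 + 2 * l) * τ))) < z * l ^ (6 * t)

/-- **STAGE** -/
theorem stageP (hl : 3 ≤ l) {t' b : ℕ} (hL : Lev c V l lev) (hR : Rk c V R)
    (hM : ∀ W ⊆ V, ∀ r ≤ R, Rk c W r → W.card * l ^ (R - r) ≤ M)
    (hnext : HubNextP l cs c0 c V M R t)
    (hd : 0 < d) (htt : t' + 3 ≤ t) (hnum : StageNum l cs c0 M R d t t' b) :
    StageP c V R M d t t' b := by
  intro x K F Z Y hH ht hZV hYV hxZ hZY hxF hMZ hnd hmass
  -- the selected part and the numbers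
  by_contra hcon
  obtain ⟨T, hT, hTc, hsel⟩ := pi_select c x Z (hvy c (16 * d) Y) (q := 16 * d)
    fun v _ => hvy_card c (16 * d) Y v
  have hMT : M ≤ 2 ^ (b + (16 * d + 1)) * T.card := by
    calc M ≤ 2 ^ b * Z.card := hMZ
      _ ≤ 2 ^ b * (2 ^ (16 * d + 1) * T.card) := Nat.mul_le_mul_left _ hTc
      _ = 2 ^ (b + (16 * d + 1)) * T.card := by rw [pow_add 2 b]; ring
  obtain ⟨τ, q, s, h8, hsize, hst, hs, hm, hfar⟩ := hnum T.card hMT
  have hτ0 : 0 < τ := by omega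
  have hl1 : l ≤ l ^ 3 + 2 * l := by omega
  have hl2 : l ^ 2 + l ≤ l ^ 3 + 2 * l := by
    have : l ^ 2 ≤ l ^ 3 := Nat.pow_le_pow_right (by omega) (by norm_num)
    omega
  have hjun : HasJunH c V Z K F x τ (hvy c (16 * d) Y) := by
    by_contra hno
    have hKt : K.card = R - t := by omega
    have h1 := far_free (t := t) (τ := (l ^ 3 + 2 * l) * τ) hl hL hR hM hH ht.le (hT.trans hZV)
      (fun v hv => hxZ v (hT hv)) (fun v hv => hxF v (hT hv)) (by positivity) (by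
        refine ⟨⟨?_, ?_⟩, ?_⟩
        · intro g hg X hX hXK
          exact lt_of_lt_of_le (pi_one hl hL hH.mem hZV hxZ hT hτ0 hno g hg hX hXK)
            (Nat.mul_le_mul_right _ hl1)
        · intro u hu φ hφ hne X hX hXK
          exact lt_of_lt_of_le (pi_two hl hL hH.mem hZV hxZ hT hτ0 hno hxF hsel u hu φ hφ hne hX
            hXK) (Nat.mul_le_mul_right _ hl2)
        · intro u hu s hs hus h1 h2 h3 h4 X hX hXK
          exact pi_three hl hL hH.mem hZV hxZ hT hτ0 hno hxF hsel u s hu hs hus h1 h4 h2 h3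
            hX hXK)
    rw [hKt] at h1
    omega
  obtain ⟨Φ, X, g1, g2, g3, g4, g5, g6, g7, g8⟩ := hjun
  obtain ⟨x', hx', K', h4, h5⟩ := hnext x q s (t - t') K F Φ X hH ht g1 g2
    g4 g5 (h8.trans g6) (hsize.trans (Nat.mul_le_mul_left _ (Nat.mul_le_mul_right _ g6))) hst hs
    (by omega) hm
  obtain ⟨g, hg⟩ := g7 x' hx'
  refine hcon ⟨x', g3 hx', K', F ∪ Φ, Φ, h4, ?_, g1, Finset.Subset.refl _, g8,
    mass_new hd g1 hg (hnd x' (g3 hx')) (hmass x' (g3 hx'))⟩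
  omega

end FlashRainbow.CFL
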