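import Pool.Agent.Work.MP_54723a_co.CF.Dense

/-!
# Constant factor for every `l`: levels of the reversed colouring  (helper6)
-/

set_option autoImplicit false

namespace FlashRainbow.CFL

open Classical FlashRainbow.CF

variable {c : ℕ → ℕ → ℕ} {V : Finset ℕ} {l N : ℕ} {lev : ℕ → ℕ → ℕ}

/-- levels of the reversed colouring -/
theorem lev_rev (hN : ∀ v ∈ V, v ≤ N) (hL : Lev c V l lev) :
    Lev (revc c N) (rvs V N) l (fun γ v => l - 1 - lev γ (N - v)) := by
  refine ⟨fun γ v hv => ?_, fun u hu v hv huv => ?_⟩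
  · have h1 := (mem_rvs hN).mp hv
    have h2 := hL.lt γ _ h1.2
    omega
  · have h1 := (mem_rvs hN).mp hu
    have h2 := (mem_rvs hN).mp hv
    have h3 := hL.up _ h2.2 _ h1.2 (by omega)
    have h4 := hL.lt (c (N - v) (N - u)) _ h1.2
    simp only [revc_eq]
    omega

end FlashRainbow.CFL
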