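import Pool.Agent.Work.MP_54723a_co.CF.Rich

/-!
# Constant factor for every `l`: rich vertices (RICH)  (port of CF/Rich, helper74; helper26)

`RT`, `heads`, `Rich`, `NoCol`, `exists_popular` do not depend on `l` and are used from CF/Rich.
-/

set_option autoImplicit false

namespace FlashRainbow.CFL

open Classical FlashRainbow.CF

variable {c : ℕ → ℕ → ℕ} {V U B T W F : Finset ℕ} {l : ℕ} {lev : ℕ → ℕ → ℕ}

/-- weighted counting of level types -/
theorem weight_le (hl : 1 ≤ l) (N : ℕ) (T : Finset ℕ) : ∀ B : Finset ℕ,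
    (∀ γ, ∀ v ∈ B, lev γ v < l) →
    (∀ S ⊆ B, (∀ γ ∈ T, ∀ u ∈ S, ∀ v ∈ S, lev γ u = lev γ v) → S.card ≤ N) →
    ∑ v ∈ B, 4 ^ (T.filter fun γ => lev γ v = 0).card ≤ (l + 3) ^ T.card * N := by
  induction T using Finset.induction_on with
  | empty =>
    intro B _ h
    simpa using h B (Finset.Subset.refl _) (by simp)
  | @insert γ T hγ ih =>
    intro B hlt h
    rw [Finset.card_insert_of_notMem hγ]
    have hmaps : ∀ v ∈ B, lev γ v ∈ Finset.range l := fun v hv => by
      rw [Finset.mem_range]; exact hlt γ v hv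
    rw [← Finset.sum_fiberwise_of_maps_to hmaps]
    have hb : ∀ b ∈ Finset.range l, ∑ v ∈ B.filter (fun v => lev γ v = b),
        4 ^ ((insert γ T).filter fun γ => lev γ v = 0).card ≤
          ((if b = 0 then 3 else 0) + 1) * ((l + 3) ^ T.card * N) := by
      intro b _
      have hs := ih (B.filter fun v => lev γ v = b) (fun δ v hv => hlt δ v (Finset.mem_filter.mp hv).1)
        (by
          intro S hS hconst
          refine h S (hS.trans (Finset.filter_subset _ _)) ?_
          intro δ hδ u hu v hv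
          rcases Finset.mem_insert.mp hδ with rfl | hδ
          · rw [(Finset.mem_filter.mp (hS hu)).2, (Finset.mem_filter.mp (hS hv)).2]
          · exact hconst δ hδ u hu v hv)
      refine le_trans ?_ (Nat.mul_le_mul_left _ hs)
      rw [Finset.mul_sum]
      refine Finset.sum_le_sum fun v hv => ?_
      have hv2 := (Finset.mem_filter.mp hv).2
      by_cases hb0 : b = 0
      · rw [if_pos hb0, Finset.filter_insert, if_pos (hv2.trans hb0),
          Finset.card_insert_of_notMem (by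
            intro h'
            exact hγ (Finset.mem_filter.mp h').1), pow_succ]
        rw [Nat.mul_comm]
      · rw [if_neg hb0, Finset.filter_insert, if_neg (by rw [hv2]; exact hb0), Nat.zero_add,
          one_mul]
    refine (Finset.sum_le_sum hb).trans ?_
    rw [← Finset.sum_mul, Finset.sum_add_distrib, Finset.sum_ite_eq',
      if_pos (Finset.mem_range.mpr hl), Finset.sum_const, Finset.card_range, smul_eq_mul, mul_one,
      pow_succ]
    refine le_of_eq ?_
    ring

/-- if the level types over `T` determine a vertex up to `N` choices and every colour of `T` has few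
vertices of positive level, then `B` is small -/
theorem few_heads (hl : 3 ≤ l) (N : ℕ) (hT : 0 < T.card) (hlt : ∀ γ, ∀ v ∈ B, lev γ v < l)
    (hN : ∀ S ⊆ B, (∀ γ ∈ T, ∀ u ∈ S, ∀ v ∈ S, lev γ u = lev γ v) → S.card ≤ N)
    (hfew : ∀ k ∈ T, 8 * (B.filter fun v => lev k v ≠ 0).card ≤ B.card) :
    B.card ^ 2 * 2 ^ T.card ≤ 4 * (N ^ 2 * (l ^ 2) ^ T.card) := by
  set n := T.card with hn
  set a : ℕ → ℕ := fun v => (T.filter fun γ => lev γ v ≠ 0).card with ha
  set G := B.filter fun v => 4 * a v ≤ n with hG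
  have hz : ∀ v, (T.filter fun γ => lev γ v = 0).card + a v = n := by
    intro v
    exact Finset.card_filter_add_card_filter_not _
  -- Markov
  have hsum : ∑ v ∈ B, a v = ∑ k ∈ T, (B.filter fun v => lev k v ≠ 0).card := by
    simp only [ha, Finset.card_filter]
    rw [Finset.sum_comm]
  have hsum8 : 8 * ∑ v ∈ B, a v ≤ n * B.card := by
    rw [hsum, Finset.mul_sum]
    refine (Finset.sum_le_sum hfew).trans ?_
    rw [Finset.sum_const, smul_eq_mul]
  have hbad : 2 * (B.filter fun v => ¬ 4 * a v ≤ n).card ≤ B.card := by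
    set Bd := B.filter fun v => ¬ 4 * a v ≤ n with hBd
    have h1 : Bd.card * n ≤ ∑ v ∈ Bd, 4 * a v := by
      rw [← smul_eq_mul, ← Finset.sum_const]
      refine Finset.sum_le_sum fun v hv => ?_
      have := (Finset.mem_filter.mp hv).2
      omega
    have h2 : ∑ v ∈ Bd, 4 * a v ≤ ∑ v ∈ B, 4 * a v :=
      Finset.sum_le_sum_of_subset (Finset.filter_subset _ _)
    rw [← Finset.mul_sum, ← Finset.mul_sum] at h2
    have h3 : 2 * Bd.card * n ≤ B.card * n := by
      calc 2 * Bd.card * n = 2 * (Bd.card * n) := by ring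
        _ ≤ 2 * (4 * ∑ v ∈ B, a v) := by
            rw [← Finset.mul_sum] at h1
            exact Nat.mul_le_mul_left _ (h1.trans h2)
        _ = 8 * ∑ v ∈ B, a v := by ring
        _ ≤ n * B.card := hsum8
        _ = B.card * n := Nat.mul_comm _ _
    exact Nat.le_of_mul_le_mul_right h3 hT
  have hGc : B.card ≤ 2 * G.card := by
    have := Finset.card_filter_add_card_filter_not (s := B) (fun v => 4 * a v ≤ n)
    rw [← hG] at this
    omega
  have hw := weight_le (by omega) N T B hlt hN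
  have h1 : G.card * 4 ^ (n - n / 4) ≤ (l + 3) ^ n * N := by
    refine le_trans ?_ hw
    refine le_trans ?_ (Finset.sum_le_sum_of_subset (Finset.filter_subset (fun v => 4 * a v ≤ n) B))
    rw [← smul_eq_mul, ← Finset.sum_const]
    refine Finset.sum_le_sum fun v hv => ?_
    have h2 := (Finset.mem_filter.mp hv).2
    have h3 := hz v
    exact Nat.pow_le_pow_right (by norm_num) (by omega)
  have h2 : G.card ^ 2 * 8 ^ n ≤ ((l + 3) ^ n * N) ^ 2 := by
    calc G.card ^ 2 * 8 ^ n ≤ G.card ^ 2 * (4 ^ (n - n / 4)) ^ 2 := by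
          refine Nat.mul_le_mul_left _ ?_
          rw [← pow_mul, show (8 : ℕ) = 2 ^ 3 by norm_num, show (4 : ℕ) = 2 ^ 2 by norm_num,
            ← pow_mul, ← pow_mul]
          exact Nat.pow_le_pow_right (by norm_num) (by omega)
      _ = (G.card * 4 ^ (n - n / 4)) ^ 2 := by ring
      _ ≤ ((l + 3) ^ n * N) ^ 2 := Nat.pow_le_pow_left h1 2
  have hl2 : (l + 3) ^ 2 ≤ l ^ 2 * 4 := by
    calc (l + 3) ^ 2 ≤ (2 * l) ^ 2 := Nat.pow_le_pow_left (by omega) 2
      _ = l ^ 2 * 4 := by ring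
  have h3 : G.card ^ 2 * 2 ^ n ≤ N ^ 2 * (l ^ 2) ^ n := by
    have h4 : G.card ^ 2 * 2 ^ n * 4 ^ n ≤ N ^ 2 * (l ^ 2) ^ n * 4 ^ n := by
      calc G.card ^ 2 * 2 ^ n * 4 ^ n = G.card ^ 2 * 8 ^ n := by
            rw [mul_assoc, ← mul_pow]
            norm_num
        _ ≤ ((l + 3) ^ n * N) ^ 2 := h2
        _ = N ^ 2 * ((l + 3) ^ 2) ^ n := by
            rw [mul_pow, ← pow_mul, Nat.mul_comm n 2, pow_mul]
            ring
        _ ≤ N ^ 2 * (l ^ 2 * 4) ^ n := Nat.mul_le_mul_left _ (Nat.pow_le_pow_left hl2 n)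
        _ = N ^ 2 * (l ^ 2) ^ n * 4 ^ n := by
            rw [mul_assoc, ← mul_pow]
    exact Nat.le_of_mul_le_mul_right h4 (by positivity)
  calc B.card ^ 2 * 2 ^ n ≤ (2 * G.card) ^ 2 * 2 ^ n :=
        Nat.mul_le_mul_right _ (Nat.pow_le_pow_left hGc 2)
    _ = 4 * (G.card ^ 2 * 2 ^ n) := by ring
    _ ≤ 4 * (N ^ 2 * (l ^ 2) ^ n) := Nat.mul_le_mul_left _ h3

/-- a colour of `T` outside `F` with many heads -/
theorem exists_heads (hl : 3 ≤ l) (hL : Lev c B l lev) (N : ℕ) (hF : F ⊆ T)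
    (hFT : F.card < T.card) (hN : ∀ S ⊆ B, NoCol c S T → S.card ≤ N)
    (hbig : 4 * (N ^ 2 * (l ^ 2) ^ T.card * 2 ^ F.card) < B.card ^ 2 * 2 ^ T.card) :
    ∃ k ∈ T, k ∉ F ∧ B.card ≤ 8 * (heads c B k).card := by
  by_contra hcon
  push Not at hcon
  set lv : ℕ → ℕ → ℕ := fun γ v => if ∃ u ∈ B, u < v ∧ c u v = γ then lev γ v else 0 with hlv
  have hlv3 : ∀ γ, ∀ v ∈ B, lv γ v < l := by
    intro γ v hv
    simp only [hlv]
    split_ifs
    · exact hL.lt γ v hv
    · omega
  have hLv : Lev c B l lv := by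
    refine ⟨hlv3, ?_⟩
    intro u hu v hv huv
    have h1 := hL.up u hu v hv huv
    simp only [hlv]
    rw [if_pos (show ∃ u' ∈ B, u' < v ∧ c u' v = c u v from ⟨u, hu, huv, rfl⟩)]
    split_ifs
    · exact h1
    · omega
  have hcard : (T \ F).card = T.card - F.card := Finset.card_sdiff_of_subset hF
  have hlast := few_heads (lev := lv) (B := B) (T := T \ F) hl (l ^ F.card * N)
    (by rw [hcard]; omega) hlv3
    (by
      intro S hS hconst
      refine card_le_of_levels hlv3 N F S hS ?_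
      intro S' hS' hconst'
      refine hN S' (hS'.trans hS) ?_
      intro u hu v hv huv hcT
      have h1 := hLv.up u (hS (hS' hu)) v (hS (hS' hv)) huv
      have h2 : lv (c u v) u = lv (c u v) v := by
        by_cases hcF : c u v ∈ F
        · exact hconst' _ hcF u hu v hv
        · exact hconst _ (Finset.mem_sdiff.mpr ⟨hcT, hcF⟩) u (hS' hu) v (hS' hv)
      omega)
    (by
      intro k hk
      obtain ⟨hkT, hkF⟩ := Finset.mem_sdiff.mp hk
      have h1 := hcon k hkT hkF
      refine le_trans (Nat.mul_le_mul_left _ (Finset.card_le_card ?_)) h1.le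
      intro v hv
      obtain ⟨hvB, hv2⟩ := Finset.mem_filter.mp hv
      refine Finset.mem_filter.mpr ⟨hvB, ?_⟩
      by_contra hno
      exact hv2 (by simp only [hlv]; rw [if_neg hno]))
  rw [hcard] at hlast
  have h1 : B.card ^ 2 * 2 ^ T.card ≤ 4 * (N ^ 2 * (l ^ 2) ^ T.card * 2 ^ F.card) := by
    calc B.card ^ 2 * 2 ^ T.card = B.card ^ 2 * 2 ^ (T.card - F.card) * 2 ^ F.card := by
          rw [mul_assoc, ← pow_add, Nat.sub_add_cancel hFT.le]
      _ ≤ 4 * ((l ^ F.card * N) ^ 2 * (l ^ 2) ^ (T.card - F.card)) * 2 ^ F.card :=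
          Nat.mul_le_mul_right _ hlast
      _ = 4 * (N ^ 2 * ((l ^ 2) ^ F.card * (l ^ 2) ^ (T.card - F.card)) * 2 ^ F.card) := by
          rw [mul_pow, ← pow_mul, Nat.mul_comm F.card 2, pow_mul]
          ring
      _ = 4 * (N ^ 2 * (l ^ 2) ^ T.card * 2 ^ F.card) := by
          rw [← pow_add, Nat.add_sub_cancel' hFT.le]
  omega

/-- **RICH, general form**. -/
theorem rich_core (hl : 3 ≤ l) (hL : Lev c U l lev) (N : ℕ)
    (hN : ∀ S ⊆ U, NoCol c S T → S.card ≤ N) (m : ℕ) (hm : m ≤ T.card)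
    (hbig : 4 * (N ^ 2 * (l ^ 2) ^ T.card * 128 ^ m) < U.card ^ 2 * 2 ^ T.card) :
    ∃ E ⊆ T, E.card = m ∧ ∃ B ⊆ U, U.card ≤ 8 ^ m * B.card ∧ Rich c U B E := by
  have main : ∀ i ≤ m, ∃ E ⊆ T, E.card = i ∧ ∃ B ⊆ U, U.card ≤ 8 ^ i * B.card ∧ Rich c U B E := by
    intro i
    induction i with
    | zero =>
      intro _
      exact ⟨∅, Finset.empty_subset _, rfl, U, Finset.Subset.refl _, by simp, Rich.start⟩
    | succ i ih =>
      intro hi
      obtain ⟨E, hE, hEc, B, hB, hBc, hR⟩ := ih (by omega)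
      have hbB : 4 * (N ^ 2 * (l ^ 2) ^ T.card * 2 ^ E.card) < B.card ^ 2 * 2 ^ T.card := by
        have h1 : 4 * (N ^ 2 * (l ^ 2) ^ T.card * 2 ^ i) * 64 ^ i
            < B.card ^ 2 * 2 ^ T.card * 64 ^ i := by
          calc 4 * (N ^ 2 * (l ^ 2) ^ T.card * 2 ^ i) * 64 ^ i
              = 4 * (N ^ 2 * (l ^ 2) ^ T.card * 128 ^ i) := by
                rw [show (128 : ℕ) = 2 * 64 by norm_num, mul_pow]
                ring
            _ ≤ 4 * (N ^ 2 * (l ^ 2) ^ T.card * 128 ^ m) :=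
                Nat.mul_le_mul_left _ (Nat.mul_le_mul_left _
                  (Nat.pow_le_pow_right (by norm_num) (by omega)))
            _ < U.card ^ 2 * 2 ^ T.card := hbig
            _ ≤ (8 ^ i * B.card) ^ 2 * 2 ^ T.card :=
                Nat.mul_le_mul_right _ (Nat.pow_le_pow_left hBc 2)
            _ = B.card ^ 2 * 2 ^ T.card * 64 ^ i := by
                rw [mul_pow, ← pow_mul, Nat.mul_comm i 2, pow_mul]
                norm_num
                ring
        rw [hEc]
        exact lt_of_mul_lt_mul_right h1 (Nat.zero_le _)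
      obtain ⟨k, hkT, hkE, hk⟩ := exists_heads hl (hL.mono hB) N hE (by omega)
        (fun S hS => hN S (hS.trans hB)) hbB
      refine ⟨insert k E, Finset.insert_subset hkT hE, ?_, heads c B k,
        (Finset.filter_subset _ _).trans hB, ?_, hR.heads⟩
      · rw [Finset.card_insert_of_notMem hkE, hEc]
      · calc U.card ≤ 8 ^ i * B.card := hBc
          _ ≤ 8 ^ i * (8 * (heads c B k).card) := Nat.mul_le_mul_left _ hk
          _ = 8 ^ (i + 1) * (heads c B k).card := by ring
  exact main m le_rfl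

/-- **RICH**: if `U` has at least `N * l ^ T.card / Q` points, where all subsets of `U` without
colours of `T` have at most `N` points, then there are `m` colours of `T`, for every `m` with
`4 * Q ^ 2 * 128 ^ m < 2 ^ T.card`, all subsets of which are colour sets of paths of `U` into many
vertices. -/
theorem rich (hl : 3 ≤ l) (hL : Lev c U l lev) {N Q m : ℕ} (hN0 : 0 < N)
    (hN : ∀ S ⊆ U, NoCol c S T → S.card ≤ N) (hm : m ≤ T.card)
    (hU : N * l ^ T.card ≤ Q * U.card) (hQ : 4 * Q ^ 2 * 128 ^ m < 2 ^ T.card) :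
    ∃ E ⊆ T, E.card = m ∧ ∃ B ⊆ U, U.card ≤ 8 ^ m * B.card ∧ Rich c U B E := by
  refine rich_core hl hL N hN m hm ?_
  have hQ0 : 0 < Q := by
    rcases Nat.eq_zero_or_pos Q with h | h
    · rw [h, Nat.zero_mul] at hU
      have : 0 < N * l ^ T.card := by positivity
      omega
    · exact h
  have h1 : 4 * (N ^ 2 * (l ^ 2) ^ T.card * 128 ^ m) * Q ^ 2
      < U.card ^ 2 * 2 ^ T.card * Q ^ 2 := by
    calc 4 * (N ^ 2 * (l ^ 2) ^ T.card * 128 ^ m) * Q ^ 2
        = (N ^ 2 * (l ^ 2) ^ T.card) * (4 * Q ^ 2 * 128 ^ m) := by ring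
      _ < (N ^ 2 * (l ^ 2) ^ T.card) * 2 ^ T.card := Nat.mul_lt_mul_of_pos_left hQ (by positivity)
      _ = (N * l ^ T.card) ^ 2 * 2 ^ T.card := by
          rw [mul_pow, ← pow_mul, ← pow_mul, Nat.mul_comm T.card 2]
      _ ≤ (Q * U.card) ^ 2 * 2 ^ T.card := Nat.mul_le_mul_right _ (Nat.pow_le_pow_left hU 2)
      _ = U.card ^ 2 * 2 ^ T.card * Q ^ 2 := by ring
  exact lt_of_mul_lt_mul_right h1 (Nat.zero_le _)

/-- a set all of whose edges have one colour has at most `l` points -/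
theorem card_le_one_colour (hL : Lev c U l lev) {k : ℕ}
    (h : ∀ u ∈ U, ∀ v ∈ U, u < v → c u v = k) : U.card ≤ l := by
  have hmaps : ∀ v ∈ U, lev k v ∈ Finset.range l := fun v hv => by
    rw [Finset.mem_range]; exact hL.lt k v hv
  have hinj : Set.InjOn (lev k) U := by
    intro u hu v hv huv
    rcases lt_trichotomy u v with h1 | h1 | h1
    · have h2 := hL.up u hu v hv h1
      rw [h u hu v hv h1] at h2
      exact absurd huv (by omega)
    · exact h1
    · have h2 := hL.up v hv u hu h1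
      rw [h v hv u hu h1] at h2
      exact absurd huv (by omega)
  have h1 := Finset.card_le_card_of_injOn (lev k) hmaps hinj
  rwa [Finset.card_range] at h1

/-- **RICH in a thin set**: all colours of `U` are in `Θ`; the colour `k` is not used. -/
theorem rich_thin (hl : 3 ≤ l) (hL : Lev c U l lev) {Θ : Finset ℕ} (hcol : Col c U Θ) {k Q m : ℕ}
    (hk : k ∈ Θ) (hm : m < Θ.card) (hU : l ^ Θ.card ≤ Q * U.card)
    (hQ : 8 * Q ^ 2 * 128 ^ m < 2 ^ Θ.card) :
    ∃ E ⊆ Θ, k ∉ E ∧ E.card = m ∧ ∃ B ⊆ U, U.card ≤ 8 ^ m * B.card ∧ Rich c U B E := by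
  have hc1 : (Θ.erase k).card + 1 = Θ.card := Finset.card_erase_add_one hk
  obtain ⟨E, hE, hEc, B, hB, hBc, hR⟩ := rich (T := Θ.erase k) (N := l) (Q := Q) (m := m) hl hL
    (by omega) (by
      intro S hS hS2
      refine card_le_one_colour (hL.mono hS) (k := k) ?_
      intro u hu v hv huv
      by_contra hne
      exact hS2 u hu v hv huv (Finset.mem_erase.mpr ⟨hne, hcol u (hS hu) v (hS hv) huv⟩))
    (by omega) (by
      refine le_trans (le_of_eq ?_) hU
      rw [← hc1, pow_succ]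
      ring) (by
      have h1 : 8 * Q ^ 2 * 128 ^ m = 2 * (4 * Q ^ 2 * 128 ^ m) := by ring
      have h2 : 2 ^ Θ.card = 2 * 2 ^ (Θ.erase k).card := by
        rw [← hc1, pow_succ, Nat.mul_comm]
      rw [h1, h2] at hQ
      exact Nat.lt_of_mul_lt_mul_left hQ)
  exact ⟨E, hE.trans (Finset.erase_subset _ _), fun h => (Finset.mem_erase.mp (hE h)).1 rfl,
    hEc, B, hB, hBc, hR⟩

/-- **Stage inside a thin set, fixed start and fixed first colour** (helper20, (A)): for every vertex
`u` of the thin set `W` with at least half of `W` behind it there are a colour `k`, a set `E` of `m`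
colours without `k` and many vertices `y` such that for EVERY subset of `E` there is a rainbow path of
`W` from `u` to `y` with exactly the colours of that subset and `k`. -/
theorem rich_entry (hl : 3 ≤ l) (hL : Lev c W l lev) {Θ : Finset ℕ} (hcol : Col c W Θ)
    {u Q m : ℕ} (hu : u ∈ W) (hm : m < Θ.card) (hW : l ^ Θ.card ≤ Q * W.card)
    (hhalf : W.card ≤ 2 * (W.filter fun v => u < v).card)
    (hQ : 8 * (2 * Θ.card * Q) ^ 2 * 128 ^ m < 2 ^ Θ.card) :
    ∃ k ∈ Θ, ∃ E ⊆ Θ, k ∉ E ∧ E.card = m ∧ ∃ Y ⊆ OutC c W u k,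
      W.card ≤ 2 * Θ.card * 8 ^ m * Y.card ∧
      ∀ y ∈ Y, ∀ E' ⊆ E, RT c W u y (insert k E') := by
  have hWpos : 0 < W.card := Finset.card_pos.mpr ⟨u, hu⟩
  obtain ⟨k, hk, hkc⟩ := exists_popular hcol hu (by omega)
  have hOW : OutC c W u k ⊆ W := Finset.filter_subset _ _
  have hWk : W.card ≤ 2 * Θ.card * (OutC c W u k).card := by
    calc W.card ≤ 2 * (W.filter fun v => u < v).card := hhalf
      _ ≤ 2 * (Θ.card * (OutC c W u k).card) := Nat.mul_le_mul_left _ hkc
      _ = 2 * Θ.card * (OutC c W u k).card := by ring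
  obtain ⟨E, hE, hkE, hEc, Y, hY, hYc, hR⟩ := rich_thin (k := k) (Q := 2 * Θ.card * Q) (m := m)
    hl (hL.mono hOW) (fun a ha b hb hab => hcol a (hOW ha) b (hOW hb) hab) hk hm (by
      calc l ^ Θ.card ≤ Q * W.card := hW
        _ ≤ Q * (2 * Θ.card * (OutC c W u k).card) := Nat.mul_le_mul_left _ hWk
        _ = 2 * Θ.card * Q * (OutC c W u k).card := by ring) hQ
  refine ⟨k, hk, E, hE, hkE, hEc, Y, hY, ?_, ?_⟩
  · calc W.card ≤ 2 * Θ.card * (OutC c W u k).card := hWk
      _ ≤ 2 * Θ.card * (8 ^ m * Y.card) := Nat.mul_le_mul_left _ hYc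
      _ = 2 * Θ.card * 8 ^ m * Y.card := by ring
  · intro y hy E' hE'
    obtain ⟨v, hv, hRT⟩ := hR.2 y hy E' hE'
    obtain ⟨-, huv, hcuv⟩ := Finset.mem_filter.mp hv
    have h1 := hRT.cons hOW hu huv (by rw [hcuv]; exact fun h => hkE (hE' h))
    rwa [hcuv] at h1

end FlashRainbow.CFL
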