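import Pool.Agent.Work.MP_54723a_co.CF.ThinZone
import Pool.Agent.Work.MP_54723a_co.CFL.Rich

/-!
# Thin zones and rich vertices in a plain set for every `l`  (port of CF/ThinZone, second half;
helper44)

The two labelled lemmas enter as `ThinLab l a b e`, `ThinLabUp l a b e` with any constants.
-/

set_option autoImplicit false

namespace FlashRainbow.CFL

open Classical FlashRainbow.CF

variable {c : ℕ → ℕ → ℕ} {V T W U X Θ : Finset ℕ} {l t s q C d N M : ℕ} {lev : ℕ → ℕ → ℕ}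

/-- a labelled set whose `Θ`- and label-avoiding in-paths are short contains a large `Θ`-coloured
subset -/
def ThinLab (l a b e : ℕ) : Prop :=
  ∀ (c : ℕ → ℕ → ℕ) (U Θ : Finset ℕ) (t C d : ℕ) (lev : ℕ → ℕ → ℕ) (g : ℕ → ℕ),
    Lev c U l lev → Rk c U t → Θ.card = t →
    (∀ u ∈ U, ∀ D, RP c U u D → Disjoint D Θ → g u ∉ D → D.card ≤ C) →
    l ^ t ≤ 2 ^ d * U.card →
    ∃ X ⊆ U, Col c X Θ ∧ U.card ≤ 2 ^ (a * C + b * d + e) * X.card

/-- the same with out-paths -/
def ThinLabUp (l a b e : ℕ) : Prop :=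
  ∀ (c : ℕ → ℕ → ℕ) (U Θ : Finset ℕ) (t C d : ℕ) (lev : ℕ → ℕ → ℕ) (g : ℕ → ℕ),
    Lev c U l lev → Rk c U t → Θ.card = t →
    (∀ u ∈ U, ∀ D, RS c U u D → Disjoint D Θ → g u ∉ D → D.card ≤ C) →
    l ^ t ≤ 2 ^ d * U.card →
    ∃ X ⊆ U, Col c X Θ ∧ U.card ≤ 2 ^ (a * C + b * d + e) * X.card

/-- the vertices all of whose long paths into them contain `g` -/
theorem forcedL_in_le (hl : 3 ≤ l) (hL : Lev c U l lev)
    (hM : ∀ W ⊆ U, ∀ r ≤ t, Rk c W r → W.card * l ^ (t - r) ≤ M) (hst : s + 1 ≤ t) (g : ℕ) :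
    (U.filter fun v => ∀ D, RP c U v D → t ≤ D.card + s → g ∈ D).card * l ^ s ≤ M := by
  set T := U.filter fun v => ∀ D, RP c U v D → t ≤ D.card + s → g ∈ D with hT
  have hTU : T ⊆ U := Finset.filter_subset _ _
  have hmaps : ∀ v ∈ T, lev g v ∈ Finset.range l := fun v hv => by
    rw [Finset.mem_range]; exact hL.lt g v (hTU hv)
  have hcl : ∀ i ∈ Finset.range l, (T.filter fun v => lev g v = i).card * l ^ (s + 1) ≤ M := by
    intro i _
    have hsub : (T.filter fun v => lev g v = i) ⊆ U := (Finset.filter_subset _ _).trans hTU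
    have h1 := hM _ hsub (t - s - 1) (by omega) (by
      intro y D hD
      have hyT := (Finset.mem_filter.mp hD.mem).1
      have hgD : g ∉ D := by
        refine hD.notMem_of_free ?_
        intro u hu v hv huv hcg
        have h1 := Finset.mem_filter.mp hu
        have h2 := Finset.mem_filter.mp hv
        have h3 := hL.up u (hTU h1.1) v (hTU h2.1) huv
        rw [hcg] at h3
        omega
      have h1 := (Finset.mem_filter.mp hyT).2 D (hD.mono hsub)
      by_contra hcon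
      exact hgD (h1 (by omega)))
    rwa [show t - (t - s - 1) = s + 1 by omega] at h1
  have h1 : T.card * l ^ (s + 1) ≤ l * M := by
    rw [Finset.card_eq_sum_card_fiberwise hmaps, Finset.sum_mul]
    calc ∑ i ∈ Finset.range l, (T.filter fun v => lev g v = i).card * l ^ (s + 1)
        ≤ ∑ _i ∈ Finset.range l, M := Finset.sum_le_sum hcl
      _ = l * M := by rw [Finset.sum_const, Finset.card_range, smul_eq_mul]
  rw [pow_succ] at h1
  have h2 : T.card * (l ^ s * l) = l * (T.card * l ^ s) := by ring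
  rw [h2] at h1
  exact Nat.le_of_mul_le_mul_left h1 (by omega)

/-- the vertices without long paths out of them -/
theorem shortL_out_le (hl : 3 ≤ l) (hM : ∀ W ⊆ U, ∀ r ≤ t, Rk c W r → W.card * l ^ (t - r) ≤ M)
    (hst : s + 1 ≤ t) :
    (U.filter fun v => ¬ ∃ D, RS c U v D ∧ t ≤ D.card + s).card * l ^ s ≤ M := by
  set T := U.filter fun v => ¬ ∃ D, RS c U v D ∧ t ≤ D.card + s with hT
  have hTU : T ⊆ U := Finset.filter_subset _ _
  have h1 := hM T hTU (t - s - 1) (by omega) (by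
    intro y D hD
    obtain ⟨x, hx⟩ := hD.toRS
    have h2 := (Finset.mem_filter.mp hx.mem).2
    by_contra hcon
    exact h2 ⟨D, hx.mono hTU, by omega⟩)
  rw [show t - (t - s - 1) = s + 1 by omega, pow_succ] at h1
  calc T.card * l ^ s ≤ T.card * l ^ s * l := Nat.le_mul_of_pos_right _ (by omega)
    _ = T.card * (l ^ s * l) := by ring
    _ ≤ M := h1

/-- **THIN ZONE** -/
theorem thin_zone_of (hl : 3 ≤ l) {a b e L : ℕ} (hlL : l ≤ 2 ^ L) (hIn : ThinLab l a b e)
    (hUp : ThinLabUp l a b e) (hL : Lev c U l lev) (hR : Rk c U t)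
    (hM : ∀ W ⊆ U, ∀ r ≤ t, Rk c W r → W.card * l ^ (t - r) ≤ M) (h3 : l ^ t ≤ M)
    (hMU : M ≤ 2 ^ q * U.card) (hst : s + 1 ≤ t) (hs : 16 * (t + 1) * 2 ^ q ≤ l ^ s)
    (hU8 : 8 ≤ U.card) :
    ∃ Θ X, X ⊆ U ∧ Θ.card = t ∧ Col c X Θ ∧
      U.card ≤ 2 ^ ((a + b * L + 3 * L + 2) * s + (3 + 3 * b + e)) * X.card := by
  have h3s : l ^ s ≤ 2 ^ (L * s) := by
    rw [pow_mul]
    exact Nat.pow_le_pow_left hlL s
  have hq : q ≤ L * s := by
    have h1 : (2 : ℕ) ^ q ≤ 2 ^ (L * s) := by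
      calc 2 ^ q ≤ 16 * (t + 1) * 2 ^ q := Nat.le_mul_of_pos_left _ (by omega)
        _ ≤ l ^ s := hs
        _ ≤ _ := h3s
    exact (Nat.pow_le_pow_iff_right (by norm_num)).mp h1
  have htS : t ≤ 2 ^ (L * s) := by
    calc t ≤ 16 * (t + 1) * 1 := by omega
      _ ≤ 16 * (t + 1) * 2 ^ q := Nat.mul_le_mul_left _ (Nat.one_le_two_pow)
      _ ≤ l ^ s := hs
      _ ≤ _ := h3s
  -- the constant of the two labelled cases
  have hlabconst : 3 + (a * s + b * (q + 3) + e) ≤
      (a + b * L + 3 * L + 2) * s + (3 + 3 * b + e) := by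
    have h1 : b * q ≤ b * (L * s) := Nat.mul_le_mul_left _ hq
    have h2 : (a + b * L + 3 * L + 2) * s = a * s + b * (L * s) + (3 * L + 2) * s := by ring
    have h4 : b * (q + 3) = b * q + 3 * b := by ring
    rw [h2, h4]
    omega
  have hbconst : 3 + (L * s + (2 * s + 2 * (L * s))) ≤
      (a + b * L + 3 * L + 2) * s + (3 + 3 * b + e) := by
    have h2 : (a + b * L + 3 * L + 2) * s = a * s + b * (L * s) + (3 * (L * s) + 2 * s) := by ring
    rw [h2]
    omega
  set F : ℕ → Finset ℕ := fun g =>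
    U.filter fun v => ∀ D, RP c U v D → t ≤ D.card + s → g ∈ D with hF
  have hFc : ∀ g, (F g).card * l ^ s ≤ M := fun g => forcedL_in_le hl hL hM hst g
  set InL : ℕ → Prop := fun p => ∃ D, RP c U p D ∧ t ≤ D.card + s with hInL
  set OutL : ℕ → Prop := fun p => ∃ D, RS c U p D ∧ t ≤ D.card + s with hOutL
  have hexP : ∀ p, ∃ D, InL p → RP c U p D ∧ t ≤ D.card + s := by
    intro p
    by_cases h : InL p
    · obtain ⟨D, hD⟩ := h
      exact ⟨D, fun _ => hD⟩
    · exact ⟨∅, fun h' => absurd h' h⟩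
  choose P hP using hexP
  have hexQ : ∀ p, ∃ D, OutL p → RS c U p D ∧ t ≤ D.card + s := by
    intro p
    by_cases h : OutL p
    · obtain ⟨D, hD⟩ := h
      exact ⟨D, fun _ => hD⟩
    · exact ⟨∅, fun h' => absurd h' h⟩
  choose Q hQ using hexQ
  set aα : ℕ → Finset ℕ := fun p => U.filter fun z => p < z ∧ InL p ∧ c p z ∉ P p with haα
  set aβ : ℕ → Finset ℕ := fun p => U.filter fun z => p < z ∧ p ∉ F (c p z) ∧ c p z ∈ P p with haβ
  set aγ : ℕ → Finset ℕ := fun z => U.filter fun p => p < z ∧ OutL z ∧ c p z ∉ Q z with haγ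
  by_cases hα : ∃ p ∈ U, U.card ≤ 8 * (aα p).card
  · -- case (a)
    obtain ⟨p, hp, hpc⟩ := hα
    have hZU : aα p ⊆ U := Finset.filter_subset _ _
    have hne : (aα p).Nonempty := by
      rw [← Finset.card_pos]
      omega
    obtain ⟨z₀, hz₀⟩ := hne
    obtain ⟨-, -, hInp, -⟩ := Finset.mem_filter.mp hz₀
    obtain ⟨hPp, hPt⟩ := hP p hInp
    obtain ⟨Θ, hΘ, hΘc⟩ := exists_pad (hR _ _ hPp)
    obtain ⟨X, hX, hcol, hXc⟩ := hUp c (aα p) Θ t s (q + 3) lev (fun z => c p z)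
      (hL.mono hZU) (fun y D hD => hR y D (hD.mono hZU)) hΘc (by
        intro z hz D hD hdis hg
        obtain ⟨hzU, hpz, -, hcz⟩ := Finset.mem_filter.mp hz
        have h1 := RP.step hPp hzU hpz hcz
        have h2 : Disjoint D (insert (c p z) (P p)) := by
          rw [Finset.disjoint_insert_right]
          exact ⟨hg, hdis.mono_right hΘ⟩
        obtain ⟨y, hy⟩ := hD.join hZU _ h1 h2
        have h4 := hR _ _ hy
        rw [Finset.card_union_of_disjoint h2.symm, Finset.card_insert_of_notMem hcz] at h4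
        omega) (by
        calc l ^ t ≤ 2 ^ q * U.card := h3.trans hMU
          _ ≤ 2 ^ q * (8 * (aα p).card) := Nat.mul_le_mul_left _ hpc
          _ = 2 ^ (q + 3) * (aα p).card := by rw [pow_add]; ring)
    refine ⟨Θ, X, hX.trans hZU, hΘc, hcol, ?_⟩
    calc U.card ≤ 8 * (aα p).card := hpc
      _ ≤ 8 * (2 ^ (a * s + b * (q + 3) + e) * X.card) :=
          Nat.mul_le_mul_left _ hXc
      _ = 2 ^ (3 + (a * s + b * (q + 3) + e)) * X.card := by
          rw [pow_add 2 3]; ring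
      _ ≤ 2 ^ ((a + b * L + 3 * L + 2) * s + (3 + 3 * b + e)) * X.card :=
          Nat.mul_le_mul_right _ (Nat.pow_le_pow_right (by norm_num) hlabconst)
  by_cases hγ : ∃ z ∈ U, U.card ≤ 8 * (aγ z).card
  · -- case (c)
    obtain ⟨z, hz, hzc⟩ := hγ
    have hZU : aγ z ⊆ U := Finset.filter_subset _ _
    have hne : (aγ z).Nonempty := by
      rw [← Finset.card_pos]
      omega
    obtain ⟨p₀, hp₀⟩ := hne
    obtain ⟨-, -, hOz, -⟩ := Finset.mem_filter.mp hp₀
    obtain ⟨hQz, hQt⟩ := hQ z hOz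
    obtain ⟨Θ, hΘ, hΘc⟩ := exists_pad (hQz.card_le hR)
    obtain ⟨X, hX, hcol, hXc⟩ := hIn c (aγ z) Θ t s (q + 3) lev (fun p => c p z)
      (hL.mono hZU) (fun y D hD => hR y D (hD.mono hZU)) hΘc (by
        intro p hp D hD hdis hg
        obtain ⟨hpU, hpz, -, hcz⟩ := Finset.mem_filter.mp hp
        have h1 := RP.step (hD.mono hZU) hz hpz hg
        have h2 : Disjoint (Q z) (insert (c p z) D) := by
          rw [Finset.disjoint_insert_right]
          exact ⟨hcz, (hdis.mono_right hΘ).symm⟩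
        obtain ⟨y, hy⟩ := hQz.join (Finset.Subset.refl U) _ h1 h2
        have h4 := hR _ _ hy
        rw [Finset.card_union_of_disjoint h2.symm, Finset.card_insert_of_notMem hg] at h4
        omega) (by
        calc l ^ t ≤ 2 ^ q * U.card := h3.trans hMU
          _ ≤ 2 ^ q * (8 * (aγ z).card) := Nat.mul_le_mul_left _ hzc
          _ = 2 ^ (q + 3) * (aγ z).card := by rw [pow_add]; ring)
    refine ⟨Θ, X, hX.trans hZU, hΘc, hcol, ?_⟩
    calc U.card ≤ 8 * (aγ z).card := hzc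
      _ ≤ 8 * (2 ^ (a * s + b * (q + 3) + e) * X.card) :=
          Nat.mul_le_mul_left _ hXc
      _ = 2 ^ (3 + (a * s + b * (q + 3) + e)) * X.card := by
          rw [pow_add 2 3]; ring
      _ ≤ 2 ^ ((a + b * L + 3 * L + 2) * s + (3 + 3 * b + e)) * X.card :=
          Nat.mul_le_mul_right _ (Nat.pow_le_pow_right (by norm_num) hlabconst)
  by_cases hβ : ∃ p ∈ U, U.card ≤ 8 * (aβ p).card
  · -- case (b)
    obtain ⟨p, hp, hpc⟩ := hβ
    have hZU : aβ p ⊆ U := Finset.filter_subset _ _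
    have hne : (aβ p).Nonempty := by
      rw [← Finset.card_pos]
      omega
    obtain ⟨z₀, hz₀⟩ := hne
    obtain ⟨hz₀U, -, hz₀F, hz₀P⟩ := Finset.mem_filter.mp hz₀
    have hInp : InL p := by
      by_contra hno
      refine hz₀F (Finset.mem_filter.mpr ⟨hp, fun D hD ht => ?_⟩)
      exact absurd ⟨D, hD, ht⟩ hno
    obtain ⟨hPp, hPt⟩ := hP p hInp
    have hPc : (P p).card ≤ t := hR _ _ hPp
    obtain ⟨g, hgP, hg⟩ := exists_big_fiber (aβ p) (fun z => c p z) (P p) ⟨_, hz₀P⟩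
      (fun z hz => (Finset.mem_filter.mp hz).2.2.2)
    set Z := (aβ p).filter fun z => c p z = g with hZ
    have hZU' : Z ⊆ U := (Finset.filter_subset _ _).trans hZU
    have hZne : Z.Nonempty := by
      rw [← Finset.card_pos]
      rcases Nat.eq_zero_or_pos Z.card with h0 | h0
      · rw [h0, Nat.mul_zero] at hg
        omega
      · exact h0
    obtain ⟨z₁, hz₁⟩ := hZne
    obtain ⟨hz₁a, hz₁c⟩ := Finset.mem_filter.mp hz₁
    obtain ⟨hz₁U, hpz₁, hz₁F, -⟩ := Finset.mem_filter.mp hz₁a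
    rw [hz₁c] at hz₁F
    have hex : ∃ D, RP c U p D ∧ t ≤ D.card + s ∧ g ∉ D := by
      by_contra hno
      push Not at hno
      exact hz₁F (Finset.mem_filter.mpr ⟨hp, hno⟩)
    obtain ⟨D₀, hD₀, hD₀t, hgD₀⟩ := hex
    have hins : (insert g D₀).card ≤ t := by
      have h1 := RP.step hD₀ hz₁U hpz₁ (by rw [hz₁c]; exact hgD₀)
      rw [hz₁c] at h1
      exact hR _ _ h1
    obtain ⟨Θ, hΘ, hΘc⟩ := exists_pad hins
    obtain ⟨X, hX, hcol, hXc⟩ := chi (l := l) (U := Z) (Θ := Θ) (C := s) (by omega)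
      (hL.mono hZU') (by
        intro y D hD hdis
        obtain ⟨x, hx⟩ := hD.toRS
        obtain ⟨hxa, hxc⟩ := Finset.mem_filter.mp hx.mem
        obtain ⟨hxU, hpx, -, -⟩ := Finset.mem_filter.mp hxa
        have h1 := RP.step hD₀ hxU hpx (by rw [hxc]; exact hgD₀)
        rw [hxc] at h1
        obtain ⟨y', hy'⟩ := hx.join hZU' _ h1 (hdis.mono_right hΘ)
        have h2 := hR _ _ hy'
        rw [Finset.card_union_of_disjoint (hdis.mono_right hΘ).symm,
          Finset.card_insert_of_notMem hgD₀] at h2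
        omega)
    refine ⟨Θ, X, hX.trans hZU', hΘc, hcol, ?_⟩
    have h1 : (s + 1) ^ 2 * l ^ (2 * s) ≤ 2 ^ (2 * s + 2 * (L * s)) := by
      have h2 : s + 1 ≤ 2 ^ s := Nat.lt_two_pow_self
      calc (s + 1) ^ 2 * l ^ (2 * s) ≤ (2 ^ s) ^ 2 * (2 ^ L) ^ (2 * s) := by
            gcongr
        _ = 2 ^ (2 * s + 2 * (L * s)) := by
          rw [← pow_mul, ← pow_mul, ← pow_add]
          congr 1
          ring
    calc U.card ≤ 8 * (aβ p).card := hpc
      _ ≤ 8 * ((P p).card * Z.card) := Nat.mul_le_mul_left _ hg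
      _ ≤ 8 * (2 ^ (L * s) * ((s + 1) ^ 2 * l ^ (2 * s) * X.card)) := by
          gcongr
          exact hPc.trans htS
      _ ≤ 8 * (2 ^ (L * s) * (2 ^ (2 * s + 2 * (L * s)) * X.card)) := by gcongr
      _ = 2 ^ (3 + (L * s + (2 * s + 2 * (L * s)))) * X.card := by
          rw [pow_add 2 3, pow_add 2 (L * s)]; ring
      _ ≤ 2 ^ ((a + b * L + 3 * L + 2) * s + (3 + 3 * b + e)) * X.card :=
          Nat.mul_le_mul_right _ (Nat.pow_le_pow_right (by norm_num) hbconst)
  -- no case: too few pairs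
  exfalso
  push Not at hα hβ hγ
  set g2 : ℕ → Finset ℕ := fun z => U.filter fun p => p < z ∧ p ∈ F (c p z) ∧ c p z ∈ Q z ∧ OutL z
    with hg2
  set S := U.filter fun v => ¬ ∃ D, RS c U v D ∧ t ≤ D.card + s with hS
  have hSc : S.card * l ^ s ≤ M := shortL_out_le hl hM hst
  have hg2c : ∀ z ∈ U, (g2 z).card * l ^ s ≤ t * M := by
    intro z hz
    by_cases hO : OutL z
    · have h1 : g2 z ⊆ (Q z).biUnion F := by
        intro p hp
        obtain ⟨-, -, h2, h3, -⟩ := Finset.mem_filter.mp hp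
        exact Finset.mem_biUnion.mpr ⟨_, h3, h2⟩
      have hQc : (Q z).card ≤ t := ((hQ z hO).1).card_le hR
      calc (g2 z).card * l ^ s ≤ (∑ g ∈ Q z, (F g).card) * l ^ s :=
            Nat.mul_le_mul_right _ ((Finset.card_le_card h1).trans Finset.card_biUnion_le)
        _ = ∑ g ∈ Q z, (F g).card * l ^ s := Finset.sum_mul _ _ _
        _ ≤ ∑ _g ∈ Q z, M := Finset.sum_le_sum fun g _ => hFc g
        _ = (Q z).card * M := by rw [Finset.sum_const, smul_eq_mul]
        _ ≤ t * M := Nat.mul_le_mul_right _ hQc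
    · have h1 : g2 z = ∅ := by
        rw [hg2, Finset.filter_eq_empty_iff]
        rintro p _ ⟨-, -, -, h⟩
        exact hO h
      rw [h1]
      simp
  have hpairs := sum_pairs U
  have hcov : ∑ p ∈ U, (U.filter fun z => p < z).card ≤
      ∑ p ∈ U, (aα p).card + ∑ p ∈ U, (aβ p).card + (∑ z ∈ U, (aγ z).card +
        ∑ z ∈ U, (g2 z).card + U.card * S.card) := by
    have h1 : ∑ p ∈ U, (U.filter fun z => p < z).card ≤ ∑ p ∈ U, ((aα p).card + (aβ p).card +
        (U.filter fun z => p < z ∧ p ∈ F (c p z)).card) := by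
      refine Finset.sum_le_sum fun p hp => ?_
      refine (Finset.card_le_card (t := (aα p ∪ aβ p) ∪
        (U.filter fun z => p < z ∧ p ∈ F (c p z))) ?_).trans
        ((Finset.card_union_le _ _).trans (Nat.add_le_add_right (Finset.card_union_le _ _) _))
      intro z hz
      obtain ⟨hzU, hpz⟩ := Finset.mem_filter.mp hz
      by_cases h2 : p ∈ F (c p z)
      · exact Finset.mem_union_right _ (Finset.mem_filter.mpr ⟨hzU, hpz, h2⟩)
      · refine Finset.mem_union_left _ ?_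
        by_cases h3 : c p z ∈ P p
        · exact Finset.mem_union_right _ (Finset.mem_filter.mpr ⟨hzU, hpz, h2, h3⟩)
        · refine Finset.mem_union_left _ (Finset.mem_filter.mpr ⟨hzU, hpz, ?_, h3⟩)
          by_contra hno
          exact h2 (Finset.mem_filter.mpr ⟨hp, fun D hD ht => absurd ⟨D, hD, ht⟩ hno⟩)
    have h2 : ∑ p ∈ U, (U.filter fun z => p < z ∧ p ∈ F (c p z)).card =
        ∑ z ∈ U, (U.filter fun p => p < z ∧ p ∈ F (c p z)).card := by
      simp only [Finset.card_filter]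
      exact Finset.sum_comm
    have h4 : ∑ z ∈ U, (U.filter fun p => p < z ∧ p ∈ F (c p z)).card ≤
        ∑ z ∈ U, ((aγ z).card + (g2 z).card + if z ∈ S then U.card else 0) := by
      refine Finset.sum_le_sum fun z hz => ?_
      by_cases hzS : z ∈ S
      · rw [if_pos hzS]
        have := Finset.card_filter_le U fun p => p < z ∧ p ∈ F (c p z)
        omega
      · rw [if_neg hzS, Nat.add_zero]
        have hO : OutL z := by
          by_contra hno
          exact hzS (Finset.mem_filter.mpr ⟨hz, hno⟩)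
        refine (Finset.card_le_card (t := aγ z ∪ g2 z) ?_).trans (Finset.card_union_le _ _)
        intro p hp
        obtain ⟨hpU, hpz, hpF⟩ := Finset.mem_filter.mp hp
        by_cases h5 : c p z ∈ Q z
        · exact Finset.mem_union_right _ (Finset.mem_filter.mpr ⟨hpU, hpz, hpF, h5, hO⟩)
        · exact Finset.mem_union_left _ (Finset.mem_filter.mpr ⟨hpU, hpz, hO, h5⟩)
    have h5 : ∑ z ∈ U, (if z ∈ S then U.card else 0) = U.card * S.card := by
      rw [← Finset.sum_filter, Finset.sum_const, smul_eq_mul, Nat.mul_comm]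
      congr 2
      rw [Finset.filter_mem_eq_inter, Finset.inter_eq_right]
      exact Finset.filter_subset _ _
    rw [Finset.sum_add_distrib, Finset.sum_add_distrib] at h1 h4
    rw [h5] at h4
    omega
  set n := U.card with hn
  have e1 : 8 * ∑ p ∈ U, (aα p).card ≤ n * (n - 1) := by
    rw [Finset.mul_sum]
    refine (Finset.sum_le_card_nsmul U _ (n - 1) fun p hp => ?_).trans (by rw [smul_eq_mul])
    have := hα p hp
    omega
  have e2 : 8 * ∑ p ∈ U, (aβ p).card ≤ n * (n - 1) := by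
    rw [Finset.mul_sum]
    refine (Finset.sum_le_card_nsmul U _ (n - 1) fun p hp => ?_).trans (by rw [smul_eq_mul])
    have := hβ p hp
    omega
  have e3 : 8 * ∑ p ∈ U, (aγ p).card ≤ n * (n - 1) := by
    rw [Finset.mul_sum]
    refine (Finset.sum_le_card_nsmul U _ (n - 1) fun p hp => ?_).trans (by rw [smul_eq_mul])
    have := hγ p hp
    omega
  have e4 : 16 * (∑ z ∈ U, (g2 z).card + n * S.card) ≤ n * n := by
    have h1 : (∑ z ∈ U, (g2 z).card) * l ^ s ≤ n * (t * M) := by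
      rw [Finset.sum_mul]
      exact (Finset.sum_le_card_nsmul U _ (t * M) hg2c).trans (by rw [smul_eq_mul])
    have h2 : 16 * (∑ z ∈ U, (g2 z).card + n * S.card) * l ^ s ≤ n * n * l ^ s := by
      calc 16 * (∑ z ∈ U, (g2 z).card + n * S.card) * l ^ s
          = 16 * ((∑ z ∈ U, (g2 z).card) * l ^ s + n * (S.card * l ^ s)) := by ring
        _ ≤ 16 * (n * (t * M) + n * M) := by gcongr
        _ = 16 * (t + 1) * n * M := by ring
        _ ≤ 16 * (t + 1) * n * (2 ^ q * n) := Nat.mul_le_mul_left _ hMU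
        _ = (16 * (t + 1) * 2 ^ q) * (n * n) := by ring
        _ ≤ l ^ s * (n * n) := Nat.mul_le_mul_right _ hs
        _ = n * n * l ^ s := by ring
    exact Nat.le_of_mul_le_mul_right h2 (by positivity)
  have e5 : n * (n - 1) = n * n - n := by
    rw [Nat.mul_sub, Nat.mul_one]
  have e6 : n * 8 ≤ n * n := Nat.mul_le_mul_left _ hU8
  omega


/-- **RICH in a plain set**, exponential precision, every `l` -/
theorem rich_plain_of (hl : 3 ≤ l) {a b e L : ℕ} (hlL : l ≤ 2 ^ L) (hIn : ThinLab l a b e)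
    (hUp : ThinLabUp l a b e) (hL : Lev c U l lev) (hR : Rk c U t)
    (hM : ∀ W ⊆ U, ∀ r ≤ t, Rk c W r → W.card * l ^ (t - r) ≤ M) (h3 : l ^ t ≤ M)
    (hMU : M ≤ 2 ^ q * U.card) (hst : s + 1 ≤ t) (hs : 16 * (t + 1) * 2 ^ q ≤ l ^ s)
    (hU8 : 8 ≤ U.card) {m : ℕ}
    (hm : 3 + 2 * (q + ((a + b * L + 3 * L + 2) * s + (3 + 3 * b + e))) + 7 * m < t) :
    ∃ E : Finset ℕ, E.card = m ∧ ∃ B ⊆ U,
      U.card ≤ 8 ^ m * 2 ^ ((a + b * L + 3 * L + 2) * s + (3 + 3 * b + e)) * B.card ∧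
      Rich c U B E := by
  obtain ⟨Θ, X, hXU, hΘ, hcol, hXc⟩ := thin_zone_of hl hlL hIn hUp hL hR hM h3 hMU hst hs hU8
  generalize (a + b * L + 3 * L + 2) * s + (3 + 3 * b + e) = k₀ at hm hXc ⊢
  have hne : Θ.Nonempty := by
    rw [← Finset.card_pos, hΘ]
    omega
  obtain ⟨k, hk⟩ := hne
  obtain ⟨E, -, -, hEc, B, hBX, hBc, hRich⟩ := CFL.rich_thin (Q := 2 ^ (q + k₀)) (m := m) hl
    (hL.mono hXU) hcol hk (by omega) (by
      rw [hΘ]
      calc l ^ t ≤ 2 ^ q * U.card := h3.trans hMU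
        _ ≤ 2 ^ q * (2 ^ k₀ * X.card) := Nat.mul_le_mul_left _ hXc
        _ = _ := by rw [pow_add 2 q]; ring) (by
      rw [hΘ, ← pow_mul, show (128 : ℕ) = 2 ^ 7 by norm_num, ← pow_mul,
        show (8 : ℕ) = 2 ^ 3 by norm_num, ← pow_add, ← pow_add]
      exact Nat.pow_lt_pow_right (by norm_num) (by omega))
  refine ⟨E, hEc, B, hBX.trans hXU, ?_, rich_mono hRich hXU⟩
  calc U.card ≤ 2 ^ k₀ * X.card := hXc
    _ ≤ 2 ^ k₀ * (8 ^ m * B.card) := Nat.mul_le_mul_left _ hBc
    _ = _ := by ring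

end FlashRainbow.CFL
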