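import Pool.Agent.Work.MP_54723a_co.CFL.PrivLab
import Pool.Agent.Work.MP_54723a_co.CFL.Rev
import Pool.Agent.Work.MP_54723a_co.CFL.BB
import Pool.Agent.Work.MP_54723a_co.CFL.ThinZoneB

/-!
# Labelled sets are thin, every length `l ≥ 3` (port of `thin_of_lab`, `thin_of_lab_up`; helper45)
-/

set_option autoImplicit false

namespace FlashRainbow.CFL

open Classical FlashRainbow.CF

variable {c : ℕ → ℕ → ℕ} {V T W U X Θ : Finset ℕ} {l L t s q C d N M : ℕ} {lev : ℕ → ℕ → ℕ}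

theorem kappa_le (hlL : l ≤ 2 ^ L) (C : ℕ) :
    (C + 1) * 2 ^ (C + 1) * ((C + 1) ^ 2 * l ^ (2 * C)) * l ≤ 2 ^ ((4 + 2 * L) * C + (L + 1)) := by
  have h2 : C + 1 ≤ 2 ^ C := Nat.lt_two_pow_self
  calc (C + 1) * 2 ^ (C + 1) * ((C + 1) ^ 2 * l ^ (2 * C)) * l
      ≤ 2 ^ C * 2 ^ (C + 1) * ((2 ^ C) ^ 2 * (2 ^ L) ^ (2 * C)) * 2 ^ L := by
        gcongr
    _ = 2 ^ ((4 + 2 * L) * C + (L + 1)) := by
      rw [← pow_mul, ← pow_mul, ← pow_add, ← pow_add, ← pow_add, ← pow_add]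
      congr 1
      ring

theorem thin_of_lab (hl : 3 ≤ l) (hlL : l ≤ 2 ^ L) (hL : Lev c U l lev) (hR : Rk c U t)
    (g : ℕ → ℕ) (hΘ : Θ.card = t)
    (hC : ∀ u ∈ U, ∀ D, RP c U u D → Disjoint D Θ → g u ∉ D → D.card ≤ C)
    (hd : l ^ t ≤ 2 ^ d * U.card) :
    ∃ X ⊆ U, Col c X Θ ∧
      U.card ≤ 2 ^ ((20 + 10 * L) * C + 4 * d + (5 * L + 66)) * X.card := by
  obtain ⟨W, hWU, hW, hWc⟩ := lab_reduce hl hL g hC
  obtain ⟨κ, hκ⟩ : ∃ κ, κ = (4 + 2 * L) * C + (L + 1) := ⟨_, rfl⟩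
  have hWc' : U.card ≤ 2 ^ κ * W.card := by
    rw [hκ]
    exact hWc.trans (Nat.mul_le_mul_right _ (kappa_le hlL C))
  obtain ⟨X, hXW, hcol, hXc⟩ := thin_of_arc (d := d + κ) hl (hL.mono hWU)
    (fun y D hD => hR y D (hD.mono hWU)) g hW hΘ (by
      calc l ^ t ≤ 2 ^ d * U.card := hd
        _ ≤ 2 ^ d * (2 ^ κ * W.card) := Nat.mul_le_mul_left _ hWc'
        _ = 2 ^ (d + κ) * W.card := by rw [pow_add]; ring)
  refine ⟨X, hXW.trans hWU, hcol, ?_⟩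
  calc U.card ≤ 2 ^ κ * W.card := hWc'
    _ ≤ 2 ^ κ * (2 ^ (1 + 2 * (2 * (d + κ + 15))) * X.card) := Nat.mul_le_mul_left _ hXc
    _ = 2 ^ ((20 + 10 * L) * C + 4 * d + (5 * L + 66)) * X.card := by
      rw [← mul_assoc, ← pow_add]
      congr 2
      rw [hκ]
      ring

theorem thin_of_lab_up (hl : 3 ≤ l) (hlL : l ≤ 2 ^ L) (hL : Lev c U l lev) (hR : Rk c U t)
    (g : ℕ → ℕ) (hΘ : Θ.card = t)
    (hC : ∀ u ∈ U, ∀ D, RS c U u D → Disjoint D Θ → g u ∉ D → D.card ≤ C)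
    (hd : l ^ t ≤ 2 ^ d * U.card) :
    ∃ X ⊆ U, Col c X Θ ∧
      U.card ≤ 2 ^ ((20 + 10 * L) * C + 4 * d + (5 * L + 66)) * X.card := by
  obtain ⟨N, hN⟩ : ∃ N, ∀ v ∈ U, v ≤ N := ⟨U.sup id, fun v hv => Finset.le_sup (f := id) hv⟩
  obtain ⟨X, hX, hcol, hXc⟩ := thin_of_lab (c := revc c N) (U := rvs U N) (Θ := Θ) (C := C)
    (d := d) (t := t) hl hlL (lev_rev hN hL) (by
      intro y D hD
      exact (hD.toRS_rev hN).card_le hR) (fun y => g (N - y)) hΘ (by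
      intro u hu D hD hdis hg
      exact hC _ ((mem_rvs hN).mp hu).2 D (hD.toRS_rev hN) hdis hg) (by rwa [card_rvs hN])
  have hXN : ∀ v ∈ X, v ≤ N := fun v hv => ((mem_rvs hN).mp (hX hv)).1
  refine ⟨rvs X N, ?_, ?_, ?_⟩
  · intro y hy
    have h1 := (mem_rvs hXN).mp hy
    have h2 := ((mem_rvs hN).mp (hX h1.2)).2
    rwa [show N - (N - y) = y by omega] at h2
  · intro u hu v hv huv
    have h1 := (mem_rvs hXN).mp hu
    have h2 := (mem_rvs hXN).mp hv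
    have h3 := hcol _ h2.2 _ h1.2 (by omega)
    rwa [revc_eq, show N - (N - u) = u by omega, show N - (N - v) = v by omega] at h3
  · rw [card_rvs hN] at hXc
    rw [card_rvs hXN]
    exact hXc

theorem thinLab (hl : 3 ≤ l) :
    ThinLab l (20 + 10 * Nat.clog 2 l) 4 (5 * Nat.clog 2 l + 66) :=
  fun _ _ _ _ _ _ _ g hL hR hΘ hC hd => thin_of_lab hl (le_two_pow_clog l) hL hR g hΘ hC hd

theorem thinLabUp (hl : 3 ≤ l) :
    ThinLabUp l (20 + 10 * Nat.clog 2 l) 4 (5 * Nat.clog 2 l + 66) :=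
  fun _ _ _ _ _ _ _ g hL hR hΘ hC hd => thin_of_lab_up hl (le_two_pow_clog l) hL hR g hΘ hC hd

end FlashRainbow.CFL
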