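import Pool.Agent.Work.MP_54723a_co.CFL.ThinZoneB
import Pool.Agent.Work.MP_54723a_co.CFL.BB
import Pool.Agent.Work.MP_54723a_co.CFL.ThinLab

/-!
# Thin zones and rich vertices in a plain set for every `l`, final form  (helper44)

`thin_zone_of`, `rich_plain_of` with the constants of `BB.lean`.
-/

set_option autoImplicit false

namespace FlashRainbow.CFL

open Classical FlashRainbow.CF

variable {c : ℕ → ℕ → ℕ} {U : Finset ℕ} {l t s q M : ℕ} {lev : ℕ → ℕ → ℕ}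

theorem cs_c0_eq (l s : ℕ) :
    ((20 + 10 * Nat.clog 2 l) + 4 * Nat.clog 2 l + 3 * Nat.clog 2 l + 2) * s +
      (3 + 3 * 4 + (5 * Nat.clog 2 l + 66)) = cs l * s + c0 l := by
  unfold cs c0
  ring

/-- **THIN ZONE**, every `l` -/
theorem thin_zone (hl : 3 ≤ l) (hL : Lev c U l lev) (hR : Rk c U t)
    (hM : ∀ W ⊆ U, ∀ r ≤ t, Rk c W r → W.card * l ^ (t - r) ≤ M) (h3 : l ^ t ≤ M)
    (hMU : M ≤ 2 ^ q * U.card) (hst : s + 1 ≤ t) (hs : 16 * (t + 1) * 2 ^ q ≤ l ^ s)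
    (hU8 : 8 ≤ U.card) :
    ∃ Θ X, X ⊆ U ∧ Θ.card = t ∧ Col c X Θ ∧ U.card ≤ 2 ^ (cs l * s + c0 l) * X.card := by
  rw [← cs_c0_eq]
  exact thin_zone_of hl (le_two_pow_clog l) (thinLab hl)
    (thinLabUp hl) hL hR hM h3 hMU hst hs hU8

/-- **RICH in a plain set**, exponential precision, every `l` -/
theorem rich_plain (hl : 3 ≤ l) (hL : Lev c U l lev) (hR : Rk c U t)
    (hM : ∀ W ⊆ U, ∀ r ≤ t, Rk c W r → W.card * l ^ (t - r) ≤ M) (h3 : l ^ t ≤ M)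
    (hMU : M ≤ 2 ^ q * U.card) (hst : s + 1 ≤ t) (hs : 16 * (t + 1) * 2 ^ q ≤ l ^ s)
    (hU8 : 8 ≤ U.card) {m : ℕ} (hm : 3 + 2 * (q + (cs l * s + c0 l)) + 7 * m < t) :
    ∃ E : Finset ℕ, E.card = m ∧ ∃ B ⊆ U, U.card ≤ 8 ^ m * 2 ^ (cs l * s + c0 l) * B.card ∧
      Rich c U B E := by
  rw [← cs_c0_eq] at hm ⊢
  exact rich_plain_of hl (le_two_pow_clog l) (thinLab hl)
    (thinLabUp hl) hL hR hM h3 hMU hst hs
    hU8 hm

end FlashRainbow.CFL
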