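import Pool.Agent.Work.MP_54723a_co.CFL.HubNext
import Pool.Agent.Work.MP_54723a_co.CFL.ThinZone
import Pool.Agent.Work.MP_54723a_co.CFL.Stage

/-!
# Constant factor for every `l`: from a junction to the next hub, final form  (helper94)

`hub_next_of` with the constants `cs l`, `c0 l` of `rich_plain`.
-/

set_option autoImplicit false

namespace FlashRainbow.CFL

open Classical FlashRainbow.CF

variable {c : ℕ → ℕ → ℕ} {V X K F Φ : Finset ℕ} {l R t q s x M m : ℕ} {lev : ℕ → ℕ → ℕ}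

theorem richPlain (hl : 3 ≤ l) : RichPlain l (cs l) (c0 l) := by
  intro c lev U t M q s m hL hR hM h3 hMU hst hs hU8 hm
  obtain ⟨E, hE, B, hB, hBc, hRich⟩ := rich_plain hl hL hR hM h3 hMU hst hs hU8 hm
  refine ⟨E, hE, B, hB, ?_, hRich⟩
  rw [Finset.nonempty_iff_ne_empty]
  rintro rfl
  rw [Finset.card_empty, Nat.mul_zero] at hBc
  omega

/-- **NEXT HUB**, every `l` -/
theorem hub_next (hl : 3 ≤ l) (hL : Lev c V l lev) (hR : Rk c V R)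
    (hM : ∀ W ⊆ V, ∀ r ≤ R, Rk c W r → W.card * l ^ (R - r) ≤ M) (h3 : l ^ R ≤ M)
    (hH : Hub c V x K F) (ht : R = K.card + t) (hΦ : Φ.card ≤ 3) (hΦF : Disjoint Φ F)
    (hJ : Jun c V x Φ X) (hX : Fre c X (K ∪ Φ)) (h8 : 8 ≤ X.card)
    (hsize : M ≤ 2 ^ q * (X.card * l ^ (R - t)))
    (hst : s + 4 ≤ t) (hs : 16 * (t + 1) * 2 ^ q ≤ l ^ s)
    (hm3 : 3 ≤ m) (hm : 6 + 2 * (q + (cs l * s + c0 l)) + 7 * m < t) :
    ∃ x' ∈ X, ∃ K', Hub c V x' K' (F ∪ Φ) ∧ R = K'.card + (t - m) :=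
  hub_next_of (richPlain hl) hl hL hR hM h3 hH ht hΦ hΦF hJ hX h8 hsize hst hs hm3 hm

/-- the hypothesis `hnext` of `stageP` -/
theorem hubNextP (hl : 3 ≤ l) (hL : Lev c V l lev) (hR : Rk c V R)
    (hM : ∀ W ⊆ V, ∀ r ≤ R, Rk c W r → W.card * l ^ (R - r) ≤ M) (h3 : l ^ R ≤ M) (t : ℕ) :
    HubNextP l (cs l) (c0 l) c V M R t := by
  intro x q s m K F Φ X hH ht hΦ hΦF hJ hX h8 hsize hst hs hm3 hm
  exact hub_next hl hL hR hM h3 hH ht hΦ hΦF hJ hX h8 hsize hst hs hm3 hm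

end FlashRainbow.CFL
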