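import Pool.Agent.Work.MP_54723a_co.CF.Num

/-!
# Constant factor, every `l`: the numbers  (helper91)

General form of `Sched.lean`, `Num.lean`, `NumRich.lean`: all constants which depend on `l` are
free parameters. `T m = T (m+1) - T (m+1) / D`, `D ≥ 20`.
-/

set_option autoImplicit false

namespace FlashRainbow.CFL

open FlashRainbow.CF.Sched

/-- one step of the growth -/
theorem step_growth {D t : ℕ} (hD : 20 ≤ D) (ht : D * D ≤ t - t / D) :
    (D + 1) * (t - t / D) ≤ D * t := by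
  obtain ⟨a, ha⟩ : ∃ a, a = t / D := ⟨_, rfl⟩
  obtain ⟨r, hr⟩ : ∃ r, r = t % D := ⟨_, rfl⟩
  have h1 : D * a + r = t := by
    rw [ha, hr]
    exact Nat.div_add_mod t D
  have h2 : r < D := by
    rw [hr]
    exact Nat.mod_lt _ (by omega)
  rw [← ha] at ht ⊢
  have h3 : t - a = (D - 1) * a + r := by
    obtain ⟨D', rfl⟩ : ∃ D', D = D' + 1 := ⟨D - 1, by omega⟩
    rw [Nat.add_sub_cancel]
    have : (D' + 1) * a = D' * a + a := by ring
    omega
  obtain ⟨D', rfl⟩ : ∃ D', D = D' + 1 := ⟨D - 1, by omega⟩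
  rw [Nat.add_sub_cancel] at h3
  rw [h3] at ht ⊢
  have h4 : D' + 1 ≤ a := by
    by_contra hcon
    have h5 : a ≤ D' := by omega
    have h6 : D' * a ≤ D' * D' := Nat.mul_le_mul_left _ h5
    nlinarith
  rw [← h1]
  nlinarith

/-- **SCHEDULE.** -/
theorem exists_sched (D t₀ : ℕ) (hD : 20 ≤ D) (h₀ : D * D ≤ t₀) : ∀ R, t₀ ≤ R →
    ∃ (n : ℕ) (T : ℕ → ℕ), T n = R ∧ T 0 ≤ 2 * t₀ ∧ (∀ k ≤ n, t₀ ≤ T k) ∧
    (∀ k < n, T k = T (k + 1) - T (k + 1) / D) ∧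
    (∀ k ≤ n, (D + 1) ^ k * t₀ ≤ D ^ k * T k) := by
  have hD2 : 400 ≤ t₀ := le_trans (by nlinarith) h₀
  intro R
  induction R using Nat.strong_induction_on with
  | _ R ih =>
    intro hR
    by_cases hsmall : R ≤ 2 * t₀
    · refine ⟨0, fun _ => R, rfl, hsmall, fun _ _ => hR, fun k hk => by omega, fun k hk => ?_⟩
      have : k = 0 := by omega
      subst this
      simpa using hR
    · have hdiv : R / D ≤ R / 20 := Nat.div_le_div_left hD (by norm_num)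
      have hdiv1 : 1 ≤ R / D := by
        rw [Nat.one_le_div_iff (by omega)]
        have : D ≤ D * D := Nat.le_mul_of_pos_left _ (by omega)
        omega
      obtain ⟨n, T, h1, h2, h3, h4, h5⟩ := ih (R - R / D) (by omega) (by omega)
      refine ⟨n + 1, fun k => if k = n + 1 then R else T k, by simp, ?_, ?_, ?_, ?_⟩
      · simpa using h2
      · intro k hk
        by_cases hk' : k = n + 1
        · simpa [hk'] using hR
        · simpa [hk'] using h3 k (by omega)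
      · intro k hk
        by_cases hk' : k = n
        · subst hk'
          simpa using h1
        · have hk2 : k ≠ n + 1 := by omega
          have hk3 : k + 1 ≠ n + 1 := by omega
          simpa [hk2, hk3, hk'] using h4 k (by omega)
      · intro k hk
        by_cases hk' : k = n + 1
        · subst hk'
          have h6 := h5 n le_rfl
          rw [h1] at h6
          have h7 : (D + 1) * (R - R / D) ≤ D * R := by
            refine step_growth hD ?_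
            have h8 := h3 n le_rfl
            rw [h1] at h8
            omega
          calc (D + 1) ^ (n + 1) * t₀ = (D + 1) * ((D + 1) ^ n * t₀) := by ring
            _ ≤ (D + 1) * (D ^ n * (R - R / D)) := Nat.mul_le_mul_left _ h6
            _ = D ^ n * ((D + 1) * (R - R / D)) := by ring
            _ ≤ D ^ n * (D * R) := Nat.mul_le_mul_left _ h7
            _ = D ^ (n + 1) * (if n + 1 = n + 1 then R else T (n + 1)) := by simp; ring
        · simpa [hk'] using h5 k (by omega)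

/-- the exponents of the zones grow slower than the ranks -/
theorem lam_growth (lam : ℕ → ℕ) (D B p : ℕ) (hD : 20 ≤ D)
    (hlam : ∀ i, (lam (i + 1) : ℝ) ≤ (2 * (D : ℝ) + 1) / (2 * D) * lam i + B * ((i : ℝ) + 1) ^ p) :
    ∃ C : ℕ, ∀ k, D ^ k * lam k ≤ C * (D + 1) ^ k := by
  have hDr : (20 : ℝ) ≤ D := by exact_mod_cast hD
  have hD0 : (0 : ℝ) < D := by linarith
  obtain ⟨C, hC0, hC⟩ := growth p (κ := (2 * (D : ℝ) + 1) / (2 * D)) (s := 1)
    (g := ((D : ℝ) + 1) / D) (B := B)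
    (by positivity) (by norm_num) (by rw [div_lt_div_iff₀ (by positivity) hD0]; nlinarith)
    (by rw [lt_div_iff₀ hD0]; linarith) (Nat.cast_nonneg B) (lam 0 : ℝ)
  refine ⟨⌈C⌉₊, fun k => ?_⟩
  have h1 := hC (fun i => (lam i : ℝ)) k le_rfl (fun i _ => by simpa using hlam i) k le_rfl
  have h2 : C ≤ (⌈C⌉₊ : ℝ) := Nat.le_ceil C
  have h3 : (lam k : ℝ) ≤ ⌈C⌉₊ * (((D : ℝ) + 1) / D) ^ k :=
    h1.trans (mul_le_mul_of_nonneg_right h2 (by positivity))
  have h4 : (D : ℝ) ^ k * lam k ≤ ⌈C⌉₊ * ((D : ℝ) + 1) ^ k := by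
    calc (D : ℝ) ^ k * lam k ≤ (D : ℝ) ^ k * (⌈C⌉₊ * (((D : ℝ) + 1) / D) ^ k) :=
          mul_le_mul_of_nonneg_left h3 (by positivity)
      _ = ⌈C⌉₊ * ((D : ℝ) + 1) ^ k := by
          rw [div_pow]
          field_simp
  exact_mod_cast h4

/-- **NUMBERS**, general form -/
theorem numbers_real (lam : ℕ → ℕ) (D B p : ℕ) (hD : 20 ≤ D)
    (hlam : ∀ i, (lam (i + 1) : ℝ) ≤ (2 * (D : ℝ) + 1) / (2 * D) * lam i + B * ((i : ℝ) + 1) ^ p)
    (E c t₁ : ℕ) :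
    ∃ C : ℕ, t₁ ≤ C ∧ ∀ R, C ≤ R → ∃ n, 2 ≤ n ∧ ∃ t : ℕ → ℕ, t n = R ∧ t 2 ≤ C ∧
      (∀ i, 2 ≤ i → i ≤ n → t₁ ≤ t i ∧ 400 ≤ t i ∧ ∀ j ≤ i + 4, E * (lam j + c) ≤ t i) ∧
      (∀ i, 2 ≤ i → i < n → t i = t (i + 1) - t (i + 1) / D ∧ t i + 3 ≤ t (i + 1) ∧
        D * (t (i + 1) - t i) ≤ t (i + 1)) := by
  obtain ⟨C₁, hC₁⟩ := lam_growth lam D B p hD hlam
  set t₀ : ℕ := max (max (D * D) t₁) (E * (2 * C₁ + c)) with ht₀
  have hDD : D * D ≤ t₀ := (le_max_left _ _).trans (le_max_left _ _)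
  have hD2 : 400 ≤ D * D := by nlinarith
  have h400 : 400 ≤ t₀ := hD2.trans hDD
  have ht1 : t₁ ≤ t₀ := (le_max_right _ _).trans (le_max_left _ _)
  have hE : E * (2 * C₁ + c) ≤ t₀ := le_max_right _ _
  refine ⟨2 * t₀, by omega, fun R hR => ?_⟩
  obtain ⟨n, T, h1, h2, h3, h4, h5⟩ := exists_sched D t₀ hD hDD R (by omega)
  have hpow : ∀ m ≤ 6, (D + 1) ^ m ≤ 2 * D ^ m := by
    intro m hm
    have e1 : 20 ^ m * (D + 1) ^ m ≤ 21 ^ m * D ^ m := by
      rw [← Nat.mul_pow, ← Nat.mul_pow]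
      exact Nat.pow_le_pow_left (by omega) m
    have e2 : 21 ^ m ≤ 2 * 20 ^ m := by
      interval_cases m <;> norm_num
    have e3 : 20 ^ m * (D + 1) ^ m ≤ 20 ^ m * (2 * D ^ m) := by
      calc 20 ^ m * (D + 1) ^ m ≤ 21 ^ m * D ^ m := e1
        _ ≤ (2 * 20 ^ m) * D ^ m := Nat.mul_le_mul_right _ e2
        _ = 20 ^ m * (2 * D ^ m) := by ring
    exact Nat.le_of_mul_le_mul_left e3 (by positivity)
  refine ⟨n + 2, by omega, fun i => T (i - 2), by simpa using h1, by simpa using h2, ?_, ?_⟩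
  · intro i hi2 hin
    obtain ⟨k, rfl⟩ : ∃ k, i = k + 2 := ⟨i - 2, by omega⟩
    have hk : k ≤ n := by omega
    simp only [Nat.add_sub_cancel]
    refine ⟨ht1.trans (h3 k hk), h400.trans (h3 k hk), fun j hj => ?_⟩
    have h6 : D ^ k * lam j ≤ 2 * C₁ * (D + 1) ^ k := by
      rcases le_total k j with hkj | hjk
      · obtain ⟨m, rfl⟩ : ∃ m, j = k + m := ⟨j - k, by omega⟩
        have hm : m ≤ 6 := by omega
        have h7 := hC₁ (k + m)
        have h10 : D ^ m * (D ^ k * lam (k + m)) ≤ D ^ m * (2 * C₁ * (D + 1) ^ k) := by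
          calc D ^ m * (D ^ k * lam (k + m)) = D ^ (k + m) * lam (k + m) := by
                rw [pow_add]; ring
            _ ≤ C₁ * (D + 1) ^ (k + m) := h7
            _ = C₁ * ((D + 1) ^ k * (D + 1) ^ m) := by rw [pow_add]
            _ ≤ C₁ * ((D + 1) ^ k * (2 * D ^ m)) :=
                Nat.mul_le_mul_left _ (Nat.mul_le_mul_left _ (hpow m hm))
            _ = D ^ m * (2 * C₁ * (D + 1) ^ k) := by ring
        exact Nat.le_of_mul_le_mul_left h10 (by positivity)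
      · obtain ⟨m, rfl⟩ : ∃ m, k = j + m := ⟨k - j, by omega⟩
        have h7 := hC₁ j
        calc D ^ (j + m) * lam j = D ^ m * (D ^ j * lam j) := by rw [pow_add]; ring
          _ ≤ D ^ m * (C₁ * (D + 1) ^ j) := Nat.mul_le_mul_left _ h7
          _ ≤ (D + 1) ^ m * (2 * C₁ * (D + 1) ^ j) := by
              refine Nat.mul_le_mul (Nat.pow_le_pow_left (by omega) m) ?_
              refine Nat.mul_le_mul_right _ (by omega)
          _ = 2 * C₁ * (D + 1) ^ (j + m) := by rw [pow_add]; ring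
    have h7 : D ^ k * (E * (lam j + c)) ≤ D ^ k * T k := by
      calc D ^ k * (E * (lam j + c)) = E * (D ^ k * lam j + D ^ k * c) := by ring
        _ ≤ E * (2 * C₁ * (D + 1) ^ k + (D + 1) ^ k * c) := by
            refine Nat.mul_le_mul_left _ (Nat.add_le_add h6 ?_)
            exact Nat.mul_le_mul_right _ (Nat.pow_le_pow_left (by omega) k)
        _ = (D + 1) ^ k * (E * (2 * C₁ + c)) := by ring
        _ ≤ (D + 1) ^ k * t₀ := Nat.mul_le_mul_left _ hE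
        _ ≤ D ^ k * T k := h5 k hk
    exact Nat.le_of_mul_le_mul_left h7 (by positivity)
  · intro i hi2 hin
    obtain ⟨k, rfl⟩ : ∃ k, i = k + 2 := ⟨i - 2, by omega⟩
    have hk : k < n := by omega
    have hk2 : k + 2 + 1 - 2 = k + 1 := by omega
    simp only [Nat.add_sub_cancel, hk2]
    have h6 := h4 k hk
    have h7 := h3 k hk.le
    have h8 := h3 (k + 1) (by omega)
    have h9 : D * (T (k + 1) / D) ≤ T (k + 1) := Nat.mul_div_le _ _
    have h10 : T (k + 1) / D ≤ T (k + 1) := Nat.div_le_self _ _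
    have h12 : 3 ≤ T (k + 1) / D := by
      rw [Nat.le_div_iff_mul_le (by omega)]
      calc 3 * D ≤ D * D := Nat.mul_le_mul_right _ (by omega)
        _ ≤ t₀ := hDD
        _ ≤ T (k + 1) := h8
    refine ⟨h6, ?_, ?_⟩
    · generalize T (k + 1) / D = y at *
      omega
    · have h11 : T (k + 1) - T k = T (k + 1) / D := by
        generalize T (k + 1) / D = y at *
        omega
      rw [h11]
      exact h9

/-- **NUMBERS** for the recursion of the zones with `q k = Q₀ (k + 2) ^ 2`, constants `a`, `b`,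
`w`, `e`. -/
theorem numbers_zones (A : ℕ → ℕ) (D a b w d e Q₀ : ℕ) (hD : 20 ≤ D) (ha : 1 ≤ a)
    (hd : 4 * a * D ≤ d)
    (hA : ∀ k, A (k + 1) ≤ A k + ((a * A k + b) / (d / 2) + 1) + e +
      w * ((k + 1) ^ 2 * (Q₀ * (k + 3) ^ 2))) (E c t₁ : ℕ) :
    ∃ C : ℕ, t₁ ≤ C ∧ ∀ R, C ≤ R → ∃ n, 2 ≤ n ∧ ∃ t : ℕ → ℕ, t n = R ∧ t 2 ≤ C ∧
      (∀ i, 2 ≤ i → i ≤ n → t₁ ≤ t i ∧ 400 ≤ t i ∧ ∀ j ≤ i + 4, E * (A j + c) ≤ t i) ∧
      (∀ i, 2 ≤ i → i < n → t i = t (i + 1) - t (i + 1) / D ∧ t i + 3 ≤ t (i + 1) ∧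
        D * (t (i + 1) - t i) ≤ t (i + 1)) := by
  refine numbers_real A D (9 * w * Q₀ + e + b + 1) 4 hD (fun k => ?_) E c t₁
  have haD : 0 < 2 * a * D := by positivity
  have hd2 : 2 * a * D ≤ d / 2 := by
    rw [Nat.le_div_iff_mul_le (by norm_num)]
    linarith
  -- `(a A + b) / (d / 2) ≤ A / (2 D) + b`
  have h1 : (a * A k + b) / (d / 2) ≤ (a * A k + b) / (2 * a * D) :=
    Nat.div_le_div_left hd2 haD
  have h2 : (2 * a * D) * ((a * A k + b) / (2 * a * D)) ≤ a * A k + b := Nat.mul_div_le _ _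
  have h3 : (k + 3) ^ 2 ≤ 9 * (k + 1) ^ 2 := by
    calc (k + 3) ^ 2 ≤ (3 * (k + 1)) ^ 2 := Nat.pow_le_pow_left (by omega) 2
      _ = 9 * (k + 1) ^ 2 := by ring
  have h4 : w * ((k + 1) ^ 2 * (Q₀ * (k + 3) ^ 2)) ≤ 9 * w * Q₀ * (k + 1) ^ 4 := by
    calc w * ((k + 1) ^ 2 * (Q₀ * (k + 3) ^ 2)) ≤ w * ((k + 1) ^ 2 * (Q₀ * (9 * (k + 1) ^ 2))) := by
          refine Nat.mul_le_mul_left _ (Nat.mul_le_mul_left _ (Nat.mul_le_mul_left _ h3))
      _ = 9 * w * Q₀ * (k + 1) ^ 4 := by ring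
  have h5 : 1 ≤ (k + 1) ^ 4 := Nat.one_le_pow _ _ (by omega)
  obtain ⟨m, hm⟩ : ∃ m, m = (a * A k + b) / (2 * a * D) := ⟨_, rfl⟩
  rw [← hm] at h1 h2
  have h6 : 2 * D * m ≤ A k + b := by
    have h7 : a * (2 * D * m) ≤ a * (A k + b) := by
      have e1 : a * (2 * D * m) = 2 * a * D * m := by ring
      have e2 : b ≤ a * b := Nat.le_mul_of_pos_left _ (by omega)
      have e3 : a * (A k + b) = a * A k + a * b := by ring
      omega
    exact Nat.le_of_mul_le_mul_left h7 (by omega)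
  have h7 := hA k
  have h8 : e + b + 1 ≤ (e + b + 1) * (k + 1) ^ 4 := Nat.le_mul_of_pos_right _ (by positivity)
  have h9 : (9 * w * Q₀ + e + b + 1) * (k + 1) ^ 4 =
      9 * w * Q₀ * (k + 1) ^ 4 + (e + b + 1) * (k + 1) ^ 4 := by ring
  have h10 : A (k + 1) ≤ A k + m + (9 * w * Q₀ + e + b + 1) * (k + 1) ^ 4 - b := by
    rw [h9]
    omega
  have h11 : A (k + 1) + b ≤ A k + m + (9 * w * Q₀ + e + b + 1) * (k + 1) ^ 4 := by
    rw [h9] at h10 ⊢
    omega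
  have hDr : (20 : ℝ) ≤ D := by exact_mod_cast hD
  have hD0 : (0 : ℝ) < D := by linarith
  have h6r : 2 * (D : ℝ) * m ≤ A k + b := by exact_mod_cast h6
  have h11r : (A (k + 1) : ℝ) + b ≤ A k + m + (9 * w * Q₀ + e + b + 1 : ℕ) * ((k : ℝ) + 1) ^ 4 := by
    exact_mod_cast h11
  have h12 : (m : ℝ) ≤ (A k + b) / (2 * D) := by
    rw [le_div_iff₀ (by positivity)]
    linarith
  have h13 : (b : ℝ) / (2 * D) ≤ b := by
    rw [div_le_iff₀ (by positivity)]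
    have hb : (0 : ℝ) ≤ b := Nat.cast_nonneg b
    nlinarith
  have h14 : (2 * (D : ℝ) + 1) / (2 * D) * A k = A k + A k / (2 * D) := by
    field_simp
  rw [h14]
  rw [add_div] at h12
  linarith

/-- the same with the indices of helper63's loop: `T (J - 1) = R`, END at `T 1 ≤ C` -/
theorem numbers_loop (A : ℕ → ℕ) (D a b w d e Q₀ : ℕ) (hD : 20 ≤ D) (ha : 1 ≤ a)
    (hd : 4 * a * D ≤ d)
    (hA : ∀ k, A (k + 1) ≤ A k + ((a * A k + b) / (d / 2) + 1) + e +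
      w * ((k + 1) ^ 2 * (Q₀ * (k + 3) ^ 2))) (E c t₁ : ℕ) :
    ∃ C : ℕ, t₁ ≤ C ∧ ∀ R, C ≤ R → ∃ J, 2 ≤ J ∧ ∃ T : ℕ → ℕ, T (J - 1) = R ∧ T 1 ≤ C ∧
      (∀ m, 1 ≤ m → m < J → t₁ ≤ T m ∧ 400 ≤ T m ∧ ∀ j ≤ m + 4, E * (A j + c) ≤ T m) ∧
      (∀ m, 1 ≤ m → m + 1 < J → T m = T (m + 1) - T (m + 1) / D ∧ T m + 3 ≤ T (m + 1) ∧
        D * (T (m + 1) - T m) ≤ T (m + 1)) := by
  obtain ⟨C, hC, h⟩ := numbers_zones A D a b w d e Q₀ hD ha hd hA E c t₁
  refine ⟨C, hC, fun R hR => ?_⟩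
  obtain ⟨n, hn, t, h1, h2, h3, h4⟩ := h R hR
  refine ⟨n, hn, fun m => t (m + 1), ?_, h2, ?_, ?_⟩
  · have : n - 1 + 1 = n := by omega
    simpa [this] using h1
  · intro m hm hmn
    obtain ⟨a, b, c'⟩ := h3 (m + 1) (by omega) (by omega)
    exact ⟨a, b, fun j hj => c' j (by omega)⟩
  · intro m hm hmn
    exact h4 (m + 1) (by omega) (by omega)

/-- logarithms are small -/
theorem log_small (N : ℕ) : ∃ t₁ : ℕ, ∀ t, t₁ ≤ t → N * (Nat.log 2 (t + 1) + 1) ≤ t := by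
  obtain ⟨M, hM0, hM⟩ := exists_poly_bound 1 (r := (1 : ℝ) / 2) (by norm_num) (by norm_num)
  -- `k + 1 ≤ M 2 ^ k`; with `k = log / 2`
  obtain ⟨P, hP⟩ : ∃ P : ℕ, M ≤ P := ⟨⌈M⌉₊, Nat.le_ceil M⟩
  have key : ∀ k : ℕ, k + 1 ≤ P * 2 ^ k := by
    intro k
    have h1 := hM k
    rw [pow_one, one_div, inv_pow] at h1
    have h2 : (0 : ℝ) < 2 ^ k := by positivity
    have h3 : ((k : ℝ) + 1) ≤ M * 2 ^ k := by
      rwa [← div_eq_mul_inv, div_le_iff₀ h2] at h1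
    have h4 : ((k : ℝ) + 1) ≤ P * 2 ^ k := h3.trans (mul_le_mul_of_nonneg_right hP h2.le)
    exact_mod_cast h4
  refine ⟨(4 * N * P) * (4 * N * P) + 1, fun t ht => ?_⟩
  obtain ⟨L, hL⟩ : ∃ L, L = Nat.log 2 (t + 1) := ⟨_, rfl⟩
  rw [← hL]
  have h1 : 2 ^ L ≤ t + 1 := by
    rw [hL]
    exact Nat.pow_log_le_self 2 (by omega)
  obtain ⟨k, hk⟩ : ∃ k, k = L / 2 := ⟨_, rfl⟩
  have h2 : L + 1 ≤ 2 * (k + 1) := by omega
  have h3 : (2 ^ k) * (2 ^ k) ≤ t + 1 := by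
    rw [← pow_add]
    exact le_trans (Nat.pow_le_pow_right (by norm_num) (by omega)) h1
  have h4 := key k
  obtain ⟨y, hy⟩ : ∃ y, y = 2 ^ k := ⟨_, rfl⟩
  rw [← hy] at h3 h4
  have h5 : N * (L + 1) ≤ 2 * N * P * y := by
    calc N * (L + 1) ≤ N * (2 * (P * y)) := by
          refine Nat.mul_le_mul_left _ (h2.trans (Nat.mul_le_mul_left _ h4))
      _ = 2 * N * P * y := by ring
  refine h5.trans ?_
  -- `2 N P y ≤ t` because `y² ≤ t + 1` and `t ≥ (4 N P)²`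
  obtain ⟨z, hz⟩ : ∃ z, z = N * P := ⟨_, rfl⟩
  have e1 : 2 * N * P * y = 2 * z * y := by rw [hz]; ring
  have e2 : (4 * N * P) * (4 * N * P) = 16 * (z * z) := by rw [hz]; ring
  rw [e1]
  rw [e2] at ht
  rcases le_total y (2 * z) with h6 | h6
  · calc 2 * z * y ≤ 2 * z * (2 * z) := Nat.mul_le_mul_left _ h6
      _ = 4 * (z * z) := by ring
      _ ≤ t := by omega
  · have h7 : 2 * z * y ≤ y * y := Nat.mul_le_mul_right _ h6
    rcases Nat.lt_or_ge (2 * z * y) (y * y) with h8 | h8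
    · omega
    · have h9 : y * y ≤ 2 * z * y := h8
      rcases Nat.eq_zero_or_pos y with h10 | h10
      · rw [h10]; simp
      · have h11 : y ≤ 2 * z := Nat.le_of_mul_le_mul_right h9 h10
        calc 2 * z * y ≤ 2 * z * (2 * z) := Nat.mul_le_mul_left _ h11
          _ = 4 * (z * z) := by ring
          _ ≤ t := by omega

/-- **The parameter `s` of `rich_plain` / `hub_next`** for constants `cs`, `c₀`, `a₄`. -/
theorem rich_num (l cs c₀ a₄ D : ℕ) (hl : 3 ≤ l) (hD : 4 * a₄ ≤ D) :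
    ∃ E t₁ : ℕ, ∀ t q m : ℕ, t₁ ≤ t → E * q ≤ t → D * m ≤ t →
      ∃ s : ℕ, s + 4 ≤ t ∧ 16 * (t + 1) * 2 ^ q ≤ l ^ s ∧
        6 + 2 * (q + (cs * s + c₀)) + a₄ * m < t := by
  obtain ⟨t₂, ht₂⟩ := log_small (16 * (2 * cs + 2))
  refine ⟨16 * (2 * cs + 2), max t₂ (16 * (2 * cs * 8 + 2 * c₀ + 40)), fun t q m ht hq hm => ?_⟩
  have h0 := ht₂ t ((le_max_left _ _).trans ht)
  have hc : 16 * (2 * cs * 8 + 2 * c₀ + 40) ≤ t := (le_max_right _ _).trans ht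
  obtain ⟨L, hL⟩ : ∃ L, L = Nat.log 2 (t + 1) := ⟨_, rfl⟩
  rw [← hL] at h0
  have h1 : t + 1 < 2 ^ (L + 1) := by
    rw [hL]
    exact Nat.lt_pow_succ_log_self (by norm_num) _
  -- `s = q + L + 5`
  obtain ⟨s, hs⟩ : ∃ s, s = q + L + 5 := ⟨_, rfl⟩
  have ham : 4 * (a₄ * m) ≤ t := by
    calc 4 * (a₄ * m) = 4 * a₄ * m := by ring
      _ ≤ D * m := Nat.mul_le_mul_right _ hD
      _ ≤ t := hm
  -- the three pieces
  obtain ⟨u, hu⟩ : ∃ u, u = cs * q := ⟨_, rfl⟩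
  obtain ⟨v, hv⟩ : ∃ v, v = cs * L := ⟨_, rfl⟩
  obtain ⟨g, hg⟩ : ∃ g, g = a₄ * m := ⟨_, rfl⟩
  have e1 : 16 * (2 * cs + 2) * q = 32 * u + 32 * q := by rw [hu]; ring
  have e2 : 16 * (2 * cs + 2) * (L + 1) = 32 * v + 32 * L + 32 * cs + 32 := by rw [hv]; ring
  have e3 : cs * s = u + v + 5 * cs := by rw [hs, hu, hv]; ring
  rw [e1] at hq
  rw [e2] at h0
  rw [← hg] at ham
  refine ⟨s, by omega, ?_, ?_⟩
  · calc 16 * (t + 1) * 2 ^ q ≤ 16 * 2 ^ (L + 1) * 2 ^ q :=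
          Nat.mul_le_mul_right _ (Nat.mul_le_mul_left _ h1.le)
      _ = 2 ^ (q + L + 5) := by
          rw [show (16 : ℕ) = 2 ^ 4 by norm_num, ← pow_add, ← pow_add]
          congr 1
          ring
      _ ≤ l ^ (q + L + 5) := Nat.pow_le_pow_left (by omega) _
      _ = l ^ s := by rw [hs]
  · rw [e3, ← hg]
    omega

end FlashRainbow.CFL
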