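import Pool.Agent.Work.MP_54723a_co.CFL.Stage
import Pool.Agent.Work.MP_54723a_co.CFL.Num

/-!
# Constant factor for every `l`: the numbers of one stage  (helper64)
-/

set_option autoImplicit false

namespace FlashRainbow.CFL

open FlashRainbow.CF

/-- the polynomial bound of the far part -/
theorem far_poly {t g τ : ℕ} (hg : 0 < g) (hτ : 0 < τ) :
    bG t (g * τ) + (8 * t ^ 2 + 1) * (g * τ) ≤ 10 * (t + 2) ^ 2 * (g * τ) := by
  obtain ⟨y, hy⟩ : ∃ y, y = g * τ := ⟨_, rfl⟩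
  have hy1 : 1 ≤ y := by
    rw [hy]
    exact Nat.mul_pos hg hτ
  rw [← hy]
  unfold bG
  have h1 : t + 2 ≤ (t + 2) * y := Nat.le_mul_of_pos_right _ hy1
  nlinarith [Nat.zero_le (t * y), Nat.zero_le (t ^ 2 * y)]

/-- **the numbers of `far_free`** with a threshold `τ ≥ 8` -/
theorem far_num {l w g t a M R k z L : ℕ} (hl : 3 ≤ l) (hg : 0 < g) (hgw : g ≤ 2 ^ w)
    (hL : L = Nat.log 2 (t + 1)) (ht : a + 2 * L + w + 10 ≤ t) (hk : R = k + t) (h3 : l ^ R ≤ M)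
    (hz : M ≤ 2 ^ a * z) :
    ∃ τ : ℕ, 8 ≤ τ ∧ M ≤ 2 ^ (a + 2 * L + w + 8) * (τ * l ^ k) ∧
      2 * (t + 1) ^ 2 * 256 ^ t * M +
        l ^ (6 * t) * (l ^ k * (bG t (g * τ) + (8 * t ^ 2 + 1) * (g * τ))) < z * l ^ (6 * t) := by
  have h1 : t + 1 < 2 ^ (L + 1) := by
    rw [hL]
    exact Nat.lt_pow_succ_log_self (by norm_num) _
  have h2 : t + 2 ≤ 2 ^ (L + 1) := h1
  have hlk : 0 < l ^ k := Nat.pow_pos (by omega)
  -- the square
  have hsq : (t + 2) ^ 2 ≤ 2 ^ (2 * L + 2) := by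
    calc (t + 2) ^ 2 ≤ (2 ^ (L + 1)) ^ 2 := Nat.pow_le_pow_left h2 2
      _ = 2 ^ (2 * L + 2) := by rw [← pow_mul]; congr 1; ring
  have hA : 32 * g * (t + 2) ^ 2 ≤ 2 ^ (2 * L + w + 7) := by
    calc 32 * g * (t + 2) ^ 2 ≤ 2 ^ 5 * 2 ^ w * 2 ^ (2 * L + 2) :=
          Nat.mul_le_mul (Nat.mul_le_mul (by norm_num) hgw) hsq
      _ = 2 ^ (2 * L + w + 7) := by rw [← pow_add, ← pow_add]; congr 1; ring
  have hB : 2 ^ a * (8 * (32 * g * (t + 2) ^ 2)) ≤ l ^ t := by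
    calc 2 ^ a * (8 * (32 * g * (t + 2) ^ 2)) ≤ 2 ^ a * (2 ^ 3 * 2 ^ (2 * L + w + 7)) :=
          Nat.mul_le_mul_left _ (Nat.mul_le_mul (by norm_num) hA)
      _ = 2 ^ (a + (3 + (2 * L + w + 7))) := by rw [← pow_add, ← pow_add]
      _ ≤ 2 ^ t := Nat.pow_le_pow_right (by norm_num) (by omega)
      _ ≤ l ^ t := Nat.pow_le_pow_left (by omega) t
  obtain ⟨D, hD⟩ : ∃ D, D = 32 * g * (t + 2) ^ 2 * l ^ k := ⟨_, rfl⟩
  have hDpos : 0 < D := by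
    rw [hD]
    positivity
  have hC8 : D * 8 ≤ z := by
    refine Nat.le_of_mul_le_mul_left ?_ (show 0 < 2 ^ a by positivity)
    calc 2 ^ a * (D * 8) = 2 ^ a * (8 * (32 * g * (t + 2) ^ 2)) * l ^ k := by rw [hD]; ring
      _ ≤ l ^ t * l ^ k := Nat.mul_le_mul_right _ hB
      _ = l ^ R := by rw [hk, pow_add]; ring
      _ ≤ M := h3
      _ ≤ 2 ^ a * z := hz
  have hC : D ≤ z := by omega
  obtain ⟨τ, hτ⟩ : ∃ τ, τ = z / D := ⟨_, rfl⟩
  have hτ8 : 8 ≤ τ := by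
    rw [hτ, Nat.le_div_iff_mul_le hDpos, Nat.mul_comm]
    exact hC8
  have hτ0 : 0 < τ := by omega
  have hτ1 : D * τ ≤ z := by
    rw [hτ]
    exact Nat.mul_div_le z D
  have hτ2 : z ≤ 2 * D * τ := by
    have h5 : z < D * (τ + 1) := by
      rw [hτ]
      exact Nat.lt_mul_div_succ z hDpos
    have h6 : D * 1 ≤ D * τ := Nat.mul_le_mul_left D hτ0
    nlinarith
  refine ⟨τ, hτ8, ?_, ?_⟩
  · calc M ≤ 2 ^ a * z := hz
      _ ≤ 2 ^ a * (2 * D * τ) := Nat.mul_le_mul_left _ hτ2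
      _ = 2 ^ (a + 1) * (32 * g * (t + 2) ^ 2) * (τ * l ^ k) := by rw [hD, pow_succ]; ring
      _ ≤ 2 ^ (a + 1) * 2 ^ (2 * L + w + 7) * (τ * l ^ k) :=
          Nat.mul_le_mul_right _ (Nat.mul_le_mul_left _ hA)
      _ = 2 ^ (a + 2 * L + w + 8) * (τ * l ^ k) := by
          rw [← pow_add]
          congr 2
          ring
  · have hG : 2 * (l ^ k * (bG t (g * τ) + (8 * t ^ 2 + 1) * (g * τ))) ≤ z := by
      calc 2 * (l ^ k * (bG t (g * τ) + (8 * t ^ 2 + 1) * (g * τ)))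
          ≤ 2 * (l ^ k * (10 * (t + 2) ^ 2 * (g * τ))) :=
            Nat.mul_le_mul_left _ (Nat.mul_le_mul_left _ (far_poly hg hτ0))
        _ = 20 * (g * (t + 2) ^ 2 * l ^ k * τ) := by ring
        _ ≤ 32 * (g * (t + 2) ^ 2 * l ^ k * τ) := Nat.mul_le_mul_right _ (by norm_num)
        _ = D * τ := by rw [hD]; ring
        _ ≤ z := hτ1
    have hz0 : 0 < z := lt_of_lt_of_le hDpos hC
    have hE : 4 * (t + 1) ^ 2 * 2 ^ a ≤ 2 ^ t := by
      calc 4 * (t + 1) ^ 2 * 2 ^ a ≤ 2 ^ 2 * 2 ^ (2 * L + 2) * 2 ^ a := by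
            refine Nat.mul_le_mul_right _ (Nat.mul_le_mul (by norm_num) ?_)
            exact le_trans (Nat.pow_le_pow_left (by omega) 2) hsq
        _ = 2 ^ (2 + (2 * L + 2) + a) := by rw [← pow_add, ← pow_add]
        _ ≤ 2 ^ t := Nat.pow_le_pow_right (by norm_num) (by omega)
    have h729 : 729 ^ t ≤ l ^ (6 * t) := by
      calc 729 ^ t = (3 ^ 6) ^ t := by norm_num
        _ ≤ (l ^ 6) ^ t := Nat.pow_le_pow_left (Nat.pow_le_pow_left hl 6) t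
        _ = l ^ (6 * t) := by rw [← pow_mul]
    have hH : 2 * (2 * (t + 1) ^ 2 * 256 ^ t * M) < z * l ^ (6 * t) := by
      calc 2 * (2 * (t + 1) ^ 2 * 256 ^ t * M) ≤ 2 * (2 * (t + 1) ^ 2 * 256 ^ t * (2 ^ a * z)) :=
            Nat.mul_le_mul_left _ (Nat.mul_le_mul_left _ hz)
        _ = 4 * (t + 1) ^ 2 * 2 ^ a * 256 ^ t * z := by ring
        _ ≤ 2 ^ t * 256 ^ t * z := Nat.mul_le_mul_right _ (Nat.mul_le_mul_right _ hE)
        _ = 512 ^ t * z := by rw [← mul_pow]; norm_num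
        _ < 729 ^ t * z := Nat.mul_lt_mul_of_pos_right
            (Nat.pow_lt_pow_left (by norm_num) (by omega)) hz0
        _ ≤ l ^ (6 * t) * z := Nat.mul_le_mul_right _ h729
        _ = z * l ^ (6 * t) := by ring
    have hI : 2 * (l ^ (6 * t) * (l ^ k * (bG t (g * τ) + (8 * t ^ 2 + 1) * (g * τ)))) ≤
        z * l ^ (6 * t) := by
      calc 2 * (l ^ (6 * t) * (l ^ k * (bG t (g * τ) + (8 * t ^ 2 + 1) * (g * τ))))
          = l ^ (6 * t) * (2 * (l ^ k * (bG t (g * τ) + (8 * t ^ 2 + 1) * (g * τ)))) := by ring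
        _ ≤ l ^ (6 * t) * z := Nat.mul_le_mul_left _ hG
        _ = z * l ^ (6 * t) := by ring
    omega

/-- **the numbers of one stage, for every `l` and all constants** -/
theorem stageNum_gen (l cs c0 D : ℕ) (hl : 3 ≤ l) (hD : 28 ≤ D) :
    ∃ E c₁ t₁ : ℕ, 1 ≤ E ∧ ∀ M R d t t' b : ℕ, t₁ ≤ t → t ≤ R → l ^ R ≤ M →
      E * (b + (16 * d + 1) + c₁) ≤ t → D * (t - t') ≤ t → StageNum l cs c0 M R d t t' b := by
  obtain ⟨E, t₂, hE⟩ := rich_num l cs c0 7 D hl (by omega)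
  obtain ⟨t₃, ht₃⟩ := log_small (4 * (E + 1))
  obtain ⟨w, hw⟩ : ∃ w, l ^ 3 + 2 * l ≤ 2 ^ w :=
    ⟨Nat.clog 2 (l ^ 3 + 2 * l), Nat.le_pow_clog (by norm_num) _⟩
  refine ⟨2 * (E + 1), w + 10, max t₂ t₃, by omega, ?_⟩
  intro M R d t t' b ht htR h3 hb hm z hz
  obtain ⟨L, hL⟩ : ∃ L, L = Nat.log 2 (t + 1) := ⟨_, rfl⟩
  have h0 := ht₃ t ((le_max_right _ _).trans ht)
  rw [← hL] at h0
  obtain ⟨a, ha⟩ : ∃ a, a = b + (16 * d + 1) := ⟨_, rfl⟩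
  rw [← ha] at hb hz
  -- `2 (E + 1) (a + w + 10) ≤ t` and `4 (E + 1) (L + 1) ≤ t`
  have hsum : (E + 1) * (a + 2 * L + w + 10) ≤ t := by
    have e1 : 2 * ((E + 1) * (a + 2 * L + w + 10)) =
        2 * (E + 1) * (a + (w + 10)) + 4 * (E + 1) * L := by ring
    have e2 : 4 * (E + 1) * (L + 1) = 4 * (E + 1) * L + 4 * (E + 1) := by ring
    omega
  have hsum1 : a + 2 * L + w + 10 ≤ t :=
    le_trans (Nat.le_mul_of_pos_left _ (by omega)) hsum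
  obtain ⟨τ, h8, h1, h2⟩ := far_num (g := l ^ 3 + 2 * l) (k := R - t) hl (by omega) hw hL hsum1
    (by omega) h3 hz
  have hq : E * (a + 2 * L + w + 8) ≤ t := by
    calc E * (a + 2 * L + w + 8) ≤ (E + 1) * (a + 2 * L + w + 10) :=
          Nat.mul_le_mul (by omega) (by omega)
      _ ≤ t := hsum
  obtain ⟨s, hs1, hs2, hs3⟩ := hE t (a + 2 * L + w + 8) (t - t') ((le_max_left _ _).trans ht) hq hm
  exact ⟨τ, a + 2 * L + w + 8, s, h8, h1, hs1, hs2, hs3, h2⟩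

/-- the form used by the assembly, with `1 ≤ E` -/
theorem stageNum_one (l cs c0 d : ℕ) (hl : 3 ≤ l) :
    ∃ E t₁ : ℕ, 1 ≤ E ∧ ∀ M R t b : ℕ, t₁ ≤ t → t ≤ R → E * (b + 1) ≤ t → l ^ R ≤ M →
      StageNum l cs c0 M R d t (t - t / 28) b := by
  obtain ⟨E, c₁, t₁, hE, h⟩ := stageNum_gen l cs c0 28 hl (le_refl _)
  refine ⟨E * (16 * d + 1 + c₁), t₁, Nat.mul_pos hE (by omega), ?_⟩
  intro M R t b ht htR hb h3
  refine h M R d t (t - t / 28) b ht htR h3 ?_ (by omega)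
  calc E * (b + (16 * d + 1) + c₁) ≤ E * ((16 * d + 1 + c₁) * (b + 1)) := by
        refine Nat.mul_le_mul_left _ ?_
        have h5 : b ≤ (16 * d + 1 + c₁) * b := Nat.le_mul_of_pos_left _ (by omega)
        have h6 : (16 * d + 1 + c₁) * (b + 1) = (16 * d + 1 + c₁) * b + (16 * d + 1 + c₁) := by ring
        omega
    _ = E * (16 * d + 1 + c₁) * (b + 1) := by ring
    _ ≤ t := hb

/-- **the numbers of one stage**, literal form -/
theorem stageNum (l cs c0 d : ℕ) (hl : 3 ≤ l) :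
    ∃ E t₁ : ℕ, ∀ M R t b : ℕ, t₁ ≤ t → t ≤ R → E * (b + 1) ≤ t → l ^ R ≤ M →
      StageNum l cs c0 M R d t (t - t / 28) b := by
  obtain ⟨E, t₁, -, h⟩ := stageNum_one l cs c0 d hl
  exact ⟨E, t₁, h⟩

end FlashRainbow.CFL
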