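import Pool.Agent.Work.MP_54723a_co.CFL.Main
import Pool.Agent.Work.MP_54723a_co.CFL.HZones
import Pool.Agent.Work.MP_54723a_co.CFL.StageNum
import Pool.Agent.Work.MP_54723a_co.CFL.Stage
import Pool.Agent.Work.MP_54723a_co.CFL.FinalL
import Pool.Agent.Work.MP_54723a_co.CFL.HubNextF

/-!
# Constant factor for every `l`: the theorem  (helper26; all parts: see the imports)
-/

set_option autoImplicit false

namespace FlashRainbow.CFL

open Classical FlashRainbow.CF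

variable {l : ℕ}

/-- the zones with the constants of `CFL/HZones` -/
theorem zonesP (hl : 3 ≤ l) {d e : ℕ} (hd : 16 * l ^ 2 ≤ d) (he : 4 * d ≤ 2 ^ e) :
    ZonesP l (4 * l ^ 2) (4 * l ^ 2) (Nat.clog 2 l) d e :=
  fun _ _ _ _ hL hR hE q A hA0 J hA hbig => zones hl hL hR hE hd he q A hA0 J hA hbig

/-- **CONSTANT FACTOR**, extremal pairs of large rank, from the step between two hubs -/
theorem cf_large_of (hl : 3 ≤ l) (cs' c0' : ℕ)
    (hnext : ∀ (c : ℕ → ℕ → ℕ) (V : Finset ℕ) (lev : ℕ → ℕ → ℕ) (R t : ℕ), Lev c V l lev →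
      Rk c V R → Ext l c V R → l ^ R ≤ V.card → HubNextP l cs' c0' c V V.card R t) :
    ∃ K T₀ : ℕ, ∀ R, T₀ ≤ R → ∀ (c : ℕ → ℕ → ℕ) (V : Finset ℕ) (lev : ℕ → ℕ → ℕ),
      Lev c V l lev → Rk c V R → (∀ T ⊆ V, ∀ r ≤ R, Rk c T r → T.card * l ^ (R - r) ≤ V.card) →
      V.card ≤ K * l ^ R := by
  obtain ⟨d, hd⟩ : ∃ d, d = 448 * l ^ 2 := ⟨_, rfl⟩
  have hl2 : 1 ≤ l ^ 2 := Nat.one_le_pow _ _ (by omega)
  obtain ⟨E, t₁, hE⟩ := stageNum l cs' c0' d hl
  refine main_of_stage l 28 (4 * l ^ 2) (4 * l ^ 2) (Nat.clog 2 l) d (Nat.clog 2 (4 * d))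
    (max t₁ 100) E 1 hl (by omega) (by omega) (by omega) (Nat.le_pow_clog (by norm_num) _)
    (zonesP hl (by omega) (Nat.le_pow_clog (by norm_num) _)) ?_
  intro c V R lev t b hL hR hEx h3 ht htR hEt
  have ht1 : t₁ ≤ t := (le_max_left _ _).trans ht
  have ht2 : 100 ≤ t := (le_max_right _ _).trans ht
  exact stageP hl hL hR hEx (hnext c V lev R t hL hR hEx h3) (by omega) (by omega)
    (hE V.card R t b ht1 htR hEt h3)

/-- **CONSTANT FACTOR** for the length `l`, extremal pairs of large rank -/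
theorem cf_large (hl : 3 ≤ l) :
    ∃ K T₀ : ℕ, ∀ R, T₀ ≤ R → ∀ (c : ℕ → ℕ → ℕ) (V : Finset ℕ) (lev : ℕ → ℕ → ℕ),
      Lev c V l lev → Rk c V R → (∀ T ⊆ V, ∀ r ≤ R, Rk c T r → T.card * l ^ (R - r) ≤ V.card) →
      V.card ≤ K * l ^ R :=
  cf_large_of hl (cs l) (c0 l) fun _ _ _ _ t hL hR hEx h3 => hubNextP hl hL hR hEx h3 t

/-- **CONSTANT FACTOR** for every length `l ≥ 3`: `f(l, k) ≤ K_l l ^ (k - 1)` -/
theorem constant_factor (hl : 3 ≤ l) : ∃ K : ℕ, ∀ k n : ℕ, 1 ≤ k → K * l ^ (k - 1) < n →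
    ∀ c : Fin n → Fin n → ℕ,
      (∃ x : Fin (l + 1) → Fin n, StrictMono x ∧
        ∃ col : ℕ, ∀ i : Fin l, c (x i.castSucc) (x i.succ) = col) ∨
      (∃ y : Fin (k + 1) → Fin n, StrictMono y ∧
        Function.Injective (fun i : Fin k => c (y i.castSucc) (y i.succ))) :=
  const_of_large (by omega) (cf_large hl)

end FlashRainbow.CFL
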