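import Pool.Agent.Work.MP_54723a_co.CFL.Main
import Pool.Agent.Work.MP_54723a_co.CFL.HZones
import Pool.Agent.Work.MP_54723a_co.CFL.Stage
import Pool.Agent.Work.MP_54723a_co.CFL.StageNum
import Pool.Agent.Work.MP_54723a_co.CFL.HubNextF
import Pool.Agent.Work.MP_54723a_co.CFL.FinalL

/-!
# The constant factor theorem for every length `l ≥ 3`: assembly  (helper30; second copy of CFL/Const.lean)
-/

set_option autoImplicit false

namespace FlashRainbow.CFL.C30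

open Classical FlashRainbow.CF FlashRainbow.CFL

theorem zonesP {l : ℕ} (hl : 3 ≤ l) {d e : ℕ} (hd : 16 * l ^ 2 ≤ d) (he : 4 * d ≤ 2 ^ e) :
    ZonesP l (4 * l ^ 2) (4 * l ^ 2) (Nat.clog 2 l) d e :=
  fun _ _ _ _ hL hR hE q A hA0 J hA hbig => zones hl hL hR hE hd he q A hA0 J hA hbig

/-- extremal pairs of large rank -/
theorem cf_main (l : ℕ) (hl : 3 ≤ l) : ∃ K T₀ : ℕ, ∀ R, T₀ ≤ R →
    ∀ (c : ℕ → ℕ → ℕ) (V : Finset ℕ) (lev : ℕ → ℕ → ℕ), Lev c V l lev → Rk c V R →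
      (∀ T ⊆ V, ∀ r ≤ R, Rk c T r → T.card * l ^ (R - r) ≤ V.card) → V.card ≤ K * l ^ R := by
  have hl2 : 1 ≤ l ^ 2 := Nat.one_le_pow _ _ (by omega)
  obtain ⟨d, hd⟩ : ∃ d, d = 4 * (4 * l ^ 2) * 28 := ⟨_, rfl⟩
  obtain ⟨E, t₁, hE1, hnum⟩ := stageNum_one l (cs l) (c0 l) d hl
  refine main_of_stage l 28 (4 * l ^ 2) (4 * l ^ 2) (Nat.clog 2 l) d (Nat.clog 2 (4 * d))
    (max t₁ 84) E 1 hl (by norm_num) (by omega) hd.ge (Nat.le_pow_clog (by norm_num) _)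
    (zonesP hl (by omega) (Nat.le_pow_clog (by norm_num) _)) ?_
  intro c V R lev t b hL hR hExt h3 ht htR hb
  have ht1 : t₁ ≤ t := (le_max_left _ _).trans ht
  have ht2 : 84 ≤ t := (le_max_right _ _).trans ht
  exact stageP hl hL hR hExt (hubNextP hl hL hR hExt h3 t) (by omega) (by omega)
    (hnum V.card R t b ht1 htR hb h3)

/-- **THE CONSTANT FACTOR THEOREM FOR EVERY `l ≥ 3`** -/
theorem constant_factor_all (l : ℕ) (hl : 3 ≤ l) :
    ∃ K : ℕ, ∀ k n : ℕ, 1 ≤ k → K * l ^ (k - 1) < n →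
      ∀ c : Fin n → Fin n → ℕ,
      (∃ x : Fin (l + 1) → Fin n, StrictMono x ∧
        ∃ col : ℕ, ∀ i : Fin l, c (x i.castSucc) (x i.succ) = col) ∨
      (∃ y : Fin (k + 1) → Fin n, StrictMono y ∧
        Function.Injective (fun i : Fin k => c (y i.castSucc) (y i.succ))) :=
  const_of_large (by omega) (cf_main l hl)

end FlashRainbow.CFL.C30
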