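import Pool.Agent.Work.MP_54723a_co.CF.H1

/-!
# Constant factor for every `l`: Lemma A, the END, level classes, junctions  (helper6)

Port of `CF/CorePrime.lean` (lemmaA, free_le) and of `CF/H1.lean` (exists_class, Hub.end_le,
hasJun_of) from levels `0, 1, 2` to levels `0, .., l - 1`. `Fre`, `Hub`, `Jun`, `FreeP` and their
lemmas do not mention `l` and are used unchanged.
-/

set_option autoImplicit false

namespace FlashRainbow.CFL

open Classical FlashRainbow.CF

variable {c : ℕ → ℕ → ℕ} {V T W U X Z K F Φ E Θ : Finset ℕ} {l R r C p q d e t τ x lam N : ℕ}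
  {lev : ℕ → ℕ → ℕ}

/-- **Lemma A**: few points `w` have only short rainbow paths out of `w` which avoid `Θ` and a
small set `A w` of further colours. -/
theorem lemmaA_l (hl : 2 ≤ l) (hL : Lev c W l lev) (hR : Rk c W R) (A : ℕ → Finset ℕ)
    (hA : ∀ w ∈ W, (A w).card ≤ q)
    (hp : ∀ w ∈ W, ∀ D, RS c W w D → Disjoint D Θ → Disjoint D (A w) → D.card ≤ p) :
    W.card * 2 ^ Θ.card ≤ (p + 1) * (2 * l) ^ (p + q) * (2 ^ R * l ^ Θ.card) := by
  set pb : ℕ → ℕ → Prop := fun w j =>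
    ∃ D, RS c W w D ∧ Disjoint D Θ ∧ Disjoint D (A w) ∧ D.card = j with hpb
  have hpbt : ∀ w ∈ W, ∀ j, pb w j → j ≤ p := by
    rintro w hw j ⟨D, h1, h2, h3, rfl⟩
    exact hp w hw D h1 h2 h3
  have hpb0 : ∀ w ∈ W, pb w 0 := fun w hw =>
    ⟨∅, RS.single hw, Finset.disjoint_empty_left _, Finset.disjoint_empty_left _, rfl⟩
  set fb : ℕ → ℕ := fun v => Nat.findGreatest (pb v) p with hfb
  have hb' : ∀ w ∈ W, ∃ D, RS c W w D ∧ Disjoint D Θ ∧ Disjoint D (A w) ∧ D.card = fb w :=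
    fun w hw => Nat.findGreatest_spec (P := pb w) (Nat.zero_le _) (hpb0 w hw)
  choose! Q hQ using hb'
  obtain ⟨y, -, hy⟩ := exists_big_fiber W fb (Finset.range (p + 1)) ⟨0, by simp⟩ (by
      intro v _
      rw [Finset.mem_range]
      exact Nat.lt_succ_of_le (Nat.findGreatest_le _))
  rw [Finset.card_range] at hy
  set W₁ := W.filter fun v => fb v = y with hW₁
  have hW₁W : W₁ ⊆ W := Finset.filter_subset _ _
  have hAQ : ∀ v ∈ W₁, (A v ∪ Q v).card ≤ p + q := by
    intro v hv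
    have h1 := (hQ v (hW₁W hv)).2.2.2
    have h2 : fb v ≤ p := Nat.findGreatest_le _
    have h3 := Finset.card_union_le (A v) (Q v)
    have h4 := hA v (hW₁W hv)
    omega
  -- first selection
  obtain ⟨W₂, hW₂, hW₂c, hW₂s⟩ := exists_select (T := W₁) (l := 2)
    (lev := fun γ v => if γ ∈ A v then 1 else 0) (by omega) (fun v => A v ∪ Q v)
    (p + q) hAQ (by
      intro γ v _
      split_ifs <;> omega)
  have hpriv : ∀ u ∈ W₂, ∀ v ∈ W₂, Disjoint (Q v) (A u) := by
    intro u hu v hv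
    rw [Finset.disjoint_left]
    intro γ h1 h2
    have h3 := hW₂s u hu v hv γ (Finset.mem_union_left _ h2) (Finset.mem_union_right _ h1)
    simp only [if_pos h2] at h3
    split_ifs at h3 with h4
    exact Finset.disjoint_left.mp (hQ v (hW₁W (hW₂ hv))).2.2.1 h1 h4
  have harc : ∀ u ∈ W₂, ∀ v ∈ W₂, u < v → c u v ∉ Θ → c u v ∈ A u ∨ c u v ∈ Q v := by
    intro u hu v hv huv hcΘ
    by_contra hnot
    rw [not_or] at hnot
    obtain ⟨h1, h2, h3, h4⟩ := hQ v (hW₁W (hW₂ hv))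
    have h5 := RS.step h1 (hW₁W (hW₂ hu)) huv hnot.2
    have h6 : pb u (fb v + 1) := by
      refine ⟨_, h5, ?_, ?_, ?_⟩
      · rw [Finset.disjoint_insert_left]; exact ⟨hcΘ, h2⟩
      · rw [Finset.disjoint_insert_left]
        exact ⟨hnot.1, hpriv u hu v hv⟩
      · rw [Finset.card_insert_of_notMem hnot.2, h4]
    have h7 := Nat.le_findGreatest (hpbt _ (hW₁W (hW₂ hu)) _ h6) h6
    have h8 : fb v + 1 ≤ fb u := h7
    have h9 := (Finset.mem_filter.mp (hW₂ hu)).2
    have h10 := (Finset.mem_filter.mp (hW₂ hv)).2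
    omega
  -- second selection : levels
  obtain ⟨W₃, hW₃, hW₃c, hW₃s⟩ := exists_select (T := W₂) (l := l) (lev := lev) (by omega)
    (fun v => A v ∪ Q v) (p + q) (fun v hv => hAQ v (hW₂ hv))
    (fun γ v hv => hL.lt γ v (hW₁W (hW₂ hv)))
  have hW₃W : W₃ ⊆ W := hW₃.trans (hW₂.trans hW₁W)
  have hfin := card_flash_in_le (T := W₃) (Θ := Θ) hl (hL.mono hW₃W)
    (fun y D hD => hR y D (hD.mono hW₃W)) (by
      intro x hx y hy z hz hxy hyz heq
      by_contra hnot
      have g1 := hL.up x (hW₃W hx) y (hW₃W hy) hxy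
      have g2 := hL.up y (hW₃W hy) z (hW₃W hz) hyz
      rw [← heq] at g2
      rcases harc x (hW₃ hx) y (hW₃ hy) hxy hnot with h1 | h1
      · rcases harc y (hW₃ hy) z (hW₃ hz) hyz (heq ▸ hnot) with h2 | h2
        · rw [← heq] at h2
          have := hW₃s x hx y hy _ (Finset.mem_union_left _ h1) (Finset.mem_union_left _ h2)
          omega
        · rw [← heq] at h2
          have := hW₃s x hx z hz _ (Finset.mem_union_left _ h1) (Finset.mem_union_right _ h2)
          omega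
      · rcases harc y (hW₃ hy) z (hW₃ hz) hyz (heq ▸ hnot) with h2 | h2
        · rw [← heq] at h2
          exact Finset.disjoint_left.mp (hpriv y (hW₃ hy) y (hW₃ hy)) h1 h2
        · rw [← heq] at h2
          have := hW₃s y hy z hz _ (Finset.mem_union_right _ h1) (Finset.mem_union_right _ h2)
          omega)
  calc W.card * 2 ^ Θ.card ≤ ((p + 1) * W₁.card) * 2 ^ Θ.card := Nat.mul_le_mul_right _ hy
    _ ≤ ((p + 1) * (2 ^ (p + q) * W₂.card)) * 2 ^ Θ.card := by gcongr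
    _ ≤ ((p + 1) * (2 ^ (p + q) * (l ^ (p + q) * W₃.card))) * 2 ^ Θ.card := by gcongr
    _ = (p + 1) * (2 ^ (p + q) * l ^ (p + q)) * (W₃.card * 2 ^ Θ.card) := by ring
    _ = (p + 1) * (2 * l) ^ (p + q) * (W₃.card * 2 ^ Θ.card) := by
      rw [← mul_pow]
    _ ≤ (p + 1) * (2 * l) ^ (p + q) * (2 ^ R * l ^ Θ.card) := Nat.mul_le_mul_left _ hfin

/-- Lemma A with at most `R` colours in `Θ` -/
theorem lemmaA'_l (hl : 2 ≤ l) (hL : Lev c W l lev) (hR : Rk c W R) (A : ℕ → Finset ℕ)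
    (hA : ∀ w ∈ W, (A w).card ≤ q) (hΘ : Θ.card ≤ R)
    (hp : ∀ w ∈ W, ∀ D, RS c W w D → Disjoint D Θ → Disjoint D (A w) → D.card ≤ p) :
    W.card ≤ (p + 1) * (2 * l) ^ (p + q) * l ^ R := by
  have h1 := lemmaA_l hl hL hR A hA hp
  have h2 : 2 ^ R * l ^ Θ.card ≤ l ^ R * 2 ^ Θ.card := by
    obtain ⟨k, hk⟩ := Nat.exists_eq_add_of_le hΘ
    rw [hk, pow_add, pow_add]
    have h3 : (2 : ℕ) ^ k ≤ l ^ k := Nat.pow_le_pow_left hl k
    calc 2 ^ Θ.card * 2 ^ k * l ^ Θ.card ≤ 2 ^ Θ.card * l ^ k * l ^ Θ.card := by gcongr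
      _ = l ^ Θ.card * l ^ k * 2 ^ Θ.card := by ring
  have h3 : W.card * 2 ^ Θ.card ≤ ((p + 1) * (2 * l) ^ (p + q) * l ^ R) * 2 ^ Θ.card := by
    calc W.card * 2 ^ Θ.card ≤ (p + 1) * (2 * l) ^ (p + q) * (2 ^ R * l ^ Θ.card) := h1
      _ ≤ (p + 1) * (2 * l) ^ (p + q) * (l ^ R * 2 ^ Θ.card) := Nat.mul_le_mul_left _ h2
      _ = _ := by ring
  exact Nat.le_of_mul_le_mul_right h3 (by positivity)

/-- the constant of the END -/
def KAl (l C : ℕ) : ℕ := (C + 1) * (2 * l) ^ (C + (C + 1))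

/-- the later points whose colour is coherently avoidable -/
theorem free_le_l (hl : 2 ≤ l) (hL : Lev c V l lev) (hR : Rk c V R) {a : ℕ} (hΘ : Θ.card ≤ R) :
    (V.filter fun v => a < v ∧ FreeP c V R C Θ a (c a v)).card ≤ KAl l C * l ^ R := by
  set W := V.filter fun v => a < v ∧ FreeP c V R C Θ a (c a v) with hW
  have hWV : W ⊆ V := Finset.filter_subset _ _
  have h : ∀ v ∈ W, ∃ D, RP c V a D ∧ R ≤ D.card + C ∧ c a v ∉ D ∧ (D \ Θ).card ≤ C :=
    fun v hv => (Finset.mem_filter.mp hv).2.2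
  choose! P hP using h
  refine lemmaA'_l hl (p := C) (q := C + 1) (hL.mono hWV) (fun y D hD => hR y D (hD.mono hWV))
    (fun v => insert (c a v) (P v \ Θ)) ?_ hΘ ?_
  · intro v hv
    have h1 := Finset.card_insert_le (c a v) (P v \ Θ)
    have h2 := (hP v hv).2.2.2
    omega
  · intro v hv D hD h1 h2
    obtain ⟨h3, h4, h5, -⟩ := hP v hv
    rw [Finset.disjoint_insert_right] at h2
    have h6 : RP c V v (insert (c a v) (P v)) :=
      RP.step h3 (hWV hv) (Finset.mem_filter.mp hv).2.1 h5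
    have h7 : Disjoint D (P v) := by
      rw [Finset.disjoint_left]
      intro γ hγ hγ'
      by_cases hγΘ : γ ∈ Θ
      · exact Finset.disjoint_left.mp h1 hγ hγΘ
      · exact Finset.disjoint_left.mp h2.2 hγ (Finset.mem_sdiff.mpr ⟨hγ', hγΘ⟩)
    have h8 : Disjoint D (insert (c a v) (P v)) := by
      rw [Finset.disjoint_insert_right]
      exact ⟨h2.1, h7⟩
    obtain ⟨y, hy⟩ := hD.join hWV _ h6 h8
    have h9 := hR _ _ hy
    rw [Finset.card_union_of_disjoint h8.symm, Finset.card_insert_of_notMem h5] at h9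
    omega

/-- the best level class -/
theorem exists_class_l (hl : 1 ≤ l) (hL : Lev c X l lev) (Q : Finset ℕ) :
    ∃ X' ⊆ X, X.card ≤ l ^ Q.card * X'.card ∧ Fre c X' Q := by
  obtain ⟨X', h1, h2, h3⟩ := exists_select (T := X) (l := l) (lev := lev) hl (fun _ => Q)
    Q.card (fun _ _ => le_refl _) (fun γ v hv => hL.lt γ v hv)
  refine ⟨X', h1, h2, ?_⟩
  intro γ hγ u hu v hv huv he
  have h4 := h3 u hu v hv γ hγ hγ
  have h5 := hL.up u (h1 hu) v (h1 hv) huv
  rw [he] at h5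
  omega

/-- **END**: all but few of the points `v` behind `x` have `c x v ∈ F`. -/
theorem Hub.end_le_l (h : Hub c V x K F) (hl : 2 ≤ l) (hL : Lev c V l lev) (hR : Rk c V R)
    (ht : R ≤ K.card + t) (hZ : Z ⊆ V) (hxZ : ∀ v ∈ Z, x < v) :
    Z.card ≤ KAl l (t + 1) * l ^ R + (Z.filter fun v => c x v ∈ F).card := by
  have h1 := free_le_l (c := c) (V := V) (R := R) (C := t + 1) (Θ := K) (a := x) hl hL hR
    (h.card_le hR)
  have h2 : Z ⊆ (V.filter fun v => x < v ∧ FreeP c V R (t + 1) K x (c x v)) ∪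
      Z.filter fun v => c x v ∈ F := by
    intro v hv
    by_cases hF : c x v ∈ F
    · exact Finset.mem_union_right _ (Finset.mem_filter.mpr ⟨hv, hF⟩)
    · refine Finset.mem_union_left _ (Finset.mem_filter.mpr ⟨hZ hv, hxZ v hv, K.erase (c x v), ?_,
        ?_, Finset.notMem_erase _ _, ?_⟩)
      · refine h.2 _ (fun y hy => ?_) (Finset.erase_subset _ _)
        refine Finset.mem_erase.mpr ⟨?_, h.1 hy⟩
        rintro rfl
        exact hF hy
      · have := Finset.pred_card_le_card_erase (s := K) (a := c x v)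
        omega
      · rw [Finset.sdiff_eq_empty_iff_subset.mpr (Finset.erase_subset _ _), Finset.card_empty]
        omega
  exact (Finset.card_le_card h2).trans ((Finset.card_union_le _ _).trans
    (Nat.add_le_add_right h1 _))

/-- from a `K`-free set to a junction -/
theorem hasJun_of_l (hl : 1 ≤ l) (hL : Lev c V l lev) (hZ : Z ⊆ V) (hXZ : X ⊆ Z)
    (hK : Fre c X K) (hJ : Jun c V x Φ X) (h3 : Φ.card ≤ 3) (hΦF : Disjoint Φ F)
    (hcard : l ^ 3 * τ ≤ X.card) : HasJun c V Z K F x τ := by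
  obtain ⟨X', h1, h2, h4⟩ := exists_class_l hl (hL.mono (hXZ.trans hZ)) Φ
  refine ⟨Φ, X', h3, hΦF, h1.trans hXZ, hJ.mono h1, (hK.mono h1 (le_refl _)).union h4, ?_⟩
  have h5 : l ^ Φ.card ≤ l ^ 3 := Nat.pow_le_pow_right hl h3
  have h6 : X.card ≤ l ^ 3 * X'.card := h2.trans (Nat.mul_le_mul_right _ h5)
  exact Nat.le_of_mul_le_mul_left (hcard.trans h6) (by positivity)

/-- levels of the reversed colouring -/
theorem Lev.rev_l {M : ℕ} (hl : 1 ≤ l) (hN : ∀ v ∈ V, v ≤ M) (hL : Lev c V l lev) :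
    Lev (revc c M) (rvs V M) l (fun γ v => l - 1 - lev γ (M - v)) := by
  refine ⟨fun γ v _ => by omega, fun u hu v hv huv => ?_⟩
  have h1 := (mem_rvs hN).mp hu
  have h2 := (mem_rvs hN).mp hv
  have h3 := hL.up _ h2.2 _ h1.2 (by omega)
  have h4 := hL.lt (c (M - v) (M - u)) _ h1.2
  simp only [revc_eq]
  omega

end FlashRainbow.CFL
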