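import Pool.Agent.Work.MP_54723a_co.CFL.Typ

/-!
# Extremal sets for every length `l` (helper30); `Ext` is defined in `CFL/Typ.lean` (helper26)
-/

set_option autoImplicit false

namespace FlashRainbow.CFL

open Classical FlashRainbow.CF

/-- a nonempty extremal set has at least `l ^ R` points -/
theorem ext_card {l : ℕ} {c : ℕ → ℕ → ℕ} {V : Finset ℕ} {R : ℕ} (hE : Ext l c V R)
    (hne : V.Nonempty) : l ^ R ≤ V.card := by
  obtain ⟨v, hv⟩ := hne
  have h1 := hE {v} (Finset.singleton_subset_iff.mpr hv) 0 (Nat.zero_le _) (by
    intro y D hD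
    cases hD with
    | single _ => simp
    | @step x y D h hy hlt hc =>
      have h1 := Finset.mem_singleton.mp h.mem
      have h2 := Finset.mem_singleton.mp hy
      omega)
  simpa using h1

end FlashRainbow.CFL
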