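import Pool.Agent.Work.MP_54723a_co.CF.HubNext
import Pool.Agent.Work.MP_54723a_co.CFL.BB

/-!
# Constant factor for every `l`: from a junction to the next hub  (helper94)

Port of `CF/HubNext.lean` (helper75).  The only input with `l` inside is RICH in a plain set; it is
the hypothesis `RichPlain l a b` (`rich_plain` of helper29 / helper44 with `a = cs l`, `b = c0 l`).
-/

set_option autoImplicit false

namespace FlashRainbow.CFL

open Classical FlashRainbow.CF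

variable {c : ℕ → ℕ → ℕ} {V X K F Φ : Finset ℕ} {l R t q s x M m a b : ℕ} {lev : ℕ → ℕ → ℕ}

/-- RICH in plain sets -/
def RichPlain (l a b : ℕ) : Prop :=
  ∀ (c : ℕ → ℕ → ℕ) (lev : ℕ → ℕ → ℕ) (U : Finset ℕ) (t M q s m : ℕ), Lev c U l lev → Rk c U t →
    (∀ W ⊆ U, ∀ r ≤ t, Rk c W r → W.card * l ^ (t - r) ≤ M) → l ^ t ≤ M → M ≤ 2 ^ q * U.card →
    s + 1 ≤ t → 16 * (t + 1) * 2 ^ q ≤ l ^ s → 8 ≤ U.card →
    3 + 2 * (q + (a * s + b)) + 7 * m < t →
    ∃ E : Finset ℕ, E.card = m ∧ ∃ B ⊆ U, B.Nonempty ∧ Rich c U B E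

/-- **NEXT HUB**: a junction into a thick plain set gives a hub with `m` more colours. -/
theorem hub_next_of (hRP : RichPlain l a b) (hl : 3 ≤ l) (hL : Lev c V l lev) (hR : Rk c V R)
    (hM : ∀ W ⊆ V, ∀ r ≤ R, Rk c W r → W.card * l ^ (R - r) ≤ M) (h3 : l ^ R ≤ M)
    (hH : Hub c V x K F) (ht : R = K.card + t) (hΦ : Φ.card ≤ 3) (hΦF : Disjoint Φ F)
    (hJ : Jun c V x Φ X) (hX : Fre c X (K ∪ Φ)) (h8 : 8 ≤ X.card)
    (hsize : M ≤ 2 ^ q * (X.card * l ^ (R - t)))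
    (hst : s + 4 ≤ t) (hs : 16 * (t + 1) * 2 ^ q ≤ l ^ s)
    (hm3 : 3 ≤ m) (hm : 6 + 2 * (q + (a * s + b)) + 7 * m < t) :
    ∃ x' ∈ X, ∃ K', Hub c V x' K' (F ∪ Φ) ∧ R = K'.card + (t - m) := by
  have hXV : X ⊆ V := hJ.1
  have hKΦ : (K ∪ Φ).card ≤ K.card + 3 := (Finset.card_union_le _ _).trans (by omega)
  have hKK : K.card ≤ (K ∪ Φ).card := Finset.card_le_card Finset.subset_union_left
  set t1 := R - (K ∪ Φ).card with ht1
  have ht1a : t1 ≤ t := by omega
  have ht1b : t ≤ t1 + 3 := by omega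
  have hrk : Rk c X t1 := hH.plain hR hJ hΦF hX
  have hpos : 0 < l ^ (R - t1) := Nat.pow_pos (by omega)
  have hM1 : ∀ W ⊆ X, ∀ r ≤ t1, Rk c W r → W.card * l ^ (t1 - r) ≤ M / l ^ (R - t1) := by
    intro W hW r hr hWr
    rw [Nat.le_div_iff_mul_le hpos]
    have h1 := hM W (hW.trans hXV) r (by omega) hWr
    calc W.card * l ^ (t1 - r) * l ^ (R - t1) = W.card * l ^ (R - r) := by
          rw [mul_assoc, ← pow_add]
          congr 2
          omega
      _ ≤ M := h1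
  have h31 : l ^ t1 ≤ M / l ^ (R - t1) := by
    rw [Nat.le_div_iff_mul_le hpos, ← pow_add]
    refine le_trans (le_of_eq ?_) h3
    congr 1
    omega
  have hMU : M / l ^ (R - t1) ≤ 2 ^ q * X.card := by
    refine Nat.div_le_of_le_mul ?_
    refine hsize.trans ?_
    calc 2 ^ q * (X.card * l ^ (R - t)) ≤ 2 ^ q * (X.card * l ^ (R - t1)) := by
          refine Nat.mul_le_mul_left _ (Nat.mul_le_mul_left _ (Nat.pow_le_pow_right (by omega) ?_))
          omega
      _ = l ^ (R - t1) * (2 ^ q * X.card) := by ring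
  obtain ⟨E, hE, B, hBX, hBne, hRich⟩ := hRP c lev X t1 _ q s m (hL.mono hXV) hrk
    hM1 h31 hMU (by omega) (le_trans (Nat.mul_le_mul_right _ (Nat.mul_le_mul_left _ (by omega))) hs)
    h8 (by omega)
  have hEd : Disjoint (K ∪ Φ) E := by
    rw [Finset.disjoint_left]
    intro k hk hkE
    obtain ⟨u, hu, v, hv, huv, hc⟩ := rich_colour hRich hBne k hkE
    exact hX k hk u hu v hv huv hc
  obtain ⟨y, hy⟩ := hBne
  have hstep : Hub c V y (K ∪ Φ ∪ E) (F ∪ Φ) := by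
    refine hH.step hJ hΦF hX ?_
    intro E' hE'
    obtain ⟨u, hu, hRT⟩ := hRich.2 y hy E' hE'
    exact hRT.toRP
  have hcard : (K ∪ Φ ∪ E).card = (K ∪ Φ).card + m := by
    rw [Finset.card_union_of_disjoint hEd, hE]
  have hFΦ : (F ∪ Φ).card ≤ (K ∪ Φ).card :=
    Finset.card_le_card (Finset.union_subset_union_left hH.1)
  obtain ⟨K', h1, h2, h4⟩ := Finset.exists_subsuperset_card_eq (n := K.card + m) hstep.1
    (by omega) (by omega)
  refine ⟨y, hBX hy, K', hstep.shrink h1 h2, ?_⟩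
  rw [h4]
  omega

end FlashRainbow.CFL
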