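import Pool.Agent.Work.MP_54723a_co.CF.Loop
import Pool.Agent.Work.MP_54723a_co.CFL.H1

/-!
# Constant factor for every `l`: the stage loop  (port of helper63's CF/Loop; helper88)

`StageP`, `badZ`, `clean`, `Inv`, `Inv.step` do not mention `l`; they are those of `CF/Loop`.
Only the end of the loop uses the number of levels.
-/

set_option autoImplicit false

namespace FlashRainbow.CFL

open Classical FlashRainbow.CF

variable {c : ℕ → ℕ → ℕ} {V Z Y F K : Finset ℕ} {l R M d x : ℕ} {lev : ℕ → ℕ → ℕ}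

/-- **LOOP** : all stages, from the zone `G (J - 1)` to the zone `G 1`, and the end on `G 0`. -/
theorem loop {q A T : ℕ → ℕ} {J e : ℕ} {U G : ℕ → Finset ℕ} (hl : 3 ≤ l) (hL : Lev c V l lev)
    (hR : Rk c V R) (hZ : Zones c V d q A J U G) (hd : 0 < d) (he : 4 * d ≤ 2 ^ e)
    (hq0 : ∀ l, 0 < q l)
    (hq : ∑ l ∈ Finset.range J, (1 : ℚ) / q l ≤ 1 / (48 * d ^ 2)) (hJ : 2 ≤ J)
    (hT : T (J - 1) = R)
    (hst : ∀ m, 1 ≤ m → m + 1 < J → StageP c V R V.card d (T (m + 1)) (T m) (A (m + 1) + e)) :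
    V.card ≤ 2 ^ A 1 * (2 * d * KA l (T 1 + 1)) * l ^ R := by
  rcases V.eq_empty_or_nonempty with rfl | hne
  · simp
  have hUV : ∀ k ≤ J, U k ⊆ V := fun k hk => by
    have := hZ.subset (Nat.zero_le k) hk
    rwa [hZ.base] at this
  have hGpos : ∀ k < J, 0 < (G k).card := fun k hk => by
    have hV : 0 < V.card := Finset.card_pos.mpr hne
    have h1 := hZ.szG k hk
    rcases Nat.eq_zero_or_pos (G k).card with h0 | h0
    · rw [h0, Nat.mul_zero] at h1
      omega
    · exact h0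
  -- all hubs
  have key : ∀ k, k ≤ J - 2 → ∃ y K F Φ, Inv c V R d T J U G (J - 1 - k) y K F Φ := by
    intro k
    induction k with
    | zero =>
      intro _
      obtain ⟨y, hy⟩ := Finset.card_pos.mp (hGpos (J - 1) (by omega))
      have hyV : y ∈ V := hUV (J - 1) (by omega) (hZ.sub (J - 1) (by omega) hy)
      refine ⟨y, ∅, ∅, fun _ => ∅, ⟨hy, Hub.start hyV, ?_, ?_, ?_, ?_, ?_⟩⟩
      · rw [Nat.sub_zero, hT, Finset.card_empty, Nat.zero_add]
      · intro l
        simp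
      · intro l g hg
        simp at hg
      · intro g hg
        simp at hg
      · simp
    | succ k ih =>
      intro hk
      obtain ⟨y, K, F, Φ, hI⟩ := ih (by omega)
      have h1 : J - 1 - k = (J - 1 - (k + 1)) + 1 := by omega
      rw [h1] at hI
      exact hI.step hZ hd he hq0 hq (by omega) (by omega) (hst _ (by omega) (by omega))
  obtain ⟨y, K, F, Φ, hI⟩ := key (J - 2) (le_refl _)
  rw [show J - 1 - (J - 2) = 1 by omega] at hI
  have hyU : y ∈ U 1 := hZ.sub 1 (by omega) hI.mem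
  have h1 := end_le (t := T 1) (Z := G 0) hl hI.hub hL hR hI.bud.le
    ((hZ.sub 0 (by omega)).trans (hUV 0 (by omega))) (fun v hv => hZ.lt 0 (by omega) y hyU v hv)
  have h2 := hI.mass
  rw [show 1 - 1 = 0 from rfl] at h2
  have h3 : (G 0).card ≤ 2 * d * (KA l (T 1 + 1) * l ^ R) := by
    obtain ⟨a, ha⟩ : ∃ a, a = ((G 0).filter fun w => c y w ∈ F).card := ⟨_, rfl⟩
    rw [← ha] at h1 h2
    obtain ⟨d', rfl⟩ : ∃ d', d = d' + 1 := ⟨d - 1, by omega⟩
    have h4 : 2 * (d' + 1) - 1 = 2 * d' + 1 := by omega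
    rw [h4] at h2
    nlinarith [Nat.mul_le_mul_left (2 * (d' + 1)) h1]
  calc V.card ≤ 2 ^ A 1 * (G 0).card := hZ.szG 0 (by omega)
    _ ≤ 2 ^ A 1 * (2 * d * (KA l (T 1 + 1) * l ^ R)) := Nat.mul_le_mul_left _ h3
    _ = 2 ^ A 1 * (2 * d * KA l (T 1 + 1)) * l ^ R := by ring

end FlashRainbow.CFL
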