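import Pool.Agent.Work.MP_54723a_co.CFL.Loop
import Pool.Agent.Work.MP_54723a_co.CFL.Num
import Pool.Agent.Work.MP_54723a_co.CFL.Ext
import Pool.Agent.Work.MP_54723a_co.CF.NumA

/-!
# Constant factor for every `l`, measure route: assembly  (port of CF/Main, helper63; helper26)

The zones and the stage lemma `StageP` for all large budgets give the bound `|V| ≤ K l^R` for
extremal pairs of large rank: zones, loop, numbers (helper91).
-/

set_option autoImplicit false

namespace FlashRainbow.CFL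

open Classical FlashRainbow.CF

theorem KA_mono {l a b : ℕ} (hl : 1 ≤ l) (h : a ≤ b) : KA l a ≤ KA l b := by
  unfold KA
  exact Nat.mul_le_mul (by omega) (Nat.pow_le_pow_right (by omega) (by omega))

/-- the exponents of the sizes of the zones -/
def AL (a b w d e Q : ℕ) : ℕ → ℕ
  | 0 => 0
  | k + 1 => AL a b w d e Q k + ((a * AL a b w d e Q k + b) / (d / 2) + 1) + e +
      w * ((k + 1) ^ 2 * qq Q (k + 1))

theorem AL_succ (a b w d e Q k : ℕ) : AL a b w d e Q (k + 1) =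
    AL a b w d e Q k + ((a * AL a b w d e Q k + b) / (d / 2) + 1) + e +
      w * ((k + 1) ^ 2 * qq Q (k + 1)) :=
  rfl

/-- the zone theorem for the length `l` with the constants `a, b, w` -/
def ZonesP (l a b w d e : ℕ) : Prop :=
  ∀ (c : ℕ → ℕ → ℕ) (V : Finset ℕ) (lev : ℕ → ℕ → ℕ) (R : ℕ), Lev c V l lev → Rk c V R →
    Ext l c V R → ∀ q A : ℕ → ℕ, A 0 = 0 → ∀ J,
    (∀ k < J, A k + ((a * A k + b) / (d / 2) + 1) + e + w * ((k + 1) ^ 2 * q (k + 1)) ≤
      A (k + 1)) → 2 ^ A J ≤ V.card → ∃ U G, Zones c V d q A J U G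

/-- **ASSEMBLY** : the zones and the stage lemma for large budgets give the constant factor. -/
theorem main_of_stage (l D a b w d e t₁ E c₀ : ℕ) (hl : 3 ≤ l) (hD : 20 ≤ D) (ha : 1 ≤ a)
    (hd : 4 * a * D ≤ d) (he : 4 * d ≤ 2 ^ e) (hZ : ZonesP l a b w d e)
    (hS : ∀ (c : ℕ → ℕ → ℕ) (V : Finset ℕ) (R : ℕ) (lev : ℕ → ℕ → ℕ) (t b : ℕ), Lev c V l lev →
      Rk c V R → Ext l c V R → l ^ R ≤ V.card → t₁ ≤ t → t ≤ R → E * (b + c₀) ≤ t →
      StageP c V R V.card d t (t - t / D) b) :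
    ∃ K T₀ : ℕ, ∀ R, T₀ ≤ R → ∀ (c : ℕ → ℕ → ℕ) (V : Finset ℕ) (lev : ℕ → ℕ → ℕ),
      Lev c V l lev → Rk c V R → (∀ T ⊆ V, ∀ r ≤ R, Rk c T r → T.card * l ^ (R - r) ≤ V.card) →
      V.card ≤ K * l ^ R := by
  have hd0 : 0 < d := by
    have h1 : 1 * 1 ≤ 4 * a * D := Nat.mul_le_mul (by omega) (by omega)
    omega
  obtain ⟨Q, hQ⟩ : ∃ Q, Q = 48 * d ^ 2 := ⟨_, rfl⟩
  have hQ0 : 0 < Q := by
    rw [hQ]
    have : 0 < d ^ 2 := pow_pos hd0 2
    omega
  obtain ⟨C, -, hC⟩ := numbers_loop (AL a b w d e Q) D a b w d e Q hD ha hd (fun k => by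
    rw [AL_succ]
    unfold qq
    rw [show k + 1 + 2 = k + 3 by ring]) (E + 1) (e + c₀) t₁
  refine ⟨2 ^ AL a b w d e Q 1 * (2 * d * KA l (C + 1)), C, ?_⟩
  intro R hRC c V lev hL hR hE
  rcases V.eq_empty_or_nonempty with rfl | hne
  · simp
  have hE' : Ext l c V R := hE
  have h3 : l ^ R ≤ V.card := ext_card hE' hne
  obtain ⟨J, hJ, T, hTR, hT1, hT2, hT3⟩ := hC R hRC
  have hTle : ∀ m, 1 ≤ m → m < J → T m ≤ R := by
    intro m hm hmJ
    have key : ∀ k, m + k < J → T m ≤ T (m + k) := by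
      intro k
      induction k with
      | zero => intro _; exact le_refl _
      | succ k ih =>
        intro hk
        have h1 := ih (by omega)
        have h2 := (hT3 (m + k) (by omega) (by omega)).2.1
        rw [show m + (k + 1) = m + k + 1 by ring]
        omega
    have h1 := key (J - 1 - m) (by omega)
    rw [show m + (J - 1 - m) = J - 1 by omega, hTR] at h1
    exact h1
  have hAJ : 2 ^ AL a b w d e Q J ≤ V.card := by
    have h1 := (hT2 (J - 1) (by omega) (by omega)).2.2 J (by omega)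
    rw [hTR] at h1
    have h2 : AL a b w d e Q J ≤ R := by
      calc AL a b w d e Q J ≤ 1 * (AL a b w d e Q J + (e + c₀)) := by omega
        _ ≤ (E + 1) * (AL a b w d e Q J + (e + c₀)) := Nat.mul_le_mul_right _ (by omega)
        _ ≤ R := h1
    calc 2 ^ AL a b w d e Q J ≤ 2 ^ R := Nat.pow_le_pow_right (by norm_num) h2
      _ ≤ l ^ R := Nat.pow_le_pow_left (by omega) _
      _ ≤ V.card := h3
  obtain ⟨U, G, hZ⟩ := hZ c V lev R hL hR hE' (qq Q) (AL a b w d e Q) rfl J
    (fun k _ => by rw [AL_succ]) hAJ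
  have h1 := loop hl hL hR hZ hd0 he (fun l => by
      unfold qq
      exact Nat.mul_pos hQ0 (by positivity)) (by
      have h := Sched.sum_q Q J
      unfold qq
      refine h.trans (le_of_eq ?_)
      rw [hQ]
      push_cast
      ring) hJ hTR (by
      intro m hm hmJ
      have h2 := (hT3 m hm hmJ).1
      rw [h2]
      obtain ⟨h4, -, h5⟩ := hT2 (m + 1) (by omega) (by omega)
      refine hS c V R lev (T (m + 1)) (AL a b w d e Q (m + 1) + e) hL hR hE' h3 h4
        (hTle (m + 1) (by omega) (by omega)) ?_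
      have h6 := h5 (m + 1) (by omega)
      calc E * (AL a b w d e Q (m + 1) + e + c₀)
          ≤ (E + 1) * (AL a b w d e Q (m + 1) + e + c₀) := Nat.mul_le_mul_right _ (by omega)
        _ = (E + 1) * (AL a b w d e Q (m + 1) + (e + c₀)) := by rw [Nat.add_assoc]
        _ ≤ T (m + 1) := h6)
  have hl1 : 1 ≤ l := by omega
  calc V.card ≤ 2 ^ AL a b w d e Q 1 * (2 * d * KA l (T 1 + 1)) * l ^ R := h1
    _ ≤ 2 ^ AL a b w d e Q 1 * (2 * d * KA l (C + 1)) * l ^ R :=
        Nat.mul_le_mul_right _ (Nat.mul_le_mul_left _ (Nat.mul_le_mul_left _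
          (KA_mono hl1 (by omega))))

end FlashRainbow.CFL
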