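import Pool.Agent.Work.MP_54723a_co.CFL.HZones
import Pool.Agent.Work.MP_54723a_co.CFL.Loop
import Pool.Agent.Work.MP_54723a_co.CFL.Num
import Pool.Agent.Work.MP_54723a_co.CFL.Ext
import Pool.Agent.Work.MP_54723a_co.CFL.Stage
import Pool.Agent.Work.MP_54723a_co.CFL.StageNum
import Pool.Agent.Work.MP_54723a_co.CFL.FinalL

/-!
# Constant factor for every `l`: assembly  (helper64, second writer)
-/

set_option autoImplicit false

namespace FlashRainbow.CFL.M64

open Classical FlashRainbow.CF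

/-- the exponents of the zones -/
def AL (a w d e Q : ℕ) : ℕ → ℕ
  | 0 => 0
  | k + 1 => AL a w d e Q k + ((a * AL a w d e Q k + a) / (d / 2) + 1) + e +
      w * ((k + 1) ^ 2 * (Q * (k + 3) ^ 2))

theorem KA_mono {l a b : ℕ} (hl : 1 ≤ l) (h : a ≤ b) : KA l a ≤ KA l b := by
  unfold KA
  exact Nat.mul_le_mul (by omega) (Nat.pow_le_pow_right (by omega) (by omega))

/-- **ASSEMBLY** : the step to the next hub gives the constant factor for large ranks. -/
theorem large_of_next (l cs c0 : ℕ) (hl : 3 ≤ l)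
    (hnext : ∀ (c : ℕ → ℕ → ℕ) (V : Finset ℕ) (R : ℕ) (lev : ℕ → ℕ → ℕ) (t : ℕ), Lev c V l lev →
      Rk c V R → Ext l c V R → l ^ R ≤ V.card → t ≤ R → HubNextP l cs c0 c V V.card R t) :
    ∃ K T₀ : ℕ, ∀ R, T₀ ≤ R → ∀ (c : ℕ → ℕ → ℕ) (V : Finset ℕ) (lev : ℕ → ℕ → ℕ), Lev c V l lev →
      Rk c V R → Ext l c V R → V.card ≤ K * l ^ R := by
  obtain ⟨d, hd⟩ : ∃ d, d = 448 * l ^ 2 := ⟨_, rfl⟩
  obtain ⟨e, he⟩ : ∃ e, 4 * d ≤ 2 ^ e := ⟨Nat.clog 2 (4 * d), Nat.le_pow_clog (by norm_num) _⟩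
  obtain ⟨Q, hQ⟩ : ∃ Q, Q = 48 * d ^ 2 := ⟨_, rfl⟩
  have hl2 : 0 < l ^ 2 := Nat.pow_pos (by omega)
  have hd0 : 0 < d := by omega
  have hQ0 : 0 < Q := by
    rw [hQ]
    have : 0 < d ^ 2 := Nat.pow_pos hd0
    omega
  obtain ⟨E, t₁, hE1, hst⟩ := stageNum_one l cs c0 d hl
  obtain ⟨A, hA⟩ : ∃ A, A = AL (4 * l ^ 2) (Nat.clog 2 l) d e Q := ⟨_, rfl⟩
  have hA0 : A 0 = 0 := by rw [hA]; rfl
  have hAs : ∀ k, A (k + 1) = A k + ((4 * l ^ 2 * A k + 4 * l ^ 2) / (d / 2) + 1) + e +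
      Nat.clog 2 l * ((k + 1) ^ 2 * (Q * (k + 3) ^ 2)) := fun k => by rw [hA]; rfl
  obtain ⟨C, -, hC⟩ := numbers_loop A 28 (4 * l ^ 2) (4 * l ^ 2) (Nat.clog 2 l) d e Q (by norm_num)
    (by omega) (by omega) (fun k => (hAs k).le) E (e + 1) t₁
  refine ⟨2 ^ A 1 * (2 * d * KA l (C + 1)), C, ?_⟩
  intro R hRC c V lev hL hR hE
  rcases V.eq_empty_or_nonempty with rfl | hne
  · simp
  have h3 := ext_card hE hne
  obtain ⟨J, hJ, T, hTR, hT1, hT2, hT3⟩ := hC R hRC
  have hTle : ∀ m, 1 ≤ m → m < J → T m ≤ R := by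
    intro m hm hmJ
    have key : ∀ k, m + k < J → T m ≤ T (m + k) := by
      intro k
      induction k with
      | zero => intro _; exact le_refl _
      | succ k ih =>
        intro hk
        have h1 := ih (by omega)
        have h2 := (hT3 (m + k) (by omega) (by omega)).2.1
        rw [show m + (k + 1) = m + k + 1 by ring]
        omega
    have h1 := key (J - 1 - m) (by omega)
    rw [show m + (J - 1 - m) = J - 1 by omega, hTR] at h1
    exact h1
  have hAJ : 2 ^ A J ≤ V.card := by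
    have h1 := (hT2 (J - 1) (by omega) (by omega)).2.2 J (by omega)
    rw [hTR] at h1
    have h2 : A J ≤ R := by
      calc A J ≤ 1 * (A J + (e + 1)) := by omega
        _ ≤ E * (A J + (e + 1)) := Nat.mul_le_mul_right _ hE1
        _ ≤ R := h1
    calc 2 ^ A J ≤ 2 ^ R := Nat.pow_le_pow_right (by norm_num) h2
      _ ≤ l ^ R := Nat.pow_le_pow_left (by omega) _
      _ ≤ V.card := h3
  obtain ⟨U, G, hZ⟩ := zones hl hL hR hE (d := d) (e := e) (by omega) he
    (fun k => Q * (k + 2) ^ 2) A hA0 J (fun k _ => by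
      rw [hAs k]) hAJ
  have h1 := loop hl hL hR hZ hd0 he (fun k => Nat.mul_pos hQ0 (by positivity)) (by
      refine (Sched.sum_q Q J).trans (le_of_eq ?_)
      rw [hQ]
      push_cast
      ring) hJ hTR (by
      intro m hm hmJ
      have h2 := (hT3 m hm hmJ).1
      rw [h2]
      obtain ⟨h4, h400, h5⟩ := hT2 (m + 1) (by omega) (by omega)
      have hTR' := hTle (m + 1) (by omega) (by omega)
      have h6 := h5 (m + 1) (by omega)
      refine stageP hl hL hR hE (hnext c V R lev _ hL hR hE h3 hTR') hd0 (by omega)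
        (hst V.card R (T (m + 1)) (A (m + 1) + e) h4 hTR' ?_ h3)
      rwa [← Nat.add_assoc] at h6)
  calc V.card ≤ 2 ^ A 1 * (2 * d * KA l (T 1 + 1)) * l ^ R := h1
    _ ≤ 2 ^ A 1 * (2 * d * KA l (C + 1)) * l ^ R :=
        Nat.mul_le_mul_right _ (Nat.mul_le_mul_left _ (Nat.mul_le_mul_left _
          (KA_mono (by omega) (by omega))))

/-- the constant factor theorem for the length `l` from the step to the next hub -/
theorem const_of_next (l cs c0 : ℕ) (hl : 3 ≤ l)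
    (hnext : ∀ (c : ℕ → ℕ → ℕ) (V : Finset ℕ) (R : ℕ) (lev : ℕ → ℕ → ℕ) (t : ℕ), Lev c V l lev →
      Rk c V R → Ext l c V R → l ^ R ≤ V.card → t ≤ R → HubNextP l cs c0 c V V.card R t) :
    ∃ K : ℕ, ∀ k n : ℕ, 1 ≤ k → K * l ^ (k - 1) < n → ∀ c : Fin n → Fin n → ℕ,
      (∃ x : Fin (l + 1) → Fin n, StrictMono x ∧
        ∃ col : ℕ, ∀ i : Fin l, c (x i.castSucc) (x i.succ) = col) ∨
      (∃ y : Fin (k + 1) → Fin n, StrictMono y ∧
        Function.Injective (fun i : Fin k => c (y i.castSucc) (y i.succ))) := by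
  obtain ⟨K, T₀, h⟩ := large_of_next l cs c0 hl hnext
  exact const_of_large (by omega) ⟨K, T₀, fun R hR c V lev hL hRk hE => h R hR c V lev hL hRk hE⟩

end FlashRainbow.CFL.M64
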