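import Pool.Agent.Work.MP_54723a_co.CF.Maxim

/-!
# Constant factor for every `l`: reduction to extremal pairs and transfer to `Fin n`

Port of `CF/Maxim.lean` (helper69) to levels `0, .., l - 1`.  (helper6)
The extremality hypothesis is written out; it is `CFL.Ext l c W r` by definition.
-/

set_option autoImplicit false

namespace FlashRainbow.CFL

open Classical FlashRainbow.CF

variable {c : ℕ → ℕ → ℕ} {V : Finset ℕ} {R l : ℕ} {lev : ℕ → ℕ → ℕ}

/-- a pair with maximal ratio -/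
theorem exists_ext (hl : 1 ≤ l) (hR : Rk c V R) :
    ∃ W ⊆ V, ∃ r ≤ R, Rk c W r ∧
      (∀ T ⊆ W, ∀ s ≤ r, Rk c T s → T.card * l ^ (r - s) ≤ W.card) ∧
      V.card ≤ W.card * l ^ (R - r) := by
  set P : Finset (Finset ℕ × ℕ) := (V.powerset ×ˢ Finset.range (R + 1)).filter
    fun p => Rk c p.1 p.2 with hP
  have hmem : ∀ T r, (T, r) ∈ P ↔ T ⊆ V ∧ r ≤ R ∧ Rk c T r := by
    intro T r
    rw [hP, Finset.mem_filter, Finset.mem_product, Finset.mem_powerset, Finset.mem_range,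
      Nat.lt_succ_iff, and_assoc]
  have hne : P.Nonempty := ⟨(V, R), (hmem V R).mpr ⟨Finset.Subset.refl _, le_refl _, hR⟩⟩
  obtain ⟨⟨W, r⟩, hW, hmax⟩ := Finset.exists_max_image P (fun p => p.1.card * l ^ (R - p.2)) hne
  obtain ⟨h1, h2, h3⟩ := (hmem W r).mp hW
  refine ⟨W, h1, r, h2, h3, ?_, ?_⟩
  · intro T hT s hs hTs
    have h4 := hmax (T, s) ((hmem T s).mpr ⟨hT.trans h1, hs.trans h2, hTs⟩)
    simp only at h4
    refine Nat.le_of_mul_le_mul_right (c := l ^ (R - r)) ?_ (by positivity)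
    rw [mul_assoc, ← pow_add]
    have h5 : r - s + (R - r) = R - s := by omega
    rw [h5]
    exact h4
  · have h4 := hmax (V, R) ((hmem V R).mpr ⟨Finset.Subset.refl _, le_refl _, hR⟩)
    simpa using h4

/-- it is enough to bound extremal pairs -/
theorem card_le_of_ext (hl : 1 ≤ l) {C : ℕ} (h : ∀ (W : Finset ℕ) (r : ℕ), Lev c W l lev →
    Rk c W r → (∀ T ⊆ W, ∀ s ≤ r, Rk c T s → T.card * l ^ (r - s) ≤ W.card) →
    W.card ≤ C * l ^ r) (hL : Lev c V l lev) (hR : Rk c V R) :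
    V.card ≤ C * l ^ R := by
  obtain ⟨W, hWV, r, hr, hW, hE, hc⟩ := exists_ext hl hR
  calc V.card ≤ W.card * l ^ (R - r) := hc
    _ ≤ C * l ^ r * l ^ (R - r) := Nat.mul_le_mul_right _ (h W r (hL.mono hWV) hW hE)
    _ = C * l ^ R := by
        rw [mul_assoc, ← pow_add]
        congr 2
        omega

/-- transfer to `Fin n` -/
theorem final_of_ext (hl : 1 ≤ l) {C : ℕ} (h : ∀ (c : ℕ → ℕ → ℕ) (lev : ℕ → ℕ → ℕ)
    (W : Finset ℕ) (r : ℕ), Lev c W l lev → Rk c W r →
    (∀ T ⊆ W, ∀ s ≤ r, Rk c T s → T.card * l ^ (r - s) ≤ W.card) → W.card ≤ C * l ^ r) :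
    ∀ k n : ℕ, 1 ≤ k → C * l ^ (k - 1) < n → ∀ c : Fin n → Fin n → ℕ,
      (∃ x : Fin (l + 1) → Fin n, StrictMono x ∧
        ∃ col : ℕ, ∀ i : Fin l, c (x i.castSucc) (x i.succ) = col) ∨
      (∃ y : Fin (k + 1) → Fin n, StrictMono y ∧
        Function.Injective (fun i : Fin k => c (y i.castSucc) (y i.succ))) := by
  intro k n hk hn c
  by_contra hcon
  rw [not_or] at hcon
  obtain ⟨hflash, hrain⟩ := hcon
  set C' : ℕ → ℕ → ℕ := fun a b => if h : a < n ∧ b < n then c ⟨a, h.1⟩ ⟨b, h.2⟩ else 0 with hC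
  have hCeq : ∀ (a b : ℕ) (ha : a < n) (hb : b < n), C' a b = c ⟨a, ha⟩ ⟨b, hb⟩ := by
    intro a b ha hb
    rw [hC]
    simp only [ha, hb, and_self, dite_true]
  set V := Finset.range n with hV
  have hnoflash : ∀ γ v, ¬ MP C' V γ v l := by
    intro γ v hmp
    obtain ⟨y, _, h1, h2, h3⟩ := hmp.toFun
    have h1' : ∀ i ≤ l, y i < n := fun i hi => Finset.mem_range.mp (h1 i hi)
    apply hflash
    refine ⟨_, strictMono_of_lt_succ y h1' h2, γ, fun i => ?_⟩
    have := h3 i i.2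
    rw [hCeq _ _ (h1' i (by omega)) (h1' (i + 1) (by omega))] at this
    simpa using this
  have hR : Rk C' V (k - 1) := by
    intro x D hD
    by_contra hlt
    obtain ⟨D', _, hcard, hD'⟩ := hD.suffix k (by omega)
    obtain ⟨y, _, h1, h2, _, h4⟩ := hD'.toFun
    rw [hcard] at h1 h2 h4
    have h1' : ∀ i ≤ k, y i < n := fun i hi => Finset.mem_range.mp (h1 i hi)
    apply hrain
    refine ⟨_, strictMono_of_lt_succ y h1' h2, ?_⟩
    intro i j hij
    apply Fin.ext
    apply h4 i i.2 j j.2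
    rw [hCeq _ _ (h1' i (by omega)) (h1' (i + 1) (by omega)),
      hCeq _ _ (h1' j (by omega)) (h1' (j + 1) (by omega))]
    simpa using hij
  set lev : ℕ → ℕ → ℕ := fun γ v => Nat.findGreatest (fun j => MP C' V γ v j) l with hlev
  have hspec : ∀ γ, ∀ v ∈ V, MP C' V γ v (lev γ v) := fun γ v hv =>
    Nat.findGreatest_spec (P := fun j => MP C' V γ v j) (Nat.zero_le l) (MP.single hv)
  have hlevlt : ∀ γ, ∀ v ∈ V, lev γ v < l := by
    intro γ v hv
    refine lt_of_le_of_ne (Nat.findGreatest_le _) ?_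
    intro heq
    have := hspec γ v hv
    rw [heq] at this
    exact hnoflash γ v this
  have hL : Lev C' V l lev := by
    refine ⟨hlevlt, ?_⟩
    intro u hu v hv huv
    have h1 := MP.step (hspec (C' u v) u hu) hv huv rfl
    exact Nat.le_findGreatest (hlevlt (C' u v) u hu) h1
  have h1 := card_le_of_ext (c := C') (lev := lev) (C := C) hl (h C' lev) hL hR
  rw [hV, Finset.card_range] at h1
  omega

end FlashRainbow.CFL
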