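import Pool.Agent.Work.MP_54723a_co.CF.NoFar
import Pool.Agent.Work.MP_54723a_co.CFL.H1

/-!
# Constant factor for every length `l ≥ 3`: junctions with at most three colours exist
(port of CF/NoFar.lean of helper74; helper30)

`SO`, `NoJun`, `NoJun3`, `Chn`, `not_SO_free`, `not_Chn_free` do not depend on the length.
-/

set_option autoImplicit false

namespace FlashRainbow.CFL

open Classical FlashRainbow.CF

variable {c : ℕ → ℕ → ℕ} {V Z K F F' : Finset ℕ} {l R t τ τ₂ x x' M : ℕ} {lev : ℕ → ℕ → ℕ}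

/-- points without a thick own out-class are few -/
theorem not_SO_le (hl : 3 ≤ l) (hL : Lev c V l lev) (hR : Rk c V R) (hH : Hub c V x K F)
    (ht : R ≤ K.card + t) (hZV : Z ⊆ V) (hxZ : ∀ v ∈ Z, x < v) (hxF : ∀ v ∈ Z, c x v ∉ F)
    (hNJ : NoJun c Z K F x τ₂) {T : ℕ} (hT : τ₂ ≤ T) :
    (Z.filter fun u => ¬ SO c Z K x T u).card ≤ l ^ K.card * bG t T := by
  obtain ⟨X, h1, h2, h3⟩ := exists_class (c := c) (X := Z.filter fun u => ¬ SO c Z K x T u) hl
    (hL.mono ((Finset.filter_subset _ _).trans hZV)) K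
  refine h2.trans (Nat.mul_le_mul_left _ ?_)
  exact (not_SO_free hR hH ht hZV hxZ hxF hNJ hT (h1.trans (Finset.filter_subset _ _)) h3
    fun u hu => (Finset.mem_filter.mp (h1 hu)).2).le

/-- the number of points which are not good -/
theorem card_Zgood (hl : 3 ≤ l) (hL : Lev c V l lev) (hR : Rk c V R) (hH : Hub c V x K F)
    (ht : R ≤ K.card + t) (hZV : Z ⊆ V) (hxZ : ∀ v ∈ Z, x < v) (hxF : ∀ v ∈ Z, c x v ∉ F)
    (hNJ : NoJun c Z K F x τ₂) {T : ℕ} (hT : τ₂ ≤ T) :
    Z.card ≤ (Zgood c Z K F' x x' T).card + l ^ K.card * bG t T +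
      (Z.filter fun u => c x' u ∈ F').card := by
  have hsub : Z ⊆ (Zgood c Z K F' x x' T) ∪ (Z.filter fun u => ¬ SO c Z K x T u) ∪
      Z.filter fun u => c x' u ∈ F' := by
    intro v hv
    by_cases h1 : SO c Z K x T v
    · by_cases h2 : c x' v ∈ F'
      · exact Finset.mem_union_right _ (Finset.mem_filter.mpr ⟨hv, h2⟩)
      · exact Finset.mem_union_left _ (Finset.mem_union_left _
          (Finset.mem_filter.mpr ⟨hv, h1, h2⟩))
    · exact Finset.mem_union_left _ (Finset.mem_union_right _ (Finset.mem_filter.mpr ⟨hv, h1⟩))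
  refine (Finset.card_le_card hsub).trans ((Finset.card_union_le _ _).trans ?_)
  refine Nat.add_le_add_right ((Finset.card_union_le _ _).trans ?_) _
  exact Nat.add_le_add_left (not_SO_le hl hL hR hH ht hZV hxZ hxF hNJ hT) _

/-- **helper20's theorem**: a zone behind a hub without junctions of at most three colours is
exponentially small. -/
theorem far_free (hl : 3 ≤ l) (hL : Lev c V l lev) (hR : Rk c V R)
    (hM : ∀ W ⊆ V, ∀ r ≤ R, Rk c W r → W.card * l ^ (R - r) ≤ M)
    (hH : Hub c V x K F) (ht : R ≤ K.card + t) (hZV : Z ⊆ V)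
    (hxZ : ∀ v ∈ Z, x < v) (hxF : ∀ v ∈ Z, c x v ∉ F) (hτ : 0 < τ) (hNJ : NoJun3 c Z K F x τ) :
    Z.card * l ^ (6 * t) ≤ 2 * (t + 1) ^ 2 * 256 ^ t * M +
      l ^ (6 * t) * (l ^ K.card * (bG t τ + (8 * t ^ 2 + 1) * τ)) := by
  have hl2 : 3 ≤ l := hl
  set A := Z.filter fun s => SO c Z K x τ s ∧ Chn c V K x (8 * t) s with hA
  have hAZ : A ⊆ Z := Finset.filter_subset _ _
  -- few points outside `A`
  have hW1 := not_SO_le hl2 hL hR hH ht hZV hxZ hxF hNJ.toNoJun (le_refl τ)
  have hW2 : (Z.filter fun s => SO c Z K x τ s ∧ ¬ Chn c V K x (8 * t) s).card ≤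
      l ^ K.card * ((8 * t ^ 2 + 1) * τ) := by
    obtain ⟨X, h1, h2, h3⟩ := exists_class (c := c)
      (X := Z.filter fun s => SO c Z K x τ s ∧ ¬ Chn c V K x (8 * t) s) hl2
      (hL.mono ((Finset.filter_subset _ _).trans hZV)) K
    refine h2.trans (Nat.mul_le_mul_left _ ?_)
    exact not_Chn_free hR hH ht hZV hxZ hxF hτ hNJ (h1.trans (Finset.filter_subset _ _)) h3
      (fun s hs => (Finset.mem_filter.mp (h1 hs)).2.1)
      (fun s hs => (Finset.mem_filter.mp (h1 hs)).2.2)
  have hZA : Z.card ≤ A.card + l ^ K.card * (bG t τ + (8 * t ^ 2 + 1) * τ) := by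
    have hsub : Z ⊆ A ∪ ((Z.filter fun u => ¬ SO c Z K x τ u) ∪
        Z.filter fun s => SO c Z K x τ s ∧ ¬ Chn c V K x (8 * t) s) := by
      intro v hv
      by_cases h1 : SO c Z K x τ v
      · by_cases h2 : Chn c V K x (8 * t) v
        · exact Finset.mem_union_left _ (Finset.mem_filter.mpr ⟨hv, h1, h2⟩)
        · exact Finset.mem_union_right _ (Finset.mem_union_right _
            (Finset.mem_filter.mpr ⟨hv, h1, h2⟩))
      · exact Finset.mem_union_right _ (Finset.mem_union_left _ (Finset.mem_filter.mpr ⟨hv, h1⟩))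
    have h1 := Finset.card_le_card hsub
    have h2 := Finset.card_union_le A ((Z.filter fun u => ¬ SO c Z K x τ u) ∪
        Z.filter fun s => SO c Z K x τ s ∧ ¬ Chn c V K x (8 * t) s)
    have h3 := Finset.card_union_le (Z.filter fun u => ¬ SO c Z K x τ u)
        (Z.filter fun s => SO c Z K x τ s ∧ ¬ Chn c V K x (8 * t) s)
    rw [Nat.mul_add]
    omega
  -- the chains
  have hch : ∀ s ∈ A, ∃ C : Finset ℕ, C.card = 8 * t ∧ c x s ∉ C ∧ Disjoint C K ∧ RP c V s C :=
    fun s hs => (Finset.mem_filter.mp hs).2.2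
  choose! C hC1 hC2 hC3 hC4 using hch
  -- selection of `Y`
  obtain ⟨T, hTA, hTc, hT⟩ := exists_select (l := 2) (T := A) (by norm_num)
    (fun v => insert (c x v) (C v)) (8 * t + 1) (by
      intro v hv
      exact (Finset.card_insert_le _ _).trans (by rw [hC1 v hv]))
    (lev := fun γ v => if γ = c x v then 0 else 1) (by
      intro γ v _
      split_ifs <;> norm_num)
  have hTZ : T ⊆ Z := hTA.trans hAZ
  have hTV : T ⊆ V := hTZ.trans hZV
  set Y := T.biUnion C with hY
  have hfY : ∀ v ∈ T, c x v ∉ Y := by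
    intro v hv h
    obtain ⟨u, hu, huv⟩ := Finset.mem_biUnion.mp h
    have h1 := hT u hu v hv (c x v) (Finset.mem_insert_of_mem huv) (Finset.mem_insert_self _ _)
    rw [if_pos rfl] at h1
    by_cases h2 : c x v = c x u
    · rw [h2] at huv
      exact hC2 u (hTA hu) huv
    · rw [if_neg h2] at h1
      exact absurd h1 (by norm_num)
  have hYK : Disjoint Y K := by
    rw [Finset.disjoint_left]
    intro γ hγ hγK
    obtain ⟨u, hu, huγ⟩ := Finset.mem_biUnion.mp hγ
    exact Finset.disjoint_left.mp (hC3 u (hTA hu)) huγ hγK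
  have hsame : ∀ u ∈ T, ∀ v ∈ T, u < v → c u v ∈ Y → c x u = c x v := by
    intro u hu v hv huv hc
    rcases hNJ.star (hTZ hu) (hTZ hv) huv (Finset.mem_filter.mp (hTA hv)).2.1 with h | h | h | h
    · exact h
    · rw [h] at hc
      exact absurd hc (hfY u hu)
    · rw [h] at hc
      exact absurd hc (hfY v hv)
    · exact absurd (hH.1 h) (fun h' => Finset.disjoint_left.mp hYK hc h')
  -- `chi`
  set Θ := ((T ×ˢ T).image fun p => c p.1 p.2) \ Y with hΘ
  have hcolT : Col c T ((T ×ˢ T).image fun p => c p.1 p.2) := by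
    intro u hu v hv _
    exact Finset.mem_image.mpr ⟨(u, v), Finset.mem_product.mpr ⟨hu, hv⟩, rfl⟩
  have hshort : ∀ y D, RP c T y D → Disjoint D Θ → D.card ≤ t := by
    intro y D hD hdis
    have hDY : D ⊆ Y := by
      intro γ hγ
      by_contra hγY
      refine Finset.disjoint_left.mp hdis hγ (Finset.mem_sdiff.mpr ⟨?_, hγY⟩)
      exact RP.subset_of_col hD hcolT hγ
    have hstay : ∀ y D, RP c T y D → D ⊆ Y → RP c (T.filter fun v => c x v = c x y) y D := by
      intro y D h
      induction h with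
      | @single y hy => intro _; exact RP.single (Finset.mem_filter.mpr ⟨hy, rfl⟩)
      | @step a b D h hb hab hc ih =>
        intro hsub
        have h1 := ih ((Finset.subset_insert _ _).trans hsub)
        have h2 := hsame a h.mem b hb hab (hsub (Finset.mem_insert_self _ _))
        rw [h2] at h1
        exact RP.step h1 (Finset.mem_filter.mpr ⟨hb, rfl⟩) hab hc
    have h1 := hstay y D hD hDY
    have hyT : y ∈ T := hD.mem
    have hg : c x y ∉ F := hxF y (hTZ hyT)
    have h2 := card_add_le (Θ := insert (c x y) K) (e := K.card) hR h1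
      ((Finset.filter_subset _ _).trans hTV) (by
        intro v hv
        obtain ⟨hvT, hvy⟩ := Finset.mem_filter.mp hv
        refine ⟨insert (c x y) (K.erase (c x y)),
          Finset.insert_subset_insert _ (Finset.erase_subset _ _), ?_, ?_⟩
        · rw [Finset.card_insert_of_notMem (Finset.notMem_erase _ _)]
          have := Finset.pred_card_le_card_erase (s := K) (a := c x y)
          omega
        · have h3 := hH.2 (K.erase (c x y)) (fun z hz => Finset.mem_erase.mpr
            ⟨fun h => hg (h ▸ hz), hH.1 hz⟩) (Finset.erase_subset _ _)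
          have h4 := RP.step h3 (hTV hvT) (hxZ v (hTZ hvT)) (by
            rw [hvy]
            exact Finset.notMem_erase _ _)
          rwa [hvy] at h4) (by
        rw [Finset.disjoint_insert_right]
        exact ⟨fun h => hfY y hyT (hDY h), Finset.disjoint_of_subset_left hDY hYK⟩)
    omega
  obtain ⟨X, hXT, hXcol, hXc⟩ := chi (l := l) (by omega) (hL.mono hTV) hshort
  -- the rank of `X`
  have hrkX : ∀ y D, RP c X y D → D.card + 8 * t ≤ R := by
    intro y D hD
    have hDΘ : D ⊆ Θ := RP.subset_of_col hD hXcol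
    refine card_add_le (Θ := Y) hR hD (hXT.trans hTV) ?_ ?_
    · intro v hv
      exact ⟨C v, Finset.subset_biUnion_of_mem C (hXT hv), (hC1 v (hTA (hXT hv))).ge,
        hC4 v (hTA (hXT hv))⟩
    · rw [Finset.disjoint_left]
      intro γ hγ
      exact (Finset.mem_sdiff.mp (hDΘ hγ)).2
  have hXM : X.card * l ^ (8 * t) ≤ M := by
    rcases X.eq_empty_or_nonempty with h | ⟨v, hv⟩
    · rw [h, Finset.card_empty, Nat.zero_mul]
      exact Nat.zero_le _
    · have h1 := hrkX v ∅ (RP.single hv)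
      rw [Finset.card_empty, Nat.zero_add] at h1
      have h2 := hM X (hXT.trans hTV) (R - 8 * t) (Nat.sub_le _ _) (by
        intro y D hD
        have := hrkX y D hD
        omega)
      rwa [show R - (R - 8 * t) = 8 * t by omega] at h2
  -- arithmetic
  have hAX : A.card * l ^ (6 * t) ≤ 2 * (t + 1) ^ 2 * 256 ^ t * M := by
    have h1 : A.card * l ^ (6 * t) * l ^ (2 * t) ≤
        2 * (t + 1) ^ 2 * 256 ^ t * M * l ^ (2 * t) := by
      calc A.card * l ^ (6 * t) * l ^ (2 * t) = A.card * l ^ (8 * t) := by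
            rw [mul_assoc, ← pow_add]
            congr 2
            ring
        _ ≤ 2 ^ (8 * t + 1) * T.card * l ^ (8 * t) :=
            Nat.mul_le_mul_right _ hTc
        _ ≤ 2 ^ (8 * t + 1) * ((t + 1) ^ 2 * l ^ (2 * t) * X.card) * l ^ (8 * t) :=
            Nat.mul_le_mul_right _ (Nat.mul_le_mul_left _ hXc)
        _ = 2 * (t + 1) ^ 2 * 256 ^ t * (X.card * l ^ (8 * t)) * l ^ (2 * t) := by
            rw [pow_succ, pow_mul]
            norm_num
            ring
        _ ≤ 2 * (t + 1) ^ 2 * 256 ^ t * M * l ^ (2 * t) :=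
            Nat.mul_le_mul_right _ (Nat.mul_le_mul_left _ hXM)
    exact Nat.le_of_mul_le_mul_right h1 (by positivity)
  calc Z.card * l ^ (6 * t)
      ≤ (A.card + l ^ K.card * (bG t τ + (8 * t ^ 2 + 1) * τ)) * l ^ (6 * t) :=
        Nat.mul_le_mul_right _ hZA
    _ = A.card * l ^ (6 * t) + l ^ (6 * t) * (l ^ K.card * (bG t τ + (8 * t ^ 2 + 1) * τ)) := by
        ring
    _ ≤ _ := Nat.add_le_add_right hAX _

end FlashRainbow.CFL
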