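import Pool.Agent.Work.MP_54723a_co.CF.PrivLab

/-!
# Private labels for every length `l ≥ 3` (port of CF/PrivLab.lean; helper45)

`lab_reduce`, `deep_core`, `deep_le`, `thin_of_arc` (`|Θ| = R`), as far as they are needed for
`rich_plain`.
-/

set_option autoImplicit false

namespace FlashRainbow.CFL

open Classical FlashRainbow.CF

variable {c : ℕ → ℕ → ℕ} {V T W U X Θ : Finset ℕ} {l R C d e h : ℕ} {lev : ℕ → ℕ → ℕ}

/-- Steps (a), (b), (c). -/
theorem lab_reduce (hl : 3 ≤ l) (hL : Lev c U l lev) (g : ℕ → ℕ)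
    (hC : ∀ u ∈ U, ∀ D, RP c U u D → Disjoint D Θ → g u ∉ D → D.card ≤ C) :
    ∃ W ⊆ U, (∀ u ∈ W, ∀ v ∈ W, u < v → c u v ∈ Θ ∨ c u v = g v ∧ g u ≠ g v) ∧
      U.card ≤ (C + 1) * 2 ^ (C + 1) * ((C + 1) ^ 2 * l ^ (2 * C)) * l * W.card := by
  -- (a) longest paths
  set pb : ℕ → ℕ → Prop := fun w j =>
    ∃ D, RP c U w D ∧ Disjoint D Θ ∧ g w ∉ D ∧ D.card = j with hpb
  have hpbt : ∀ w ∈ U, ∀ j, pb w j → j ≤ C := by
    rintro w hw j ⟨D, h1, h2, h3, rfl⟩
    exact hC w hw D h1 h2 h3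
  have hpb0 : ∀ w ∈ U, pb w 0 := fun w hw =>
    ⟨∅, RP.single hw, Finset.disjoint_empty_left _, Finset.notMem_empty _, rfl⟩
  set fb : ℕ → ℕ := fun v => Nat.findGreatest (pb v) C with hfb
  have hb' : ∀ w ∈ U, ∃ D, RP c U w D ∧ Disjoint D Θ ∧ g w ∉ D ∧ D.card = fb w :=
    fun w hw => Nat.findGreatest_spec (P := pb w) (Nat.zero_le _) (hpb0 w hw)
  choose! P hP using hb'
  obtain ⟨y, -, hy⟩ := exists_big_fiber U fb (Finset.range (C + 1)) ⟨0, by simp⟩ (by
      intro v _
      rw [Finset.mem_range]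
      exact Nat.lt_succ_of_le (Nat.findGreatest_le _))
  rw [Finset.card_range] at hy
  set U₁ := U.filter fun v => fb v = y with hU₁
  have hU₁U : U₁ ⊆ U := Finset.filter_subset _ _
  obtain ⟨U₂, hU₂, hU₂c, hU₂s⟩ := exists_select (T := U₁) (l := 2)
    (lev := fun γ v => if γ = g v then 1 else 0) (by omega) (fun v => insert (g v) (P v))
    (C + 1) (by
      intro v hv
      have h1 := (hP v (hU₁U hv)).2.2.2
      have h2 : fb v ≤ C := Nat.findGreatest_le _
      have h3 := Finset.card_insert_le (g v) (P v)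
      omega) (by
      intro γ v _
      split_ifs <;> omega)
  have hU₂U : U₂ ⊆ U := hU₂.trans hU₁U
  have hpriv : ∀ u ∈ U₂, ∀ v ∈ U₂, g u ∉ P v := by
    intro u hu v hv h
    have h1 := hU₂s u hu v hv (g u) (Finset.mem_insert_self _ _) (Finset.mem_insert_of_mem h)
    simp only [if_true] at h1
    split_ifs at h1 with h2
    exact (hP v (hU₂U hv)).2.2.1 (h2 ▸ h)
  have harc : ∀ u ∈ U₂, ∀ v ∈ U₂, u < v → c u v ∉ Θ → c u v = g v ∨ c u v ∈ P u := by
    intro u hu v hv huv hcΘ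
    by_contra hnot
    rw [not_or] at hnot
    obtain ⟨h1, h2, h3, h4⟩ := hP u (hU₂U hu)
    have h5 := RP.step h1 (hU₂U hv) huv hnot.2
    have h6 : pb v (fb u + 1) := by
      refine ⟨_, h5, ?_, ?_, ?_⟩
      · rw [Finset.disjoint_insert_left]; exact ⟨hcΘ, h2⟩
      · rw [Finset.mem_insert, not_or]
        exact ⟨fun h => hnot.1 h.symm, hpriv v hv u hu⟩
      · rw [Finset.card_insert_of_notMem hnot.2, h4]
    have h7 := Nat.le_findGreatest (hpbt _ (hU₂U hv) _ h6) h6
    have h8 : fb u + 1 ≤ fb v := h7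
    have h9 := (Finset.mem_filter.mp (hU₂ hu)).2
    have h10 := (Finset.mem_filter.mp (hU₂ hv)).2
    omega
  -- (b) thin extraction for `Θ` and all labels
  obtain ⟨W₁, hW₁, hcol, hW₁c⟩ := chi (l := l) (U := U₂) (Θ := Θ ∪ U₂.image g) (C := C) (by omega)
    (hL.mono hU₂U) (by
      intro u D hD hdis
      rw [Finset.disjoint_union_right] at hdis
      refine hC u (hU₂U hD.mem) D (hD.mono hU₂U) hdis.1 fun h => ?_
      exact (Finset.disjoint_left.mp hdis.2 h) (Finset.mem_image_of_mem _ hD.mem))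
  have harc₁ : ∀ u ∈ W₁, ∀ v ∈ W₁, u < v → c u v ∈ Θ ∨ c u v = g v := by
    intro u hu v hv huv
    by_contra hnot
    rw [not_or] at hnot
    have h1 := Finset.mem_union.mp (hcol u hu v hv huv)
    rcases h1 with h1 | h1
    · exact hnot.1 h1
    · obtain ⟨w, hw, hgw⟩ := Finset.mem_image.mp h1
      rcases harc u (hW₁ hu) v (hW₁ hv) huv hnot.1 with h2 | h2
      · exact hnot.2 h2
      · rw [← hgw] at h2
        exact hpriv w hw u (hW₁ hu) h2
  -- (c) one level of the own label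
  obtain ⟨z, -, hz⟩ := exists_big_fiber W₁ (fun v => lev (g v) v) (Finset.range l)
    ⟨0, Finset.mem_range.mpr (by omega)⟩ (by
      intro v hv
      rw [Finset.mem_range]
      exact hL.lt _ v (hU₂U (hW₁ hv)))
  rw [Finset.card_range] at hz
  set W₂ := W₁.filter fun v => lev (g v) v = z with hW₂
  have hW₂W : W₂ ⊆ W₁ := Finset.filter_subset _ _
  refine ⟨W₂, hW₂W.trans (hW₁.trans hU₂U), ?_, ?_⟩
  · intro u hu v hv huv
    rcases harc₁ u (hW₂W hu) v (hW₂W hv) huv with h1 | h1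
    · exact Or.inl h1
    · refine Or.inr ⟨h1, fun h2 => ?_⟩
      have h3 := hL.up u (hU₂U (hW₁ (hW₂W hu))) v (hU₂U (hW₁ (hW₂W hv))) huv
      rw [h1] at h3
      have h4 := (Finset.mem_filter.mp hu).2
      have h5 := (Finset.mem_filter.mp hv).2
      rw [h2] at h4
      omega
  · calc U.card ≤ (C + 1) * U₁.card := hy
      _ ≤ (C + 1) * (2 ^ (C + 1) * U₂.card) := Nat.mul_le_mul_left _ hU₂c
      _ ≤ (C + 1) * (2 ^ (C + 1) * ((C + 1) ^ 2 * l ^ (2 * C) * W₁.card)) := by gcongr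
      _ ≤ (C + 1) * (2 ^ (C + 1) * ((C + 1) ^ 2 * l ^ (2 * C) * (l * W₂.card))) := by gcongr
      _ = _ := by ring

theorem deep_core {q : ℕ} (hl : 3 ≤ l) (hL : Lev c W l lev) (hR : Rk c W (q + h)) (g : ℕ → ℕ)
    (hW : ∀ u ∈ W, ∀ v ∈ W, u < v → c u v ∈ Θ ∨ c u v = g v ∧ g u ≠ g v)
    (P : ℕ → Finset ℕ) (hT : T ⊆ W)
    (hP : ∀ u ∈ T, RP c W u (P u) ∧ Disjoint (P u) Θ ∧ (P u).card = h)
    (hpriv : ∀ u ∈ T, ∀ v ∈ T, ∀ γ ∈ P v, γ ≠ g v → g u ≠ γ) :
    (T.card : ℝ) * ((2 : ℝ) / (l : ℕ)) ^ Θ.card ≤ 2 ^ q * (h + 1) := by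
  have hl0 : (3 : ℝ) ≤ l := by exact_mod_cast hl
  have hLT := hL.mono hT
  have h := select (l := l) (by omega) (OnFlash c T) T hLT.lt (2 ^ q * (h + 1)) Θ T
    (Finset.Subset.refl _) (by
      intro T' hT' hsel
      have hT'W : T' ⊆ W := hT'.trans hT
      have hno : ∀ a ∈ T', ∀ b ∈ T', ∀ d ∈ T', a < b → b < d → c a b ≠ c b d := by
        intro a ha b hb d hd hab hbd heq
        rcases hW a (hT'W ha) b (hT'W hb) hab with h1 | h1
        · obtain ⟨i, j, hij⟩ := hsel (c a b) h1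
          have haV := hT' ha
          have hbV := hT' hb
          have hdV := hT' hd
          have h1 := hLT.up a haV b hbV hab
          have h2 := hLT.up b hbV d hdV hbd
          rw [← heq] at h2
          have fa := hij a ha ⟨a, haV, b, hbV, d, hdV, hab, hbd, rfl, heq.symm, Or.inl rfl⟩
          have fb := hij b hb ⟨a, haV, b, hbV, d, hdV, hab, hbd, rfl, heq.symm, Or.inr (Or.inl rfl)⟩
          have fd := hij d hd ⟨a, haV, b, hbV, d, hdV, hab, hbd, rfl, heq.symm, Or.inr (Or.inr rfl)⟩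
          omega
        · rcases hW b (hT'W hb) d (hT'W hd) hbd with h2 | h2
          · obtain ⟨i, j, hij⟩ := hsel (c b d) h2
            have haV := hT' ha
            have hbV := hT' hb
            have hdV := hT' hd
            have h1 := hLT.up a haV b hbV hab
            have h2 := hLT.up b hbV d hdV hbd
            rw [heq] at h1
            have fa := hij a ha ⟨a, haV, b, hbV, d, hdV, hab, hbd, heq, rfl, Or.inl rfl⟩
            have fb := hij b hb ⟨a, haV, b, hbV, d, hdV, hab, hbd, heq, rfl, Or.inr (Or.inl rfl)⟩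
            have fd := hij d hd ⟨a, haV, b, hbV, d, hdV, hab, hbd, heq, rfl, Or.inr (Or.inr rfl)⟩
            omega
          · exact h2.2 (by rw [← h1.1, ← h2.1, heq])
      have h3 : T'.card ≤ 2 ^ q * (h + 1) := by
        refine ninf_out g q h T' hno (fun y D hD => hR y D (hD.mono hT'W)) fun u hu D hD hg => ?_
        obtain ⟨h4, h5, h6⟩ := hP u (hT' hu)
        have hdis : Disjoint D (P u) := by
          rw [Finset.disjoint_right]
          intro γ hγ
          by_cases h7 : γ = g u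
          · rw [h7]
            exact hg
          · refine hD.notMem_of_free fun x hx y hy hxy hc => ?_
            rcases hW x (hT'W hx) y (hT'W hy) hxy with h8 | h8
            · rw [hc] at h8
              exact Finset.disjoint_left.mp h5 hγ h8
            · exact hpriv y (hT' hy) u (hT' hu) γ hγ h7 (by rw [← h8.1, hc])
        obtain ⟨y, hy⟩ := hD.join hT'W (P u) h4 hdis
        have h7 := hR _ _ hy
        rw [Finset.card_union_of_disjoint hdis.symm] at h7
        omega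
      exact_mod_cast h3)
  refine le_trans ?_ h
  rw [← nsmul_eq_mul, ← Finset.sum_const]
  refine Finset.sum_le_sum fun v _ => ?_
  refine pow_le_pow_of_le_one (by positivity) ?_ (Finset.card_filter_le _ _)
  rw [div_le_one (by linarith)]
  linarith

/-- Step (d). -/
theorem deep_le {q : ℕ} (hl : 3 ≤ l) (hL : Lev c W l lev) (hR : Rk c W (q + h)) (hh : 1 ≤ h) (g : ℕ → ℕ)
    (hW : ∀ u ∈ W, ∀ v ∈ W, u < v → c u v ∈ Θ ∨ c u v = g v ∧ g u ≠ g v) :
    (W.filter fun u => ∃ D, RP c W u D ∧ Disjoint D Θ ∧ D.card = h).card * 2 ^ Θ.card ≤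
      4 * h * (h + 1) * 2 ^ q * l ^ Θ.card := by
  have hl0 : (3 : ℝ) ≤ l := by exact_mod_cast hl
  set U₁ := W.filter fun u => ∃ D, RP c W u D ∧ Disjoint D Θ ∧ D.card = h with hU₁
  have hU₁W : U₁ ⊆ W := Finset.filter_subset _ _
  have hex : ∀ u ∈ U₁, ∃ D, RP c W u D ∧ Disjoint D Θ ∧ D.card = h :=
    fun u hu => (Finset.mem_filter.mp hu).2
  choose! P hP using hex
  have hgP : ∀ u ∈ U₁, g u ∈ P u := fun u hu =>
    mem_of_last hW (hP u hu).1 (by rw [(hP u hu).2.2]; omega) (hP u hu).2.1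
  have hh0 : (0 : ℝ) < h := by exact_mod_cast hh
  have hh1 : (1 : ℝ) ≤ h := by exact_mod_cast hh
  set τ : ℝ := 1 / (2 * h) with hτ
  have hτ0 : 0 < τ := by positivity
  have hτ1 : τ ≤ 1 / 2 := by
    rw [hτ, div_le_div_iff₀ (by positivity) (by norm_num)]
    linarith
  set N : ℝ := 2 ^ q * (h + 1) * ((l : ℝ) / 2) ^ Θ.card with hN
  set Γ := U₁.biUnion P with hΓ
  set keep : ℕ → ℕ → ℕ → Prop := fun γ o v =>
    if o = 1 then γ = g v ∨ γ ∉ P v else γ ≠ g v with hkeep
  have hch := choose_options {0, 1} (fun o => if o = 1 then τ else 1 - τ) (by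
      intro o _
      split_ifs
      · exact hτ0.le
      · linarith) (by
      rw [Finset.sum_pair (by norm_num)]
      simp) keep N (by positivity) Γ U₁ (by
      intro f hf
      set T := U₁.filter fun v => ∀ γ ∈ Γ, keep γ (f γ) v with hT
      have hTU : T ⊆ U₁ := Finset.filter_subset _ _
      have hfg : ∀ u ∈ T, f (g u) = 1 := by
        intro u hu
        have h1 := (Finset.mem_filter.mp hu).2 (g u)
          (Finset.mem_biUnion.mpr ⟨u, hTU hu, hgP u (hTU hu)⟩)
        by_contra h2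
        rw [hkeep] at h1
        simp only [h2, if_false] at h1
        exact h1 rfl
      have hfZ : ∀ v ∈ T, ∀ γ ∈ P v, γ ≠ g v → f γ ≠ 1 := by
        intro v hv γ hγ hne h2
        have h1 := (Finset.mem_filter.mp hv).2 γ (Finset.mem_biUnion.mpr ⟨v, hTU hv, hγ⟩)
        rw [hkeep] at h1
        simp only [h2, if_true] at h1
        rcases h1 with h1 | h1
        · exact hne h1
        · exact h1 hγ
      have h1 := deep_core (q := q) (h := h) hl hL hR g hW P (hTU.trans hU₁W) (fun u hu => hP u (hTU hu))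
        (fun u hu v hv γ hγ hne heq => hfZ v hv γ hγ hne (heq ▸ hfg u hu))
      have h2 : (T.card : ℝ) = T.card * ((2 : ℝ) / (l : ℕ)) ^ Θ.card * ((l : ℝ) / 2) ^ Θ.card := by
        rw [mul_assoc, ← mul_pow, div_mul_div_comm, mul_comm (2 : ℝ) (l : ℝ),
          div_self (by positivity), one_pow, mul_one]
      have h3 : (T.card : ℝ) ≤ N := by
        rw [h2, hN]
        exact mul_le_mul_of_nonneg_right h1 (by positivity)
      convert h3)
  have hprod : ∀ v ∈ U₁, (1 : ℝ) / (4 * h) ≤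
      ∏ γ ∈ Γ, (∑ o ∈ ({0, 1} : Finset ℕ).filter (fun o => keep γ o v),
        (if o = 1 then τ else 1 - τ)) := by
    intro v hv
    have hval : ∀ γ, (∑ o ∈ ({0, 1} : Finset ℕ).filter (fun o => keep γ o v),
        (if o = 1 then τ else 1 - τ)) =
        if γ ∈ P v then (if γ = g v then τ else 1 - τ) else 1 := by
      intro γ
      rw [Finset.sum_filter, Finset.sum_pair (by norm_num)]
      simp only [hkeep, zero_ne_one, if_false, if_true]
      by_cases h1 : γ = g v
      · have h2 : γ ∈ P v := h1 ▸ hgP v hv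
        simp [h1, h1 ▸ h2]
      · by_cases h2 : γ ∈ P v
        · simp [h1, h2]
        · simp [h1, h2]
    rw [Finset.prod_congr rfl fun γ _ => hval γ]
    have hsub : P v ⊆ Γ := Finset.subset_biUnion_of_mem P hv
    rw [Finset.prod_ite, Finset.prod_const_one, mul_one,
      Finset.filter_mem_eq_inter, Finset.inter_eq_right.mpr hsub,
      ← Finset.mul_prod_erase _ _ (hgP v hv)]
    have h3 : ∏ γ ∈ (P v).erase (g v), (if γ = g v then τ else 1 - τ) = (1 - τ) ^ (h - 1) := by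
      rw [Finset.prod_congr rfl (g := fun _ => 1 - τ) (fun γ hγ => if_neg (Finset.ne_of_mem_erase hγ)),
        Finset.prod_const, Finset.card_erase_of_mem (hgP v hv), (hP v hv).2.2]
    rw [h3, if_pos rfl]
    have h4 := one_add_mul_le_pow (a := -τ) (by linarith) (h - 1)
    have h5 : (1 : ℝ) / 2 ≤ (1 - τ) ^ (h - 1) := by
      refine le_trans ?_ (h4.trans (le_of_eq (by ring)))
      rw [Nat.cast_sub hh, Nat.cast_one, hτ]
      have : ((h : ℝ) - 1) * -(1 / (2 * h)) = -(1 / 2) + 1 / (2 * h) := by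
        field_simp
        ring
      rw [this]
      have : 0 < 1 / (2 * (h : ℝ)) := by positivity
      linarith
    calc (1 : ℝ) / (4 * h) = τ * (1 / 2) := by rw [hτ]; field_simp; norm_num
      _ ≤ τ * (1 - τ) ^ (h - 1) := mul_le_mul_of_nonneg_left h5 hτ0.le
  have h6 : (U₁.card : ℝ) * (1 / (4 * h)) ≤ N := by
    refine le_trans ?_ hch
    rw [← nsmul_eq_mul, ← Finset.sum_const]
    refine Finset.sum_le_sum fun v hv => (hprod v hv).trans (le_of_eq ?_)
    congr!
  have h7 : (U₁.card : ℝ) * 2 ^ Θ.card ≤ 4 * h * (h + 1) * 2 ^ q * (l : ℝ) ^ Θ.card := by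
    rw [mul_one_div, div_le_iff₀ (by positivity)] at h6
    have h8 : ((l : ℝ) / 2) ^ Θ.card * 2 ^ Θ.card = (l : ℝ) ^ Θ.card := by
      rw [← mul_pow, div_mul_cancel₀ _ (by norm_num)]
    calc (U₁.card : ℝ) * 2 ^ Θ.card ≤ N * (4 * h) * 2 ^ Θ.card :=
          mul_le_mul_of_nonneg_right h6 (by positivity)
      _ = 4 * h * (h + 1) * 2 ^ q * (((l : ℝ) / 2) ^ Θ.card * 2 ^ Θ.card) := by rw [hN]; ring
      _ = _ := by rw [h8]
  exact_mod_cast h7

/-- Step (e). -/
theorem thin_of_arc (hl : 3 ≤ l) (hL : Lev c W l lev) (hR : Rk c W R) (g : ℕ → ℕ)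
    (hW : ∀ u ∈ W, ∀ v ∈ W, u < v → c u v ∈ Θ ∨ c u v = g v ∧ g u ≠ g v)
    (hΘ : Θ.card = R) (hd : l ^ R ≤ 2 ^ d * W.card) :
    ∃ X ⊆ W, Col c X Θ ∧ W.card ≤ 2 ^ (1 + 2 * (2 * (d + 15))) * X.card := by
  have hlpos : ∀ n, 0 < l ^ n := fun n => Nat.pow_pos (by omega)
  set m := d + 15 with hm
  set h := 2 * m with hh
  set U₁ := W.filter fun u => ∃ D, RP c W u D ∧ Disjoint D Θ ∧ D.card = h with hU₁
  set W₂ := W.filter fun u => ¬ ∃ D, RP c W u D ∧ Disjoint D Θ ∧ D.card = h with hW₂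
  have hW₂W : W₂ ⊆ W := Finset.filter_subset _ _
  have hsplit : U₁.card + W₂.card = W.card := Finset.card_filter_add_card_filter_not _
  have h1 : 2 * U₁.card ≤ W.card := by
    rcases le_or_gt h R with hle | hgt
    · obtain ⟨q, rfl⟩ : ∃ q, R = q + h := ⟨R - h, by omega⟩
      have h2 := deep_le (q := q) (h := h) hl hL hR (by omega) g hW
      rw [← hU₁, hΘ] at h2
      by_contra hcon
      push Not at hcon
      have h3 : l ^ (q + h) * 2 ^ (q + h) < l ^ (q + h) * 2 ^ (q + h) := by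
        calc l ^ (q + h) * 2 ^ (q + h) ≤ (2 ^ d * W.card) * 2 ^ (q + h) :=
              Nat.mul_le_mul_right _ hd
          _ < (2 ^ d * (2 * U₁.card)) * 2 ^ (q + h) := by gcongr
          _ = 2 ^ d * 2 * (U₁.card * 2 ^ (q + h)) := by ring
          _ ≤ 2 ^ d * 2 * (4 * h * (h + 1) * 2 ^ q * l ^ (q + h)) :=
              Nat.mul_le_mul_left _ h2
          _ = l ^ (q + h) * (2 ^ d * 2 ^ q * (16 * m * (2 * m + 1))) := by
              rw [hh]
              ring
          _ ≤ l ^ (q + h) * (2 ^ d * 2 ^ q * 2 ^ m) := by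
              have h5 := arith_m (m := m) (by omega)
              gcongr
          _ ≤ l ^ (q + h) * 2 ^ (q + h) := by
              refine Nat.mul_le_mul_left _ ?_
              rw [← pow_add, ← pow_add]
              exact Nat.pow_le_pow_right (by norm_num) (by omega)
      exact lt_irrefl _ h3
    · have h2 : U₁ = ∅ := by
        rw [hU₁, Finset.filter_eq_empty_iff]
        rintro u _ ⟨D, hD, _, hc⟩
        have := hR _ _ hD
        omega
      rw [h2, Finset.card_empty]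
      omega
  -- longest paths
  set pb : ℕ → ℕ → Prop := fun w j => ∃ D, RP c W w D ∧ Disjoint D Θ ∧ D.card = j with hpb
  have hpbt : ∀ w ∈ W₂, ∀ j, pb w j → j ≤ h := by
    rintro w hw j ⟨D, h1, h2, rfl⟩
    by_contra hcon
    obtain ⟨D', h3, h4, h5⟩ := h1.suffix h (by omega)
    exact (Finset.mem_filter.mp hw).2 ⟨D', h5, h2.mono_left h3, h4⟩
  have hpb0 : ∀ w ∈ W₂, pb w 0 := fun w hw =>
    ⟨∅, RP.single (hW₂W hw), Finset.disjoint_empty_left _, rfl⟩
  set fb : ℕ → ℕ := fun v => Nat.findGreatest (pb v) h with hfb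
  have hb' : ∀ w ∈ W₂, ∃ D, RP c W w D ∧ Disjoint D Θ ∧ D.card = fb w :=
    fun w hw => Nat.findGreatest_spec (P := pb w) (Nat.zero_le _) (hpb0 w hw)
  choose! P hP using hb'
  obtain ⟨y, -, hy⟩ := exists_big_fiber W₂ fb (Finset.range (h + 1)) ⟨0, by simp⟩ (by
      intro v _
      rw [Finset.mem_range]
      exact Nat.lt_succ_of_le (Nat.findGreatest_le _))
  rw [Finset.card_range] at hy
  set W₃ := W₂.filter fun v => fb v = y with hW₃
  have hW₃W : W₃ ⊆ W₂ := Finset.filter_subset _ _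
  obtain ⟨X, hX, hXc, hXs⟩ := exists_select (T := W₃) (l := 2)
    (lev := fun γ v => if γ = g v then 1 else 0) (by omega) P h (by
      intro v hv
      rw [(hP v (hW₃W hv)).2.2]
      exact Nat.findGreatest_le _) (by
      intro γ v _
      split_ifs <;> omega)
  have hX₂ : X ⊆ W₂ := hX.trans hW₃W
  refine ⟨X, hX₂.trans hW₂W, ?_, ?_⟩
  · intro u hu v hv huv
    by_contra hnot
    rcases hW u (hW₂W (hX₂ hu)) v (hW₂W (hX₂ hv)) huv with h2 | ⟨h2, h3⟩
    · exact hnot h2
    have hyu : fb u = y := (Finset.mem_filter.mp (hX hu)).2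
    have hyv : fb v = y := (Finset.mem_filter.mp (hX hv)).2
    obtain ⟨h4, h5, h6⟩ := hP u (hX₂ hu)
    obtain ⟨h7, h8, h9⟩ := hP v (hX₂ hv)
    by_cases h10 : c u v ∈ P u
    · have h11 : 0 < (P u).card := Finset.card_pos.mpr ⟨_, h10⟩
      have h12 : g v ∈ P v := mem_of_last hW h7 (by omega) h8
      have h13 := hXs u hu v hv (g v) (by rw [← h2]; exact h10) h12
      simp only [if_true] at h13
      split_ifs at h13 with h14
      exact h3 h14.symm
    · have h11 := RP.step h4 (hW₂W (hX₂ hv)) huv h10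
      have h12 : pb v (fb u + 1) := by
        refine ⟨_, h11, ?_, ?_⟩
        · rw [Finset.disjoint_insert_left]; exact ⟨hnot, h5⟩
        · rw [Finset.card_insert_of_notMem h10, h6]
      have h13 := Nat.le_findGreatest (hpbt _ (hX₂ hv) _ h12) h12
      have h14 : fb u + 1 ≤ fb v := h13
      omega
  · have h2 : h + 1 ≤ 2 ^ h := Nat.lt_two_pow_self
    calc W.card ≤ 2 * W₂.card := by omega
      _ ≤ 2 * ((h + 1) * W₃.card) := Nat.mul_le_mul_left _ hy
      _ ≤ 2 * (2 ^ h * (2 ^ h * X.card)) := by gcongr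
      _ = 2 ^ (1 + 2 * h) * X.card := by
          rw [pow_add, pow_mul']
          ring

end FlashRainbow.CFL
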